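import Pool.Agent.Lib.MP_c85d9c_lc.Spec

/-!
# Programs with bounded counters run in polynomial time

If all counters and the input stay bounded by `N` then the running time of a program `c` is at most
`(bd c).eval N`, where `bd c` is a polynomial that is read off from `c`.
-/

set_option linter.unusedSectionVars false

namespace Pool.Agent.Lib.MP_dc7e63_lc

open Function Pool.Agent.Lib.MP_c85d9c_lc

variable {A R : Type} [DecidableEq R] [Inhabited A] [Fintype A]

/-- The polynomial that bounds the running time. -/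
noncomputable def bd : Cmd A R → Polynomial ℕ
  | .skip => 1
  | .out _ => 1
  | .inc _ => 1
  | .clr _ => Polynomial.X + 1
  | .seq c d => bd c + bd d
  | .each _ f => Polynomial.X * (∑ a, bd (f a) + 1) + (Polynomial.X + 2)

/-- Started with the values `ρ` of the counters, the program ends with the values `ρ'`, prints `w`
and runs in time at most `(bd c).eval N`. -/
def SB (N : ℕ) (inp : List A) (c : Cmd A R) (ρ ρ' : R → ℕ) (w : List A) : Prop :=
  Cmd.Spec inp c ρ ρ' w ((bd c).eval N)

/-- The same for the programs `f a` with `a` in a list. -/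
def SBL (N : ℕ) (inp : List A) (f : A → Cmd A R) (l : List A) (ρ ρ' : R → ℕ) (w : List A) : Prop :=
  Cmd.SpecL inp f l ρ ρ' w (∑ a, (bd (f a)).eval N)

variable {N : ℕ} {inp : List A}

theorem SB.skip {ρ : R → ℕ} : SB N inp (Cmd.skip : Cmd A R) ρ ρ [] := by
  unfold SB bd
  exact Cmd.Spec.skip.mono (by simp)

theorem SB.out {ρ : R → ℕ} (a : A) : SB N inp (Cmd.out a : Cmd A R) ρ ρ [a] := by
  unfold SB bd
  exact (Cmd.Spec.out a).mono (by simp)

theorem SB.inc {ρ : R → ℕ} (r : R) :
    SB N inp (Cmd.inc r : Cmd A R) ρ (update ρ r (ρ r + 1)) [] := by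
  unfold SB bd
  exact (Cmd.Spec.inc r).mono (by simp)

theorem SB.clr {ρ : R → ℕ} (r : R) (h : ρ r ≤ N) :
    SB N inp (Cmd.clr r : Cmd A R) ρ (update ρ r 0) [] := by
  unfold SB bd
  exact (Cmd.Spec.clr r).mono (by simpa using h)

theorem SB.seq {c d : Cmd A R} {ρ₀ ρ₁ ρ₂ : R → ℕ} {w₁ w₂ : List A}
    (h₁ : SB N inp c ρ₀ ρ₁ w₁) (h₂ : SB N inp d ρ₁ ρ₂ w₂) :
    SB N inp (Cmd.seq c d) ρ₀ ρ₂ (w₁ ++ w₂) := by
  unfold SB bd
  exact (Cmd.Spec.seq h₁ h₂).mono (by simp)

theorem SB.cast {c : Cmd A R} {ρ₀ ρ₁ ρ₁' : R → ℕ} {w w' : List A}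
    (h : SB N inp c ρ₀ ρ₁ w) (h1 : ρ₁ = ρ₁') (h2 : w = w') : SB N inp c ρ₀ ρ₁' w' := by
  subst h1; subst h2; exact h

theorem eval_le_sum (f : A → Cmd A R) (a : A) : (bd (f a)).eval N ≤ ∑ a, (bd (f a)).eval N :=
  Finset.single_le_sum (f := fun a => (bd (f a)).eval N) (fun _ _ => Nat.zero_le _)
    (Finset.mem_univ a)

theorem SBL.nil {f : A → Cmd A R} {ρ : R → ℕ} : SBL N inp f [] ρ ρ [] := Cmd.SpecL.nil

theorem SBL.cons {f : A → Cmd A R} {a : A} {l : List A} {ρ₀ ρ₁ ρ₂ : R → ℕ} {w₁ w₂ : List A}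
    (h₁ : SB N inp (f a) ρ₀ ρ₁ w₁) (h₂ : SBL N inp f l ρ₁ ρ₂ w₂) :
    SBL N inp f (a :: l) ρ₀ ρ₂ (w₁ ++ w₂) :=
  Cmd.SpecL.cons (h₁.mono (eval_le_sum f a)) h₂

theorem SBL.append {f : A → Cmd A R} {l l' : List A} {ρ₀ ρ₁ ρ₂ : R → ℕ} {w₁ w₂ : List A}
    (h₁ : SBL N inp f l ρ₀ ρ₁ w₁) (h₂ : SBL N inp f l' ρ₁ ρ₂ w₂) :
    SBL N inp f (l ++ l') ρ₀ ρ₂ (w₁ ++ w₂) :=
  Cmd.SpecL.append h₁ h₂

theorem SBL.cast {f : A → Cmd A R} {l : List A} {ρ₀ ρ₁ ρ₁' : R → ℕ} {w w' : List A}
    (h : SBL N inp f l ρ₀ ρ₁ w) (h1 : ρ₁ = ρ₁') (h2 : w = w') : SBL N inp f l ρ₀ ρ₁' w' := by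
  subst h1; subst h2; exact h

/-- A pass over the input. -/
theorem SB.pass {f : A → Cmd A R} {ρ ρ' : R → ℕ} {w : List A} (hN : inp.length ≤ N)
    (h : SBL N inp f inp ρ ρ' w) : SB N inp (Cmd.each none f) ρ ρ' w := by
  unfold SB bd
  refine (Cmd.Spec.each (k := none) (fun o => rfl) rfl h).mono ?_
  simp only [Polynomial.eval_add, Polynomial.eval_mul, Polynomial.eval_X, Polynomial.eval_finsetSum,
    Polynomial.eval_one, Polynomial.eval_ofNat]
  gcongr

/-- A loop over a counter. -/
theorem SB.for {r : R} {f : A → Cmd A R} {σ : ℕ → R → ℕ} {w : ℕ → List A} {n : ℕ}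
    (hn : σ 0 r = n) (hN : n ≤ N)
    (h : ∀ i < n, SB N inp (f default) (σ i) (σ (i + 1)) (w i)) :
    SB N inp (Cmd.each (some r) f) (σ 0) (σ n) ((List.range n).flatMap w) := by
  unfold SB bd
  refine (Cmd.Spec.for hn fun i hi => (h i hi).mono (eval_le_sum f default)).mono ?_
  simp only [Polynomial.eval_add, Polynomial.eval_mul, Polynomial.eval_X, Polynomial.eval_finsetSum,
    Polynomial.eval_one, Polynomial.eval_ofNat]
  gcongr

/-- The sequence of several programs. -/
theorem SB.seqs {ι : Type} {ρ : R → ℕ} (c : ι → Cmd A R) (w : ι → List A) :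
    ∀ l : List ι, (∀ x ∈ l, SB N inp (c x) ρ ρ (w x)) →
    SB N inp (Cmd.seqs (l.map c)) ρ ρ (l.flatMap w) := by
  intro l
  induction l with
  | nil => intro _; exact SB.skip
  | cons x l ih =>
    intro h
    rw [List.map_cons, Cmd.seqs_cons, List.flatMap_cons]
    exact SB.seq (h x (by simp)) (ih fun y hy => h y (by simp [hy]))

/-- The sequence of several programs that may change the counters. -/
theorem SB.seqs' {c : ℕ → Cmd A R} {σ : ℕ → R → ℕ} {w : ℕ → List A} :
    ∀ n m : ℕ, (∀ i, m ≤ i → i < m + n → SB N inp (c i) (σ i) (σ (i + 1)) (w i)) →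
    SB N inp (Cmd.seqs ((List.range' m n).map c)) (σ m) (σ (m + n))
      ((List.range' m n).flatMap w) := by
  intro n
  induction n with
  | zero => intro m _; exact SB.skip
  | succ n ih =>
    intro m h
    rw [List.range'_succ, List.map_cons, Cmd.seqs_cons, List.flatMap_cons]
    refine SB.seq (h m le_rfl (by omega)) ?_
    have := ih (m + 1) (fun i h1 h2 => h i (by omega) (by omega))
    rwa [show m + 1 + n = m + (n + 1) by ring] at this

theorem SB.outs {ρ : R → ℕ} (l : List A) : SB N inp (Cmd.outs l : Cmd A R) ρ ρ l := by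
  have := SB.seqs (N := N) (inp := inp) (ρ := ρ) (Cmd.out : A → Cmd A R) (fun a => [a]) l
    (fun a _ => SB.out a)
  have e : (l.flatMap fun a => [a]) = l := by simp
  rwa [e] at this

/-- `for idx < r do c`. -/
def forR (r idx : R) (c : Cmd A R) : Cmd A R :=
  .seq (.each (some r) fun _ => .seq c (.inc idx)) (.clr idx)

theorem SB.forR {r idx : R} {c : Cmd A R} {ρ : R → ℕ} {w : ℕ → List A}
    (h0 : ρ idx = 0) (hr : ρ r ≤ N)
    (h : ∀ i < ρ r, SB N inp c (update ρ idx i) (update ρ idx i) (w i)) :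
    SB N inp (forR r idx c) ρ ρ ((List.range (ρ r)).flatMap w) := by
  rcases eq_or_ne r idx with rfl | hne
  · have h1 : SB N inp (Cmd.each (some r) fun _ => Cmd.seq c (Cmd.inc r)) ρ ρ [] := by
      have := SB.for (N := N) (inp := inp) (f := fun _ => Cmd.seq c (Cmd.inc r)) (r := r)
        (σ := fun _ => ρ) (w := fun _ => []) (n := 0) h0 (Nat.zero_le _)
        (fun i hi => absurd hi (Nat.not_lt_zero _))
      simpa using this
    have h2 := SB.clr (N := N) (inp := inp) (ρ := ρ) r hr
    have h3 := SB.seq h1 h2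
    refine h3.cast ?_ ?_
    · conv_rhs => rw [← update_eq_self r ρ, h0]
    · rw [h0]; rfl
  · have h1 := SB.for (N := N) (inp := inp) (f := fun _ => Cmd.seq c (Cmd.inc idx)) (r := r)
      (σ := fun i => update ρ idx i) (w := fun i => w i ++ []) (n := ρ r)
      (by rw [update_of_ne hne]) hr (fun i hi => by
        refine SB.seq (h i hi) ?_
        have := SB.inc (N := N) (inp := inp) (ρ := update ρ idx i) idx
        refine this.cast ?_ rfl
        simp)
    have h2 := SB.clr (N := N) (inp := inp) (ρ := update ρ idx (ρ r)) idx (by simpa using hr)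
    have h3 := SB.seq h1 h2
    have e : update ρ idx 0 = ρ := by rw [← h0, update_eq_self]
    refine SB.cast (ρ₀ := ρ) ?_ (ρ₁ := ρ) rfl (by simp : ((List.range (ρ r)).flatMap
      fun i => w i ++ []) ++ [] = _)
    simp only [e] at h3
    rw [update_idem, e] at h3
    exact h3

/-- A program that prints the code of `f a` if it is started on the code of `a`, with counters that
are bounded by a polynomial, proves that `f` is computable in polynomial time. -/
theorem computable_of_SB [Fintype R] (c : Cmd A R) (hw : Cmd.WF c) {α β : Type}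
    {ea : α → List A} {eb : β → List A} {f : α → β} (P : Polynomial ℕ)
    (h : ∀ a, SB (P.eval (ea a).length) (ea a) c (fun _ => 0) (fun _ => 0) (eb (f a))) :
    Nonempty (Turing.TM2ComputableInPolyTime ea eb f) := by
  have start_eq : ∀ l : List A, (Cmd.start l : Store A R) = Cmd.st l (fun _ => 0) [] := by
    intro l
    unfold Cmd.start
    funext k
    by_cases hk : k = mn none
    · subst hk; rw [update_self]; rfl
    · rw [update_of_ne hk]
      rcases k with ⟨_ | _, _ | r⟩ | _ | _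
      · exact absurd rfl hk
      all_goals rfl
  refine Cmd.computable c hw (2 * (bd c).comp P + Polynomial.X + 2) ?_ ?_ ?_
  · intro a r
    rw [start_eq, (h a []).1]
    rfl
  · intro a
    rw [start_eq, (h a []).1]
    show (eb (f a)).reverse ++ [] = _
    rw [List.append_nil]
  · intro a
    have h0 := (h a []).2
    have h' := Cmd.length_le_cost c (Cmd.start (ea a))
    rw [start_eq] at h' ⊢
    rw [(h a []).1] at h'
    have h1 : (Cmd.st (R := R) (ea a) (fun _ => 0) ((eb (f a)).reverse ++ []) ou).length =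
        (eb (f a)).length := by
      show ((eb (f a)).reverse ++ []).length = _
      simp
    have h2 : (Cmd.st (R := R) (ea a) (fun _ => 0) ([] : List A) ou).length = 0 := rfl
    rw [h1, h2] at h'
    simp only [Polynomial.eval_add, Polynomial.eval_mul, Polynomial.eval_comp, Polynomial.eval_X,
      Polynomial.eval_ofNat]
    omega

end Pool.Agent.Lib.MP_dc7e63_lc
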