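import Pool.Agent.Lib.MP_dc7e63_lc.Count

/-!
# The reduction is correct
-/

namespace Pool.Agent.Lib.MP_dc7e63_lc

open Finset

/-- The feasible solutions for two colors. -/
def Core (I : Instance) (S : ℕ → Finset ℕ) : Prop :=
  (∀ v < I.numNodes, 1 ≤ (S v).card ∧ S v ⊆ range 2) ∧
    ((range I.numNodes).filter fun v => (S v).card = 2).card ≤ I.budget

theorem card_le_two {s : Finset ℕ} (h : s ⊆ range 2) : s.card ≤ 2 := by
  have := card_le_card h
  simpa using this

theorem global_iff_core {I : Instance} (hI : I.numColors = 2) (S : ℕ → Finset ℕ) :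
    GlobalFeasible I S ↔ Core I S := by
  unfold GlobalFeasible Core
  rw [hI]
  constructor
  · rintro ⟨h1, h2⟩
    refine ⟨fun v hv => ⟨(h1 v hv).2, (h1 v hv).1⟩, ?_⟩
    rw [card_filter]
    refine le_trans (sum_le_sum fun v hv => ?_) h2
    split_ifs with h
    · rw [h]
    · exact Nat.zero_le _
  · rintro ⟨h1, h2⟩
    refine ⟨fun v hv => ⟨(h1 v hv).2, (h1 v hv).1⟩, ?_⟩
    rw [card_filter] at h2
    refine le_trans (sum_le_sum fun v hv => ?_) h2
    have h3 := card_le_two (h1 v (mem_range.1 hv)).2
    split_ifs with h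
    · rw [h]
    · omega

theorem robust_iff_core {I : Instance} (hI : I.numColors = 2) (S : ℕ → Finset ℕ) :
    RobustFeasible I S ↔ Core I S := by
  unfold RobustFeasible Core
  rw [hI]
  constructor
  · rintro ⟨D, hD, hb, h1, h2⟩
    refine ⟨fun v hv => ?_, le_trans (card_le_card fun v hv => ?_) hb⟩
    · by_cases hvD : v ∈ D
      · rw [h1 v hvD]
        simp
      · have := h2 v hv hvD
        exact ⟨this.1.ge, this.2⟩
    · rw [mem_filter, mem_range] at hv
      by_contra hvD
      have := (h2 v hv.1 hvD).1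
      omega
  · rintro ⟨h1, h2⟩
    refine ⟨_, filter_subset _ _, h2, fun v hv => ?_, fun v hv hvD => ?_⟩
    · rw [mem_filter, mem_range] at hv
      exact eq_of_subset_of_card_le (h1 v hv.1).2 (by rw [card_range, hv.2])
    · have h3 := h1 v hv
      have h4 := card_le_two h3.2
      have h5 : (S v).card ≠ 2 := fun h => hvD (mem_filter.2 ⟨mem_range.2 hv, h⟩)
      exact ⟨by omega, h3.2⟩

namespace Par

variable {P : Par} {B t : ℕ}

theorem mem_taxes {v : ℕ} : v ∈ P.taxes B ↔ v < P.T * (B * B) ∧ v % P.T < 2 := by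
  constructor
  · intro h
    have := isNode_taxes h
    exact ⟨this.lt (by unfold T t2 t1 tA tB; omega), (this.mod (by unfold T t2 t1 tA tB; omega)).2⟩
  · rintro ⟨h1, h2⟩
    have hT := P.T_pos
    have h3 : v / P.T < B * B := Nat.div_lt_of_lt_mul h1
    have hB : 0 < B := by
      rcases Nat.eq_zero_or_pos B with rfl | h
      · simp at h3
      · exact h
    unfold taxes
    simp only [List.mem_flatMap, List.mem_map, List.mem_range]
    refine ⟨v % P.T, h2, v / P.T / B, Nat.div_lt_of_lt_mul h3, v / P.T % B, Nat.mod_lt _ hB, ?_⟩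
    unfold code
    rw [Nat.mod_add_div, Nat.mod_add_div]

/-- A solution. -/
def sol (P : Par) (B t : ℕ) (a : Bool) (g : ℕ → Bool) (v : ℕ) : Finset ℕ :=
  if v % P.T < 2 then
    (if a = true then (if v / P.T / B = 0 ∧ v / P.T % B < t then {0, 1} else {1}) else {0})
  else if v % P.T < P.tB then (if v / P.T / B = 0 ∧ g (v / P.T % B) = true then {0, 1} else {0})
  else if v % P.T < P.t1 then {1} else {0}

theorem sol_tax {a : Bool} {g : ℕ → Bool} {i x y : ℕ} (hi : i < 2) (hx : x < B) :
    P.sol B t a g (P.code B i x y) =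
      if a = true then (if y = 0 ∧ x < t then {0, 1} else {1}) else {0} := by
  unfold sol
  rw [code_mod (lt_T_of_p hi), if_pos hi, code_y (lt_T_of_p hi) hx, code_x (lt_T_of_p hi) hx]

theorem sol_copy {a : Bool} {g : ℕ → Bool} {c x y : ℕ} (hc : c < 2 * P.b) (hx : x < B) :
    P.sol B t a g (P.code B (2 + c) x y) = if y = 0 ∧ g x = true then {0, 1} else {0} := by
  unfold sol
  rw [code_mod (lt_T_of_c hc), if_neg (by omega), if_pos (by unfold tB; omega),
    code_y (lt_T_of_c hc) hx, code_x (lt_T_of_c hc) hx]

theorem sol_one {a : Bool} {g : ℕ → Bool} {s x y : ℕ} (h1 : P.tB ≤ s) (h2 : s < P.t1) :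
    P.sol B t a g (P.code B s x y) = {1} := by
  have : 2 ≤ P.tB := by unfold tB; omega
  unfold sol
  rw [code_mod (by unfold T t2; omega), if_neg (by omega), if_neg (by omega), if_pos h2]

theorem sol_zero {a : Bool} {g : ℕ → Bool} {s x y : ℕ} (h1 : P.t1 ≤ s) (h2 : s < P.T) :
    P.sol B t a g (P.code B s x y) = {0} := by
  have : 2 ≤ P.tB := by unfold tB; omega
  have : P.tB ≤ P.t1 := by unfold t1 tA; omega
  unfold sol
  rw [code_mod h2, if_neg (by omega), if_neg (by omega), if_neg (by omega)]

theorem sol_mem (a : Bool) (g : ℕ → Bool) (v : ℕ) :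
    1 ≤ (P.sol B t a g v).card ∧ P.sol B t a g v ⊆ range 2 := by
  unfold sol
  split_ifs <;> decide

theorem sol_card (hB : 0 < B) (a : Bool) (g : ℕ → Bool) (N : ℕ) :
    ((range N).filter fun v => (P.sol B t a g v).card = 2).card ≤
      (if a = true then 2 * t else 0) + 2 * P.b * ((range B).filter fun e => g e = true).card := by
  have hsub : ((range N).filter fun v => (P.sol B t a g v).card = 2) ⊆
      (if a = true then (range 2 ×ˢ range t).image (fun z => P.code B z.1 z.2 0) else ∅) ∪
        (range (2 * P.b) ×ˢ ((range B).filter fun e => g e = true)).image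
          (fun z => P.code B (2 + z.1) z.2 0) := by
    intro v hv
    rw [mem_filter] at hv
    have hv2 := hv.2
    have hcode : ∀ s, v % P.T = s → v / P.T / B = 0 → v = P.code B s (v / P.T % B) 0 := by
      intro s hs h0
      unfold code
      have h1 := Nat.mod_add_div (v / P.T) B
      rw [h0] at h1
      rw [h1, ← hs, Nat.mod_add_div]
    unfold sol at hv2
    rw [mem_union]
    split_ifs at hv2 with h1 h2 h3 h4 h5 h6
    · left
      rw [if_pos h2, mem_image]
      refine ⟨(v % P.T, v / P.T % B), ?_, (hcode _ rfl h3.1).symm⟩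
      rw [mem_product, mem_range, mem_range]
      exact ⟨h1, h3.2⟩
    · simp at hv2
    · simp at hv2
    · right
      rw [mem_image]
      refine ⟨(v % P.T - 2, v / P.T % B), ?_, ?_⟩
      · rw [mem_product, mem_range, mem_filter, mem_range]
        exact ⟨by unfold tB at h4; omega, Nat.mod_lt _ hB, h5.2⟩
      · simp only
        rw [Nat.add_sub_cancel' (by omega)]
        exact (hcode _ rfl h5.1).symm
    · simp at hv2
    · simp at hv2
    · simp at hv2
  refine (card_le_card hsub).trans ((card_union_le _ _).trans (Nat.add_le_add ?_ ?_))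
  · split_ifs
    · refine card_image_le.trans ?_
      rw [card_product, card_range, card_range]
    · simp
  · refine card_image_le.trans ?_
    rw [card_product, card_range]

end Par

namespace Graph

variable (G : Graph)

theorem exists_end (e : Fin G.m) : ∃ v, v ∈ G.ends e := by
  refine Sym2.ind (fun a b => ?_) (G.ends e)
  exact ⟨a, by simp⟩

theorem length_incident (v : Fin G.n) :
    (G.incident v).length = (univ.filter fun e => v ∈ G.ends e).card := by
  unfold incident
  rw [List.length_map, ← List.countP_eq_length_filter, card_def, filter_val,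
    ← Multiset.countP_eq_card_filter]
  rfl

theorem K_eq : G.K = 2 * G.m := by
  have h1 : G.K = ∑ v : Fin G.n, (univ.filter fun e => v ∈ G.ends e).card := by
    unfold K lists
    rw [List.length_flatten, List.map_map]
    have : (List.length ∘ G.incident) = fun v => (univ.filter fun e => v ∈ G.ends e).card := by
      funext v
      exact G.length_incident v
    rw [this, ← List.ofFn_eq_map, List.sum_ofFn]
  have h2 : ∑ v : Fin G.n, (univ.filter fun e => v ∈ G.ends e).card =
      ∑ e, ((univ : Finset (Fin G.n)).filter fun v => v ∈ G.ends e).card := by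
    simp only [card_filter]
    exact sum_comm
  have h3 : ∀ e, ((univ : Finset (Fin G.n)).filter fun v => v ∈ G.ends e).card = 2 := by
    intro e
    rw [G.card_ends_inter univ e]
    simp
  rw [h1, h2, sum_congr rfl fun e _ => h3 e, sum_const, card_univ, Fintype.card_fin, smul_eq_mul,
    Nat.mul_comm]

theorem exists_zip_of_edge (e : Fin G.m) : ∃ k, ((e : ℕ), k) ∈ G.lists.flatten.zipIdx := by
  obtain ⟨v, hv⟩ := G.exists_end e
  have : (e : ℕ) ∈ G.lists.flatten := by
    rw [List.mem_flatten]
    refine ⟨G.incident v, ?_, G.mem_incident.2 ⟨e.2, hv⟩⟩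
    unfold lists
    exact List.mem_map_of_mem (List.mem_finRange v)
  obtain ⟨k, hk, h⟩ := List.mem_iff_getElem.1 this
  refine ⟨k, ?_⟩
  rw [List.mk_mem_zipIdx_iff_getElem?, List.getElem?_eq_getElem hk, h]

theorem countP_miss {P : Par} (B : ℕ) (S : ℕ → Finset ℕ) :
    G.lists.zipIdx.countP (Par.miss P B S) =
    (univ.filter fun v : Fin G.n => ∃ e : Fin G.m, v ∈ G.ends e ∧ ∃ c < 2 * P.b,
      1 ∉ S (P.code B (2 + c) e 0)).card := by
  have e1 : Par.miss P B S = (fun L : List ℕ => decide (∃ e ∈ L, ∃ v ∈ P.copies B e, 1 ∉ S v)) ∘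
      Prod.fst := rfl
  rw [e1, ← List.countP_map, List.zipIdx_map_fst]
  unfold lists
  rw [List.countP_map, card_def, filter_val, ← Multiset.countP_eq_card_filter]
  show _ = (List.finRange G.n).countP _
  refine List.countP_congr fun v _ => ?_
  simp only [Function.comp_apply, decide_eq_true_eq]
  constructor
  · rintro ⟨e, he, w, hw, h⟩
    obtain ⟨h1, h2⟩ := G.mem_incident.1 he
    unfold Par.copies at hw
    simp only [List.mem_map, List.mem_range] at hw
    obtain ⟨c, hc, rfl⟩ := hw
    exact ⟨⟨e, h1⟩, h2, c, hc, h⟩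
  · rintro ⟨e, he, c, hc, h⟩
    refine ⟨e, G.mem_incident.2 ⟨e.2, he⟩, _, ?_, h⟩
    unfold Par.copies
    exact List.mem_map_of_mem (List.mem_range.2 hc)

end Graph

namespace Query

variable (P : Par) (z : Query)

theorem bnd_pos : 0 < bnd P z := by unfold bnd; omega

theorem edge_lt (e : Fin z.1.m) : (e : ℕ) < bnd P z := by
  obtain ⟨v, hv⟩ := z.1.exists_end e
  refine (good P z).lt (z.1.incident v) ?_ e (z.1.mem_incident.2 ⟨e.2, hv⟩)
  unfold Graph.lists
  exact List.mem_map_of_mem (List.mem_finRange v)

theorem zip_lt {w : ℕ × ℕ} (hw : w ∈ z.1.lists.flatten.zipIdx) : w.1 < bnd P z := by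
  obtain ⟨h1, h2⟩ := Par.mem_zipIdx_lt hw
  rw [List.mem_flatten] at h1
  obtain ⟨L, hL, he⟩ := h1
  exact (good P z).lt L hL _ he

/-- The number of mistakes of a solution. -/
theorem mistakes_sol (a : Bool) (g : ℕ → Bool) :
    (inst P z).mistakes (P.sol (bnd P z) (tt P z) a g) ≤
      (if a = true then 0 else P.A * (kk P z + 1)) +
      P.a * (univ.filter fun v : Fin z.1.n => ∃ e : Fin z.1.m, v ∈ z.1.ends e ∧
        g e = false).card := by
  have hg := good P z
  have hB := bnd_pos P z
  rw [mistakes_inst P]
  have hC : (P.edgesC (bnd P z) (z.1.n + kk P z + 1) z.1.lists.flatten.zipIdx).countP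
      (Par.bad (P.sol (bnd P z) (tt P z) a g)) = 0 := by
    refine Par.zero_C _ ?_ ?_
    · intro w hw h hh
      rw [Par.sol_copy hh (zip_lt P z hw)]
      split_ifs <;> simp
    · intro w hw s hs l hl
      rw [Par.sol_zero (by omega) (by unfold Par.T Par.t2; omega)]
      simp
  have hD : (P.edgesD (bnd P z) (z.1.n + kk P z + 1) (tt P z)).countP
      (Par.bad (P.sol (bnd P z) (tt P z) a g)) = 0 := by
    refine Par.zero_D ?_ ?_
    · intro i hi j hj
      have := hg.cnt
      rw [Par.sol_tax hi (by omega)]
      split_ifs with h6 h7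
      · simp
      · exact absurd ⟨rfl, hj⟩ h7
      · simp
    · intro s hs j hj l hl
      rw [Par.sol_zero (by unfold Par.t2; omega) (by unfold Par.T; omega)]
      simp
  have hA : (P.edgesA (bnd P z) (kk P z)).countP (Par.bad (P.sol (bnd P z) (tt P z) a g)) ≤
      if a = true then 0 else P.A * (kk P z + 1) := by
    split_ifs with ha
    · refine (Par.zero_A ?_ ?_).le
      · intro v hv
        obtain ⟨s, x, y, -, hs, hx, hy, rfl⟩ := Par.isNode_taxes hv
        rw [Par.sol_tax hs hx, if_pos ha]
        split_ifs <;> simp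
      · intro j hj l hl
        rw [Par.sol_one (by unfold Par.tA; omega) (by unfold Par.t1; omega)]
        simp
    · exact Par.upper_A
  have hBb : (P.edgesB (bnd P z) z.1.lists.zipIdx).countP
      (Par.bad (P.sol (bnd P z) (tt P z) a g)) ≤
      P.a * (univ.filter fun v : Fin z.1.n => ∃ e : Fin z.1.m, v ∈ z.1.ends e ∧
        g e = false).card := by
    refine (Par.upper_B _ ?_).trans ?_
    · intro i hi w _
      rw [Par.sol_one (by omega) (by unfold Par.t1 Par.tA; omega)]
      simp
    · rw [Graph.countP_miss]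
      refine Nat.mul_le_mul_left _ (card_le_card fun v hv => ?_)
      rw [mem_filter] at hv ⊢
      obtain ⟨-, e, he, c, hc, h⟩ := hv
      refine ⟨mem_univ _, e, he, ?_⟩
      rw [Par.sol_copy hc (edge_lt P z e)] at h
      split_ifs at h with h1
      · simp at h
      · simp only [true_and, Bool.not_eq_true] at h1
        exact h1
  omega

theorem core_sol (a : Bool) (g : ℕ → Bool)
    (h : (if a = true then 2 * tt P z else 0) +
      2 * P.b * ((range (bnd P z)).filter fun e => g e = true).card ≤ bud P z) :
    Core (inst P z) (P.sol (bnd P z) (tt P z) a g) :=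
  ⟨fun v _ => Par.sol_mem a g v, (Par.sol_card (bnd_pos P z) a g _).trans h⟩

/-- The yes instances. -/
theorem yes_case (ht : 0 < tt P z) {S₀ : Finset (Fin z.1.n)} (hS₀ : P.a * S₀.card ≤ kk P z)
    (hin : tt P z ≤ P.b * z.1.inner S₀) {S : ℕ → Finset ℕ}
    (hopt : ∀ S', Core (inst P z) S' → (inst P z).mistakes S ≤ P.A * (inst P z).mistakes S') :
    ∀ v ∈ P.taxes (bnd P z), 1 ∈ S v := by
  have hs2 : 2 ≤ S₀.card := by
    by_contra hlt
    rw [z.1.inner_eq_zero (by omega), Nat.mul_zero] at hin
    omega
  have hbig : 2 * P.a ≤ kk P z := by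
    refine le_trans ?_ hS₀
    rw [Nat.mul_comm]
    exact Nat.mul_le_mul_left _ hs2
  have hbud : bud P z = P.b * z.1.K := by
    unfold bud; rw [if_pos hbig]
  set g : ℕ → Bool := fun e => decide (∃ h : e < z.1.m, ¬ ∀ v ∈ z.1.ends ⟨e, h⟩, v ∈ S₀) with hg
  have hgc : ((range (bnd P z)).filter fun e => g e = true).card + z.1.inner S₀ ≤ z.1.m := by
    have h1 : ((range (bnd P z)).filter fun e => g e = true) ⊆
        (univ.filter fun e : Fin z.1.m => ¬ ∀ v ∈ z.1.ends e, v ∈ S₀).map Fin.valEmbedding := by
      intro e he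
      rw [mem_filter, hg] at he
      simp only [decide_eq_true_eq] at he
      obtain ⟨-, h, h'⟩ := he
      rw [mem_map]
      exact ⟨⟨e, h⟩, mem_filter.2 ⟨mem_univ _, h'⟩, rfl⟩
    have h2 := card_le_card h1
    rw [card_map] at h2
    have h3 := card_filter_add_card_filter_not (s := (univ : Finset (Fin z.1.m)))
      (fun e : Fin z.1.m => ∀ v ∈ z.1.ends e, v ∈ S₀)
    rw [card_univ, Fintype.card_fin] at h3
    unfold Graph.inner
    omega
  have hcore : Core (inst P z) (P.sol (bnd P z) (tt P z) true g) := by
    refine core_sol P z true g ?_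
    rw [if_pos rfl, hbud, z.1.K_eq]
    calc 2 * tt P z + 2 * P.b * ((range (bnd P z)).filter fun e => g e = true).card
        ≤ 2 * (P.b * z.1.inner S₀) +
          2 * P.b * ((range (bnd P z)).filter fun e => g e = true).card :=
          Nat.add_le_add_right (Nat.mul_le_mul_left _ hin) _
      _ = 2 * P.b * (((range (bnd P z)).filter fun e => g e = true).card + z.1.inner S₀) := by ring
      _ ≤ 2 * P.b * z.1.m := Nat.mul_le_mul_left _ hgc
      _ = _ := by ring
  have hmis := hopt _ hcore
  have h5 := mistakes_sol P z true g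
  rw [if_pos rfl, Nat.zero_add] at h5
  have h6 : (univ.filter fun v : Fin z.1.n => ∃ e : Fin z.1.m, v ∈ z.1.ends e ∧
      g e = false).card ≤ S₀.card := by
    refine card_le_card fun v hv => ?_
    rw [mem_filter] at hv
    obtain ⟨-, e, he, hge⟩ := hv
    rw [hg] at hge
    simp only [decide_eq_false_iff_not, not_exists, not_not] at hge
    exact hge e.2 v he
  have h7 : (inst P z).mistakes (P.sol (bnd P z) (tt P z) true g) ≤ kk P z :=
    h5.trans ((Nat.mul_le_mul_left _ h6).trans hS₀)
  intro v hv
  by_contra hcon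
  have h8 := Par.lower_A (k := kk P z) hv hcon
  have h9 : P.A * (kk P z + 1) ≤ (inst P z).mistakes S := by
    rw [mistakes_inst P]
    omega
  have h10 : P.A * (kk P z + 1) ≤ P.A * kk P z :=
    h9.trans (hmis.trans (Nat.mul_le_mul_left _ h7))
  have h11 := P.hA
  have h12 := Nat.le_of_mul_le_mul_left h10 h11
  omega

/-- The no instances. -/
theorem no_case (hno : ∀ S : Finset (Fin z.1.n), P.a * S.card ≤ kk P z →
      64 * P.A ^ 4 * (P.b * z.1.inner S) < tt P z) {S : ℕ → Finset ℕ} (hS : Core (inst P z) S)
    (hopt : ∀ S', Core (inst P z) S' → (inst P z).mistakes S ≤ P.A * (inst P z).mistakes S') :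
    ∃ v ∈ P.taxes (bnd P z), 1 ∉ S v := by
  have ha := P.ha
  have hb := P.hb
  have hA := P.hA
  have hgood := good P z
  have ht : 0 < tt P z := by
    have := hno ∅ (by simp)
    omega
  have hmist := mistakes_inst P z S
  by_contra hcon
  push Not at hcon
  set k := kk P z with hk
  set t := tt P z with htdef
  set B := bnd P z with hB
  set G := z.1 with hG
  -- real tax nodes
  have htax : ∀ i < 2, ∀ j < t, P.code B i j 0 ∈ P.taxes B := by
    intro i hi j hj
    rw [Par.mem_taxes]
    have := hgood.cnt
    exact ⟨Par.code_lt (Par.lt_T_of_p hi) (by omega) (bnd_pos P z),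
      by rw [Par.code_mod (Par.lt_T_of_p hi)]; exact hi⟩
  have hnode : ∀ v ∈ P.taxes B, v < (inst P z).numNodes := fun v hv => (Par.mem_taxes.1 hv).1
  have htwo : ∀ v < (inst P z).numNodes, 0 ∈ S v → 1 ∈ S v → (S v).card = 2 := by
    intro v hv h0 h1
    have h2 : range 2 ⊆ S v := by
      intro c hc
      rw [mem_range] at hc
      interval_cases c <;> assumption
    have h3 := card_le_card h2
    have h4 := card_le_two (hS.1 v hv).2
    rw [card_range] at h3
    omega
  have hreal : (inst P z).mistakes S < P.C * (G.n + k + 1) → ∀ i < 2, ∀ j < t,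
      (S (P.code B i j 0)).card = 2 := by
    intro hm i hi j hj
    have h0 : 0 ∈ S (P.code B i j 0) := by
      by_contra h0
      have h1 := Par.lower_D (M := G.n + k + 1) hi hj h0
      rw [hmist] at hm
      omega
    have ht' := htax i hi j hj
    exact htwo _ (hnode _ ht') h0 (hcon _ ht')
  have hCdef : P.C = P.A * (P.A + P.a) + 1 := rfl
  rcases le_or_gt (2 * P.a) k with hbig | hsmall
  · have hbud : bud P z = P.b * G.K := by
      unfold bud; rw [if_pos hbig]
    have hk1 : 1 ≤ k := by omega
    set g : ℕ → Bool := fun e => decide (e < G.m) with hg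
    have hcore : Core (inst P z) (P.sol B t false g) := by
      refine core_sol P z false g ?_
      rw [if_neg (by simp), hbud, Nat.zero_add, G.K_eq]
      have h1 : ((range (bnd P z)).filter fun e => g e = true).card ≤ G.m := by
        refine (card_le_card (t := range G.m) fun e he => ?_).trans (by rw [card_range])
        rw [mem_filter, hg] at he
        simpa using he.2
      calc 2 * P.b * ((range (bnd P z)).filter fun e => g e = true).card ≤ 2 * P.b * G.m :=
            Nat.mul_le_mul_left _ h1
        _ = P.b * (2 * G.m) := by ring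
    have hmis := hopt _ hcore
    have h5 := mistakes_sol P z false g
    have h6 : (univ.filter fun v : Fin z.1.n => ∃ e : Fin z.1.m, v ∈ z.1.ends e ∧
        g e = false).card = 0 := by
      rw [card_eq_zero, filter_eq_empty_iff]
      rintro v - ⟨e, -, he⟩
      rw [hg] at he
      simp only [decide_eq_false_iff_not] at he
      exact he e.2
    rw [if_neg (by simp), h6, Nat.mul_zero, Nat.add_zero] at h5
    have hm0 : (inst P z).mistakes S ≤ P.A * (P.A * (k + 1)) :=
      hmis.trans (Nat.mul_le_mul_left _ h5)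
    have hm : (inst P z).mistakes S < P.C * (G.n + k + 1) := by
      refine lt_of_le_of_lt hm0 ?_
      rw [hCdef]
      have : P.A * (P.A * (k + 1)) ≤ P.A * (P.A + P.a) * (G.n + k + 1) := by
        rw [← Nat.mul_assoc]
        exact Nat.mul_le_mul (Nat.mul_le_mul_left _ (by omega)) (by omega)
      rw [Nat.add_mul]
      omega
    have hreal' := hreal hm
    -- copies
    have hcopy : ∀ c < 2 * P.b, ∀ e : Fin G.m, 0 ∈ S (P.code B (2 + c) e 0) := by
      intro c hc e
      by_contra h0
      obtain ⟨j, hj⟩ := G.exists_zip_of_edge e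
      have h1 := Par.lower_C (M := G.n + k + 1) G.lists.flatten.zipIdx hj hc h0
      rw [hmist] at hm
      omega
    set W := (range (inst P z).numNodes).filter fun v => (S v).card = 2 with hW
    have hWb : W.card ≤ P.b * G.K := by rw [← hbud]; exact hS.2
    rw [G.K_eq] at hWb
    set Z := (univ : Finset (Fin (2 * P.b) × Fin G.m)) with hZ
    have hZc : Z.card = P.b * (2 * G.m) := by
      rw [hZ, card_univ, Fintype.card_prod, Fintype.card_fin, Fintype.card_fin]
      ring
    set F : Fin (2 * P.b) × Fin G.m → ℕ := fun w => P.code B (2 + w.1) w.2 0 with hF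
    have hFinj : Function.Injective F := by
      intro w w' h
      obtain ⟨h1, h2, -⟩ := Par.code_inj (Par.lt_T_of_c w.1.2) (Par.lt_T_of_c w'.1.2)
        (edge_lt P z w.2) (edge_lt P z w'.2) h
      exact Prod.ext (Fin.ext (by omega)) (Fin.ext h2)
    have hZ1 : (Z.filter fun w => 1 ∈ S (F w)).card + 2 * t ≤ P.b * (2 * G.m) := by
      refine le_trans ?_ hWb
      have e1 : ((Z.filter fun w => 1 ∈ S (F w)).image F).card =
          (Z.filter fun w => 1 ∈ S (F w)).card := card_image_of_injective _ hFinj
      set tx := (range 2 ×ˢ range t).image fun w => P.code B w.1 w.2 0 with htx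
      have hcnt := hgood.cnt
      have e2 : tx.card = 2 * t := by
        rw [htx, card_image_of_injOn, card_product, card_range, card_range]
        rintro ⟨i, j⟩ h ⟨i', j'⟩ h' heq
        simp only [coe_product, coe_range, Set.mem_prod, Set.mem_Iio] at h h'
        obtain ⟨h1, h2, -⟩ := Par.code_inj (P := P) (B := B) (Par.lt_T_of_p h.1)
          (Par.lt_T_of_p h'.1) (by omega) (by omega) heq
        exact Prod.ext h1 h2
      rw [← e1, ← e2, ← card_union_of_disjoint]
      · refine card_le_card (union_subset ?_ ?_)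
        · intro v hv
          rw [mem_image] at hv
          obtain ⟨w, hw, rfl⟩ := hv
          rw [mem_filter] at hw
          have hlt : F w < (inst P z).numNodes :=
            Par.code_lt (Par.lt_T_of_c w.1.2) (edge_lt P z w.2) (bnd_pos P z)
          rw [hW, mem_filter, mem_range]
          exact ⟨hlt, htwo _ hlt (hcopy _ w.1.2 w.2) hw.2⟩
        · intro v hv
          rw [htx, mem_image] at hv
          obtain ⟨w, hw, rfl⟩ := hv
          rw [mem_product, mem_range, mem_range] at hw
          rw [hW, mem_filter, mem_range]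
          exact ⟨hnode _ (htax _ hw.1 _ hw.2), hreal' _ hw.1 _ hw.2⟩
      · rw [disjoint_left]
        intro v hv hv'
        rw [mem_image] at hv
        obtain ⟨w, -, rfl⟩ := hv
        rw [htx, mem_image] at hv'
        obtain ⟨w', hw', heq⟩ := hv'
        rw [mem_product, mem_range, mem_range] at hw'
        have h1 := (Par.code_inj (P := P) (B := B) (Par.lt_T_of_p hw'.1) (Par.lt_T_of_c w.1.2)
          (by omega) (edge_lt P z w.2) heq).1
        omega
    have hZ2 : 2 * t ≤ (Z.filter fun w => ¬ 1 ∈ S (F w)).card := by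
      have := card_filter_add_card_filter_not (s := Z) (fun w => 1 ∈ S (F w))
      omega
    set U := (univ : Finset (Fin G.m)).filter fun e : Fin G.m => ∃ c < 2 * P.b,
      1 ∉ S (P.code B (2 + c) e 0) with hU
    have hZU : (Z.filter fun w => ¬ 1 ∈ S (F w)).card ≤ 2 * P.b * U.card := by
      have : (Z.filter fun w => ¬ 1 ∈ S (F w)) ⊆ (univ : Finset (Fin (2 * P.b))) ×ˢ U := by
        intro w hw
        rw [mem_filter] at hw
        rw [mem_product, hU, mem_filter]
        exact ⟨mem_univ _, mem_univ _, w.1, w.1.2, hw.2⟩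
      refine (card_le_card this).trans ?_
      rw [card_product, card_univ, Fintype.card_fin]
    have htU : t ≤ P.b * U.card := by
      have h1 : 2 * t ≤ 2 * (P.b * U.card) := by
        rw [← Nat.mul_assoc]
        exact hZ2.trans hZU
      omega
    set T := (univ : Finset (Fin G.n)).filter fun v => ∃ e : Fin G.m, v ∈ G.ends e ∧
      ∃ c < 2 * P.b, 1 ∉ S (P.code B (2 + c) e 0) with hT
    have hTc : P.a * T.card ≤ (inst P z).mistakes S := by
      have h1 := Par.lower_B (P := P) (B := B) (S := S) G.lists.zipIdx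
      rw [Graph.countP_miss, ← hT] at h1
      rw [hmist]
      omega
    set r := k / (2 * P.a) with hr
    have hr1 : 0 < r := Nat.div_pos hbig (by omega)
    have hkr : k < 2 * P.a * (r + 1) := by
      have := Nat.div_add_mod k (2 * P.a)
      have h2 := Nat.mod_lt k (show 0 < 2 * P.a by omega)
      rw [Nat.mul_add, hr]
      omega
    have hrk : 2 * P.a * r ≤ k := Nat.mul_div_le k (2 * P.a)
    have hTs : T.card ≤ 8 * P.A ^ 2 * r := by
      have h1 : P.a * T.card ≤ P.a * (8 * P.A ^ 2 * r) := by
        calc P.a * T.card ≤ P.A * (P.A * (k + 1)) := hTc.trans hm0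
          _ = P.A ^ 2 * (k + 1) := by ring
          _ ≤ P.A ^ 2 * (2 * P.a * (r + 1)) := Nat.mul_le_mul_left _ (by omega)
          _ ≤ P.A ^ 2 * (2 * P.a * (4 * r)) :=
            Nat.mul_le_mul_left _ (Nat.mul_le_mul_left _ (by omega))
          _ = P.a * (8 * P.A ^ 2 * r) := by ring
      exact Nat.le_of_mul_le_mul_left h1 ha
    obtain ⟨S₁, hS₁, hin⟩ := G.exists_dense hr1 T hTs
    have hUT : U.card ≤ G.inner T := by
      unfold Graph.inner
      refine card_le_card fun e he => ?_
      rw [hU, mem_filter] at he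
      rw [mem_filter]
      refine ⟨mem_univ _, fun v hv => ?_⟩
      rw [hT, mem_filter]
      exact ⟨mem_univ _, e, hv, he.2⟩
    have h9 := hno S₁ (by
      calc P.a * S₁.card ≤ P.a * (2 * r) := Nat.mul_le_mul_left _ hS₁
        _ = 2 * P.a * r := by ring
        _ ≤ k := hrk)
    have h10 : t ≤ 64 * P.A ^ 4 * (P.b * G.inner S₁) := by
      calc t ≤ P.b * U.card := htU
        _ ≤ P.b * ((8 * P.A ^ 2) ^ 2 * G.inner S₁) := Nat.mul_le_mul_left _ (hUT.trans hin)
        _ = 64 * P.A ^ 4 * (P.b * G.inner S₁) := by ring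
    omega
  · have hbud : bud P z = 0 := by
      unfold bud; rw [if_neg (by omega)]
    set g : ℕ → Bool := fun _ => false with hg
    have hcore : Core (inst P z) (P.sol B t false g) := by
      refine core_sol P z false g ?_
      rw [hbud]
      simp [hg]
    have hmis := hopt _ hcore
    have h5 := mistakes_sol P z false g
    rw [if_neg (by simp)] at h5
    have h6 : (univ.filter fun v : Fin z.1.n => ∃ e : Fin z.1.m, v ∈ z.1.ends e ∧
        g e = false).card ≤ z.1.n := by
      refine (card_filter_le _ _).trans ?_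
      rw [card_univ, Fintype.card_fin]
    have hm0 : (inst P z).mistakes S ≤ P.A * (P.A * (k + 1) + P.a * G.n) :=
      hmis.trans (Nat.mul_le_mul_left _ (h5.trans (Nat.add_le_add_left
        (Nat.mul_le_mul_left _ h6) _)))
    have hm : (inst P z).mistakes S < P.C * (G.n + k + 1) := by
      refine lt_of_le_of_lt hm0 ?_
      rw [hCdef]
      have : P.A * (P.A * (k + 1) + P.a * G.n) ≤ P.A * (P.A + P.a) * (G.n + k + 1) := by
        rw [Nat.mul_assoc P.A (P.A + P.a)]
        refine Nat.mul_le_mul_left _ ?_
        rw [Nat.add_mul]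
        exact Nat.add_le_add (Nat.mul_le_mul_left _ (by omega)) (Nat.mul_le_mul_left _ (by omega))
      rw [Nat.add_mul]
      omega
    have h7 := hreal hm 0 (by norm_num) 0 ht
    have h8 : P.code B 0 0 0 ∈ (range (inst P z).numNodes).filter
        fun v => (S v).card = 2 := by
      rw [mem_filter, mem_range]
      exact ⟨hnode _ (htax 0 (by norm_num) 0 ht), h7⟩
    have h9 := card_pos.2 ⟨_, h8⟩
    have h10 : ((range (inst P z).numNodes).filter fun v => (S v).card = 2).card ≤ bud P z := hS.2
    omega

end Query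

end Pool.Agent.Lib.MP_dc7e63_lc
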