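import Pool.Agent.Lib.MP_dc7e63_lc.Inst

/-!
# Counting mistakes
-/

namespace Pool.Agent.Lib.MP_dc7e63_lc

/-! ### The length of a word -/

theorem length_num (k : ℕ) : (num k).length = k + 1 := by
  unfold num; simp

theorem word_cons (l : List ℕ) (L : List (List ℕ)) :
    word (l :: L) = l.flatMap num ++ [Sym.semi] ++ word L := by
  unfold word; rw [List.flatMap_cons]

theorem length_flatMap_num (l : List ℕ) : l.length ≤ (l.flatMap num).length ∧
    ∀ e ∈ l, e < (l.flatMap num).length := by
  induction l with
  | nil => simp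
  | cons a l ih =>
    rw [List.flatMap_cons, List.length_append, length_num, List.length_cons]
    refine ⟨by omega, fun e he => ?_⟩
    rcases List.mem_cons.1 he with rfl | he
    · omega
    · have := ih.2 e he
      omega

theorem length_word (L : List (List ℕ)) : L.length ≤ (word L).length ∧
    L.flatten.length ≤ (word L).length ∧ ∀ l ∈ L, ∀ e ∈ l, e ≤ (word L).length := by
  induction L with
  | nil => simp [word]
  | cons l L ih =>
    rw [word_cons]
    simp only [List.length_append, List.length_cons, List.length_nil, List.flatten_cons]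
    obtain ⟨h1, h2, h3⟩ := ih
    obtain ⟨h4, h5⟩ := length_flatMap_num l
    refine ⟨by omega, by omega, fun m hm e he => ?_⟩
    rcases List.mem_cons.1 hm with rfl | hm
    · have := h5 e he
      omega
    · have := h3 m hm e he
      omega

namespace Par

variable {P : Par}

/-- The hyperedge is a mistake of `S`. -/
def bad (S : ℕ → Finset ℕ) (z : List ℕ × ℕ × ℕ) : Bool :=
  decide (∃ v ∈ z.1 ++ [z.2.1], z.2.2 ∉ S v)

theorem bad_iff {S : ℕ → Finset ℕ} {z : List ℕ × ℕ × ℕ} :
    bad S z = true ↔ (∃ v ∈ z.1, z.2.2 ∉ S v) ∨ z.2.2 ∉ S z.2.1 := by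
  unfold bad
  rw [decide_eq_true_eq]
  simp only [List.mem_append, List.mem_singleton]
  constructor
  · rintro ⟨v, hv | rfl, h⟩
    · exact Or.inl ⟨v, hv, h⟩
    · exact Or.inr h
  · rintro (⟨v, hv, h⟩ | h)
    · exact ⟨v, Or.inl hv, h⟩
    · exact ⟨_, Or.inr rfl, h⟩

theorem countP_flatMap_ge {α β : Type} (p : β → Bool) (f : α → List β) (c : ℕ) : ∀ l : List α,
    (∀ x ∈ l, c ≤ (f x).countP p) → l.length * c ≤ (l.flatMap f).countP p := by
  intro l
  induction l with
  | nil => intro _; simp
  | cons a l ih =>
    intro h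
    rw [List.flatMap_cons, List.countP_append, List.length_cons, Nat.add_mul]
    have h1 := h a (by simp)
    have h2 := ih fun x hx => h x (by simp [hx])
    omega

theorem countP_flatMap_le {α β : Type} (p : β → Bool) (f : α → List β) (c : ℕ) : ∀ l : List α,
    (∀ x ∈ l, (f x).countP p ≤ c) → (l.flatMap f).countP p ≤ l.length * c := by
  intro l
  induction l with
  | nil => intro _; simp
  | cons a l ih =>
    intro h
    rw [List.flatMap_cons, List.countP_append, List.length_cons, Nat.add_mul]
    have h1 := h a (by simp)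
    have h2 := ih fun x hx => h x (by simp [hx])
    omega

section

variable {B k t M : ℕ} {S : ℕ → Finset ℕ}

theorem length_edgesA : (P.edgesA B k).length = P.A * (k + 1) := by
  unfold edgesA
  rw [List.length_flatMap]
  simp

theorem lower_A {v : ℕ} (hv : v ∈ P.taxes B) (h : 1 ∉ S v) :
    P.A * (k + 1) ≤ (P.edgesA B k).countP (bad S) := by
  rw [← length_edgesA (P := P) (B := B), le_iff_eq_or_lt, ← not_le]
  left
  symm
  rw [List.countP_eq_length]
  intro z hz
  unfold edgesA at hz
  simp only [List.mem_flatMap, List.mem_map, List.mem_range] at hz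
  obtain ⟨j, hj, l, hl, rfl⟩ := hz
  rw [bad_iff]
  exact Or.inl ⟨v, hv, h⟩

theorem upper_A : (P.edgesA B k).countP (bad S) ≤ P.A * (k + 1) := by
  rw [← length_edgesA (P := P) (B := B)]
  exact List.countP_le_length

theorem zero_A (h : ∀ v ∈ P.taxes B, 1 ∈ S v)
    (h' : ∀ j < P.A, ∀ l < k + 1, 1 ∈ S (P.code B (P.tA + j) l 0)) :
    (P.edgesA B k).countP (bad S) = 0 := by
  rw [List.countP_eq_zero]
  intro z hz
  unfold edgesA at hz
  simp only [List.mem_flatMap, List.mem_map, List.mem_range] at hz
  obtain ⟨j, hj, l, hl, rfl⟩ := hz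
  rw [bad_iff]
  rintro (⟨v, hv, h1⟩ | h1)
  · exact h1 (h v hv)
  · exact h1 (h' j hj l hl)

/-- Some copy of an edge in the list does not have the color `1`. -/
def miss (P : Par) (B : ℕ) (S : ℕ → Finset ℕ) (z : List ℕ × ℕ) : Bool :=
  decide (∃ e ∈ z.1, ∃ v ∈ P.copies B e, 1 ∉ S v)

theorem lower_B (L : List (List ℕ × ℕ)) :
    P.a * L.countP (miss P B S) ≤ (P.edgesB B L).countP (bad S) := by
  have := countP_flatMap_ge (bad S) (fun i => L.map fun z =>
    (z.1.flatMap (P.copies B), P.code B (P.tB + i) z.2 0, 1)) (L.countP (miss P B S))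
    (List.range P.a) (by
      intro i _
      rw [List.countP_map]
      refine List.countP_mono_left fun z _ hz => ?_
      unfold miss at hz
      rw [decide_eq_true_eq] at hz
      obtain ⟨e, he, v, hv, h⟩ := hz
      rw [Function.comp_apply, bad_iff]
      exact Or.inl ⟨v, List.mem_flatMap.2 ⟨e, he, hv⟩, h⟩)
  rw [List.length_range] at this
  exact this

theorem upper_B (L : List (List ℕ × ℕ))
    (h : ∀ i < P.a, ∀ z ∈ L, 1 ∈ S (P.code B (P.tB + i) z.2 0)) :
    (P.edgesB B L).countP (bad S) ≤ P.a * L.countP (miss P B S) := by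
  have := countP_flatMap_le (bad S) (fun i => L.map fun z =>
    (z.1.flatMap (P.copies B), P.code B (P.tB + i) z.2 0, 1)) (L.countP (miss P B S))
    (List.range P.a) (by
      intro i hi
      rw [List.mem_range] at hi
      rw [List.countP_map]
      refine List.countP_mono_left fun z hz hb => ?_
      rw [Function.comp_apply, bad_iff] at hb
      unfold miss
      rw [decide_eq_true_eq]
      rcases hb with ⟨v, hv, hb⟩ | hb
      · obtain ⟨e, he, hv⟩ := List.mem_flatMap.1 hv
        exact ⟨e, he, v, hv, hb⟩
      · exact absurd (h i hi z hz) hb)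
  rw [List.length_range] at this
  exact this

theorem countP_row {v w : ℕ → ℕ} {u : ℕ} (h0 : 0 ∉ S u) :
    ((List.range M).map fun l => (([u], v (w l), 0) : List ℕ × ℕ × ℕ)).countP (bad S) = M := by
  rw [List.countP_map]
  have e : (List.range M).countP (bad S ∘ fun l => (([u], v (w l), 0) : List ℕ × ℕ × ℕ)) =
      (List.range M).length := by
    rw [List.countP_eq_length]
    intro l _
    rw [Function.comp_apply, bad_iff]
    exact Or.inl ⟨_, List.mem_singleton_self _, h0⟩
  rw [e, List.length_range]

theorem lower_C (L : List (ℕ × ℕ)) {z : ℕ × ℕ} (hz : z ∈ L) {h : ℕ} (hh : h < 2 * P.b)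
    (h0 : 0 ∉ S (P.code B (2 + h) z.1 0)) :
    P.C * M ≤ (P.edgesC B M L).countP (bad S) := by
  have h1 : ((List.range P.C).flatMap fun c => (List.range M).map fun l =>
      (([P.code B (2 + h) z.1 0], P.code B (P.t1 + (h * P.C + c)) z.2 l, 0) :
        List ℕ × ℕ × ℕ)).Sublist (P.gadget B M z.1 z.2) := by
    unfold gadget
    rw [List.flatMap_def (l := List.range (2 * P.b))]
    exact List.sublist_flatten_of_mem (List.mem_map.2 ⟨h, List.mem_range.2 hh, rfl⟩)
  have h2 : (P.gadget B M z.1 z.2).Sublist (P.edgesC B M L) := by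
    unfold edgesC
    rw [List.flatMap_def]
    exact List.sublist_flatten_of_mem (List.mem_map.2 ⟨z, hz, rfl⟩)
  refine le_trans ?_ ((h1.trans h2).countP_le)
  have := countP_flatMap_ge (bad S) (fun c => (List.range M).map fun l =>
    (([P.code B (2 + h) z.1 0], P.code B (P.t1 + (h * P.C + c)) z.2 l, 0) : List ℕ × ℕ × ℕ))
    M (List.range P.C) (fun c _ =>
      (countP_row (v := P.code B (P.t1 + (h * P.C + c)) z.2) (w := id) h0).ge)
  rw [List.length_range] at this
  exact this

theorem zero_C (L : List (ℕ × ℕ))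
    (h0 : ∀ z ∈ L, ∀ h < 2 * P.b, 0 ∈ S (P.code B (2 + h) z.1 0))
    (h1 : ∀ z ∈ L, ∀ s < 2 * P.b * P.C, ∀ l < M, 0 ∈ S (P.code B (P.t1 + s) z.2 l)) :
    (P.edgesC B M L).countP (bad S) = 0 := by
  rw [List.countP_eq_zero]
  intro z hz
  unfold edgesC gadget at hz
  simp only [List.mem_flatMap, List.mem_map, List.mem_range] at hz
  obtain ⟨w, hw, g, hg, c, hc, l, hl, rfl⟩ := hz
  rw [bad_iff]
  rintro (⟨v, hv, h⟩ | h)
  · rw [List.mem_singleton] at hv
    subst hv
    exact h (h0 w hw g hg)
  · exact h (h1 w hw _ (mul_add_lt hg hc) l hl)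

theorem lower_D {i j : ℕ} (hi : i < 2) (hj : j < t) (h0 : 0 ∉ S (P.code B i j 0)) :
    P.C * M ≤ (P.edgesD B M t).countP (bad S) := by
  have h1 : ((List.range P.C).flatMap fun c =>
      (List.range t).flatMap fun j => (List.range M).map fun l =>
      (([P.code B i j 0], P.code B (P.t2 + (i * P.C + c)) j l, 0) :
        List ℕ × ℕ × ℕ)).Sublist (P.edgesD B M t) := by
    unfold edgesD
    rw [List.flatMap_def (l := List.range 2)]
    exact List.sublist_flatten_of_mem (List.mem_map.2 ⟨i, List.mem_range.2 hi, rfl⟩)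
  refine le_trans ?_ (h1.countP_le)
  have := countP_flatMap_ge (bad S) (fun c => (List.range t).flatMap fun j =>
    (List.range M).map fun l =>
    (([P.code B i j 0], P.code B (P.t2 + (i * P.C + c)) j l, 0) : List ℕ × ℕ × ℕ))
    M (List.range P.C) (by
      intro c _
      have h2 : ((List.range M).map fun l =>
          (([P.code B i j 0], P.code B (P.t2 + (i * P.C + c)) j l, 0) :
          List ℕ × ℕ × ℕ)).Sublist ((List.range t).flatMap fun j => (List.range M).map fun l =>
          (([P.code B i j 0], P.code B (P.t2 + (i * P.C + c)) j l, 0) : List ℕ × ℕ × ℕ)) := by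
        rw [List.flatMap_def]
        exact List.sublist_flatten_of_mem (List.mem_map.2 ⟨j, List.mem_range.2 hj, rfl⟩)
      exact (countP_row (v := P.code B (P.t2 + (i * P.C + c)) j) (w := id) h0).ge.trans
        h2.countP_le)
  rw [List.length_range] at this
  exact this

theorem zero_D (h0 : ∀ i < 2, ∀ j < t, 0 ∈ S (P.code B i j 0))
    (h1 : ∀ s < 2 * P.C, ∀ j < t, ∀ l < M, 0 ∈ S (P.code B (P.t2 + s) j l)) :
    (P.edgesD B M t).countP (bad S) = 0 := by
  rw [List.countP_eq_zero]
  intro z hz
  unfold edgesD at hz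
  simp only [List.mem_flatMap, List.mem_map, List.mem_range] at hz
  obtain ⟨i, hi, c, hc, j, hj, l, hl, rfl⟩ := hz
  rw [bad_iff]
  rintro (⟨v, hv, h⟩ | h)
  · rw [List.mem_singleton] at hv
    subst hv
    exact h (h0 i hi j hj)
  · exact h (h1 _ (mul_add_lt hi hc) j hj l hl)

end

end Par

/-! ### The instance -/

namespace Graph

variable (G : Graph)

/-- The lists of the edges at the vertices. -/
def lists : List (List ℕ) := (List.finRange G.n).map G.incident

/-- The number of pairs (vertex, edge at this vertex). -/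
def K : ℕ := G.lists.flatten.length

theorem encode_eq : G.encode = word G.lists := rfl

theorem length_lists : G.lists.length = G.n := by
  unfold lists; simp

theorem mem_incident {v : Fin G.n} {e : ℕ} :
    e ∈ G.incident v ↔ ∃ h : e < G.m, v ∈ G.ends ⟨e, h⟩ := by
  unfold incident
  simp only [List.mem_map, List.mem_filter, List.mem_finRange, true_and, decide_eq_true_eq]
  constructor
  · rintro ⟨a, ha, rfl⟩
    exact ⟨a.2, ha⟩
  · rintro ⟨h, hv⟩
    exact ⟨⟨e, h⟩, hv, rfl⟩

end Graph

namespace Query

variable (P : Par) (z : Query)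

/-- The bound for the coordinates of the nodes. -/
def bnd : ℕ := (P.p + 1) * z.encode.length + 1

/-- The bound for the weight of the set. -/
def kk : ℕ := z.2.1 + P.p * z.1.n

/-- The bound for the weight of the edges. -/
def tt : ℕ := z.2.2 + P.p * z.1.K

theorem length_encode : z.encode.length = z.2.1 + (z.2.2 + z.1.encode.length) := by
  unfold encode
  simp

theorem good : Par.Good (bnd P z) (kk P z) (tt P z) z.1.lists := by
  obtain ⟨h1, h2, h3⟩ := length_word z.1.lists
  have h0 := z.length_encode
  rw [z.1.encode_eq] at h0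
  have h4 : z.1.lists.length = z.1.n := z.1.length_lists
  have h5 : z.1.K = z.1.lists.flatten.length := rfl
  have h6 : P.p * z.1.n ≤ P.p * z.encode.length := Nat.mul_le_mul_left _ (by omega)
  have h7 : P.p * z.1.K ≤ P.p * z.encode.length := Nat.mul_le_mul_left _ (by omega)
  have h8 : (P.p + 1) * z.encode.length = P.p * z.encode.length + z.encode.length := by ring
  refine ⟨?_, ?_, ?_, ?_, ?_⟩
  · intro L hL
    unfold Graph.lists at hL
    rw [List.mem_map] at hL
    obtain ⟨v, -, rfl⟩ := hL
    unfold Graph.incident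
    exact ((List.nodup_finRange _).filter _).map Fin.val_injective
  · intro L hL e he
    have := h3 L hL e he
    unfold bnd
    omega
  · unfold bnd kk
    omega
  · unfold bnd tt
    omega
  · unfold bnd
    omega

/-- The budget of the instance. -/
def bud : ℕ := if 2 * P.a ≤ kk P z then P.b * z.1.K else 0

/-- **The instance that is built from the graph.** -/
def inst : Instance where
  numNodes := P.T * (bnd P z * bnd P z)
  numColors := 2
  budget := bud P z
  edges := (P.allEdges (bnd P z) (kk P z) (tt P z) z.1.lists).map Par.edgeOf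
  colors_pos := by norm_num
  color_lt := by
    intro e he
    rw [List.mem_map] at he
    obtain ⟨w, hw, rfl⟩ := he
    exact (Par.types (good P z) hw).2.2
  node_lt := by
    intro e he v hv
    rw [List.mem_map] at he
    obtain ⟨w, hw, rfl⟩ := he
    obtain ⟨h1, h2, -⟩ := Par.types (good P z) hw
    unfold Par.edgeOf at hv
    simp only [List.mem_append, List.mem_singleton] at hv
    rcases hv with hv | rfl
    · exact (h1 v hv).lt (by unfold Par.T Par.t2 Par.t1 Par.tA; omega)
    · exact h2.lt le_rfl
  nonempty := by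
    intro e he
    rw [List.mem_map] at he
    obtain ⟨w, hw, rfl⟩ := he
    unfold Par.edgeOf
    simp
  nodup := by
    intro e he
    rw [List.mem_map] at he
    obtain ⟨w, hw, rfl⟩ := he
    obtain ⟨h1, h2, -⟩ := Par.types (good P z) hw
    unfold Par.edgeOf
    simp only
    rw [List.nodup_append]
    refine ⟨Par.nodup_common (good P z) hw, List.nodup_singleton _, ?_⟩
    intro v hv u hu hvu
    rw [List.mem_singleton] at hu
    subst hu
    subst hvu
    have h3 := ((h1 _ hv).mod (by unfold Par.T Par.t2 Par.t1 Par.tA; omega)).2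
    have h4 := (h2.mod le_rfl).1
    omega
  distinct := Par.distinct (good P z)

theorem mistakes_inst (S : ℕ → Finset ℕ) : (inst P z).mistakes S =
    (P.edgesA (bnd P z) (kk P z)).countP (Par.bad S) +
    (P.edgesB (bnd P z) z.1.lists.zipIdx).countP (Par.bad S) +
    (P.edgesC (bnd P z) (z.1.n + kk P z + 1) z.1.lists.flatten.zipIdx).countP (Par.bad S) +
    (P.edgesD (bnd P z) (z.1.n + kk P z + 1) (tt P z)).countP (Par.bad S) := by
  unfold Instance.mistakes inst
  simp only
  rw [← List.countP_eq_length_filter, List.countP_map]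
  have e : ((fun e : List ℕ × ℕ => decide (∃ v ∈ e.1, e.2 ∉ S v)) ∘ Par.edgeOf) = Par.bad S := by
    funext w
    rfl
  rw [e]
  unfold Par.allEdges
  rw [List.countP_append, List.countP_append, List.countP_append, Graph.length_lists]
  omega

end Query

end Pool.Agent.Lib.MP_dc7e63_lc
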