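import Pool.Agent.Lib.CookLevin.Comp2

/-!
# Functions computed by finite automata are computable in polynomial time
-/

namespace Pool.Agent.Lib.MP_dc7e63_lc

open Function Turing Pool.Agent.Lib.CookLevin

/-- The stacks of the machine: the input and the output. -/
abbrev dΓ (A : Type) : Bool → Type
  | false => A
  | true => Bool

variable {A S : Type}

/-- The program of the machine. -/
def dStmt (step : S → A → S) (s₀ : S) (acc : S → Bool) : TM2.Stmt (dΓ A) Unit (S × Bool) :=
  TM2.Stmt.pop false
    (fun v a => match a with
      | none => (v.1, true)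
      | some a => (step v.1 a, false))
    (TM2.Stmt.branch (fun v => v.2)
      (TM2.Stmt.push true (fun v => acc v.1) (TM2.Stmt.load (fun _ => (s₀, false)) TM2.Stmt.halt))
      (TM2.Stmt.goto fun _ => ()))

/-- The machine. -/
def dTM [Fintype A] [Fintype S] (step : S → A → S) (s₀ : S) (acc : S → Bool) : FinTM2 where
  K := Bool
  k₀ := false
  k₁ := true
  Γ := dΓ A
  Λ := Unit
  main := ()
  σ := S × Bool
  initialState := (s₀, false)
  Γk₀Fin := inferInstanceAs (Fintype A)
  m := fun _ => dStmt step s₀ acc

theorem dSteps (step : S → A → S) (s₀ : S) (acc : S → Bool) (l : List A) : ∀ s : S,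
    Steps (K := Bool) (Γ := dΓ A) (fun _ : Unit => dStmt step s₀ acc) (l.length + 1)
      ⟨some (), (s, false), single (K := Bool) (Γ := dΓ A) false l⟩
      ⟨none, (s₀, false), single (K := Bool) (Γ := dΓ A) true [acc (l.foldl step s)]⟩ := by
  induction l with
  | nil =>
    intro s
    refine Steps.one ?_
    have e : update (update (single (K := Bool) (Γ := dΓ A) false ([] : List A)) false []) true
        ([acc s] : List Bool) = single (K := Bool) (Γ := dΓ A) true [acc s] := by
      funext k; cases k <;> rfl
    have h : TM2.step (fun _ : Unit => dStmt step s₀ acc)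
        ⟨some (), (s, false), single (K := Bool) (Γ := dΓ A) false ([] : List A)⟩ =
        some ⟨none, (s₀, false), update (update (single (K := Bool) (Γ := dΓ A) false
          ([] : List A)) false []) true ([acc s] : List Bool)⟩ := rfl
    rw [h, e]
    rfl
  | cons a l ih =>
    intro s
    have e : update (single (K := Bool) (Γ := dΓ A) false (a :: l)) false l =
        single (K := Bool) (Γ := dΓ A) false l := by
      funext k; cases k <;> rfl
    have h : TM2.step (fun _ : Unit => dStmt step s₀ acc)
        ⟨some (), (s, false), single (K := Bool) (Γ := dΓ A) false (a :: l)⟩ =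
        some ⟨some (), (step s a, false), update (single (K := Bool) (Γ := dΓ A) false
          (a :: l)) false l⟩ := rfl
    rw [e] at h
    exact Steps.cons h (ih _)

/-- **A function computed by a finite automaton is computable in polynomial time.** -/
theorem dfa_computable [Fintype A] [Fintype S] (step : S → A → S) (s₀ : S) (acc : S → Bool)
    {α : Type} (ea : α → List A) :
    Nonempty (TM2ComputableInPolyTime ea Computability.encodeBool
      fun a => acc ((ea a).foldl step s₀)) := by
  have key : ∀ a, Nonempty (TM2OutputsInTime (dTM step s₀ acc)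
      ((ea a).map (Equiv.refl A).invFun)
      (some ((Computability.encodeBool (acc ((ea a).foldl step s₀))).map (Equiv.refl Bool).invFun))
      ((Polynomial.X + 1 : Polynomial ℕ).eval (ea a).length)) := by
    intro a
    refine outputs_iff.2 ⟨(ea a).length + 1, by simp, ?_⟩
    have h := dSteps step s₀ acc (ea a) s₀
    have e : (ea a).map (Equiv.refl A).invFun = ea a := List.map_id _
    exact e.symm ▸ h
  exact ⟨⟨⟨dTM step s₀ acc, Equiv.refl A, Equiv.refl Bool⟩, Polynomial.X + 1,
    fun a => (key a).some⟩⟩

end Pool.Agent.Lib.MP_dc7e63_lc
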