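import Pool.Agent.Lib.CookLevin.NP

/-!
# Budgeted edge-colored clustering, dense subgraphs, small-set expansion and complexity classes:
the definitions
-/

namespace Pool.Agent.Lib.MP_dc7e63_lc

open Turing Pool.Agent.Lib.CookLevin

/-! ### Words -/

/-- The symbols with which hypergraphs, graphs and colorings are written down. -/
inductive Sym
  | one
  | comma
  | semi
  | size
  | count
  deriving DecidableEq, Inhabited

instance : Fintype Sym :=
  ⟨{Sym.one, Sym.comma, Sym.semi, Sym.size, Sym.count}, fun x => by cases x <;> decide⟩

/-- A natural number in unary notation, followed by a comma. -/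
def num (k : ℕ) : List Sym := List.replicate k Sym.one ++ [Sym.comma]

/-- A list of lists of natural numbers, written as a word: every number is written in unary and
followed by a comma, and every list is followed by a semicolon. -/
def word (L : List (List ℕ)) : List Sym := L.flatMap fun l => l.flatMap num ++ [Sym.semi]

/-! ### The clustering problems -/

/-- An instance of the clustering problems. The nodes are `0, …, numNodes - 1`, the colors are
`0, …, numColors - 1`, and `edges` lists the hyperedges together with their colors: the pair
`(l, c)` is the hyperedge whose elements are the entries of `l`, with color `c`. The hyperedges are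
nonempty and no two of them are equal as sets. -/
structure Instance where
  numNodes : ℕ
  numColors : ℕ
  budget : ℕ
  edges : List (List ℕ × ℕ)
  colors_pos : 0 < numColors
  color_lt : ∀ e ∈ edges, e.2 < numColors
  node_lt : ∀ e ∈ edges, ∀ v ∈ e.1, v < numNodes
  nonempty : ∀ e ∈ edges, e.1 ≠ []
  nodup : ∀ e ∈ edges, e.1.Nodup
  distinct : (edges.map fun e => e.1.toFinset).Nodup

namespace Instance

/-- The instance as a word: first the three numbers `numNodes`, `numColors` and `budget`, then the
hyperedges, each of them followed by its color. -/
def encode (I : Instance) : List Sym :=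
  word ([I.numNodes, I.numColors, I.budget] :: I.edges.map fun e => e.1 ++ [e.2])

/-- The number of mistakes of the assignment `S` of sets of colors to the nodes: the number of
hyperedges whose color is missing at some node. -/
def mistakes (I : Instance) (S : ℕ → Finset ℕ) : ℕ :=
  (I.edges.filter fun e => ∃ v ∈ e.1, e.2 ∉ S v).length

end Instance

/-- The feasible solutions of GlobalECC: every node gets at least one color, and the number of
extra colors is at most the budget. -/
def GlobalFeasible (I : Instance) (S : ℕ → Finset ℕ) : Prop :=
  (∀ v < I.numNodes, S v ⊆ Finset.range I.numColors ∧ 1 ≤ (S v).card) ∧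
    ∑ v ∈ Finset.range I.numNodes, ((S v).card - 1) ≤ I.budget

/-- The feasible solutions of RobustECC: at most `budget` nodes get all colors, and every other node
gets exactly one color. -/
def RobustFeasible (I : Instance) (S : ℕ → Finset ℕ) : Prop :=
  ∃ D ⊆ Finset.range I.numNodes, D.card ≤ I.budget ∧
    (∀ v ∈ D, S v = Finset.range I.numColors) ∧
    ∀ v < I.numNodes, v ∉ D → (S v).card = 1 ∧ S v ⊆ Finset.range I.numColors

/-- The assignment that is described by a table: the colors of the node `v` are the entries of the
row `v`. -/
def assignment (t : List (List ℕ)) (v : ℕ) : Finset ℕ := (t.getD v []).toFinset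

/-- There is a constant-factor single-criteria approximation on the class `D` of instances, for the
problem whose feasible solutions are given by `Feas`: there are a constant `α` and a function `alg`
that is computed in polynomial time by a Turing machine such that for every instance in `D` the
output of `alg` is a table with one row for each node, it describes a feasible solution, and the
number of mistakes of that solution is at most `α` times the number of mistakes of every feasible
solution. -/
def HasConstantFactor (D : Set Instance) (Feas : Instance → (ℕ → Finset ℕ) → Prop) : Prop :=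
  ∃ (α : ℝ) (alg : Instance → List (List ℕ)),
    Nonempty (TM2ComputableInPolyTime Instance.encode word alg) ∧
    ∀ I ∈ D, (alg I).length = I.numNodes ∧ Feas I (assignment (alg I)) ∧
      ∀ S, Feas I S → (I.mistakes (assignment (alg I)) : ℝ) ≤ α * I.mistakes S

/-- The instances with exactly two colors. -/
def twoColors : Set Instance := {I | I.numColors = 2}

/-! ### Graphs -/

/-- A finite loopless graph; several edges may have the same ends. -/
structure Graph where
  n : ℕ
  m : ℕ
  ends : Fin m → Sym2 (Fin n)
  loopless : ∀ e, ¬ (ends e).IsDiag

namespace Graph

/-- The numbers of the edges at the vertex `v`, in increasing order. -/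
def incident (G : Graph) (v : Fin G.n) : List ℕ :=
  ((List.finRange G.m).filter fun e => v ∈ G.ends e).map Fin.val

/-- The graph as a word: for each vertex the list of the edges at this vertex. -/
def encode (G : Graph) : List Sym := word ((List.finRange G.n).map G.incident)

/-- The number of edges with both ends in `S`. -/
def inner (G : Graph) (S : Finset (Fin G.n)) : ℕ :=
  (Finset.univ.filter fun e => ∀ v ∈ G.ends e, v ∈ S).card

/-- Every vertex is an end of exactly `d` edges. -/
def Regular (G : Graph) (d : ℕ) : Prop :=
  ∀ v, (Finset.univ.filter fun e => v ∈ G.ends e).card = d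

/-- The number of edges with one end in `S` and one end outside of `S`. -/
def cut (G : Graph) (S : Finset (Fin G.n)) : ℕ :=
  (Finset.univ.filter fun e => (∃ v ∈ G.ends e, v ∈ S) ∧ ∃ v ∈ G.ends e, v ∉ S).card

/-- The YES instances of Gap Small-Set Expansion with parameters `η` and `δ`: the `d`-regular graphs
with `n` vertices in which some set of exactly `δ n` vertices has expansion at most `η`. -/
def yes (η δ : ℚ) : Set Graph :=
  {G | 0 < G.n ∧ ∃ d, 0 < d ∧ G.Regular d ∧ ∃ S : Finset (Fin G.n),
    (S.card : ℚ) = δ * G.n ∧ (G.cut S : ℚ) ≤ η * (d * S.card)}

/-- The NO instances of Gap Small-Set Expansion with parameters `η` and `δ`: the `d`-regular graphs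
with `n` vertices, where `δ n` is an integer, in which every set of exactly `δ n` vertices has
expansion at least `1 - η`. -/
def no (η δ : ℚ) : Set Graph :=
  {G | 0 < G.n ∧ ∃ d, 0 < d ∧ G.Regular d ∧ (∃ s : ℕ, (s : ℚ) = δ * G.n) ∧
    ∀ S : Finset (Fin G.n), (S.card : ℚ) = δ * G.n → (1 - η) * (d * S.card) ≤ G.cut S}

end Graph

/-- An instance of Densest-k-Subgraph: a graph, the bound `k` for the number of vertices, and the
number `t` of edges that is asked for. -/
abbrev Query := Graph × ℕ × ℕ

namespace Query

/-- The triple `(G, k, t)` as a word: `k` times the symbol `size`, `t` times the symbol `count`, and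
the graph. -/
def encode (z : Query) : List Sym :=
  List.replicate z.2.1 Sym.size ++ (List.replicate z.2.2 Sym.count ++ z.1.encode)

/-- The YES instances: some set with at most `k` vertices contains at least `t > 0` edges. -/
def yes : Set Query :=
  {z | 0 < z.2.2 ∧ ∃ S : Finset (Fin z.1.n), S.card ≤ z.2.1 ∧ z.2.2 ≤ z.1.inner S}

/-- The NO instances with gap `c`: every set with at most `k` vertices contains less than `t / c`
edges. -/
def no (c : ℕ) : Set Query :=
  {z | ∀ S : Finset (Fin z.1.n), S.card ≤ z.2.1 → c * z.1.inner S < z.2.2}

end Query

/-! ### Complexity -/

/-- The language `L` is decided in polynomial time. -/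
def InP (L : Set (List Bool)) : Prop :=
  ∃ f : List Bool → Bool,
    Nonempty (TM2ComputableInPolyTime (id : List Bool → List Bool) Computability.encodeBool f) ∧
    ∀ x, x ∈ L ↔ f x = true

/-- P ≠ NP: some language in NP is not in P. -/
def PNeNP : Prop := ∃ L : Set (List Bool), InNP L ∧ ¬ InP L

/-- The promise problem with the YES instances `Y` and the NO instances `N` is solved in polynomial
time; `enc` writes the instances as words. -/
def SolvedInP {β : Type} (enc : β → List Sym) (Y N : Set β) : Prop :=
  ∃ g : β → Bool, Nonempty (TM2ComputableInPolyTime enc Computability.encodeBool g) ∧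
    (∀ z ∈ Y, g z = true) ∧ ∀ z ∈ N, g z = false

/-- The promise problem with the YES instances `Y` and the NO instances `N` is NP-hard: every
language in NP has a polynomial-time reduction to it; `enc` writes the instances as words. -/
def IsNPHard {β : Type} (enc : β → List Sym) (Y N : Set β) : Prop :=
  ∀ L : Set (List Bool), InNP L → ∃ f : List Bool → β,
    Nonempty (TM2ComputableInPolyTime (id : List Bool → List Bool) enc f) ∧
    ∀ x, (x ∈ L → f x ∈ Y) ∧ (x ∉ L → f x ∈ N)

/-- Densest-k-Subgraph is hard to approximate: for no constant `c` can the graphs in which some `k`
vertices contain `t` edges be distinguished in polynomial time from the graphs in which any `k`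
vertices contain less than `t / c` edges. -/
def DenseSubgraphHard : Prop := ∀ c : ℕ, ¬ SolvedInP Query.encode Query.yes (Query.no c)

/-- **The Small-Set Expansion Hypothesis** of Raghavendra and Steurer: for every `η > 0` there is
`δ` such that Gap Small-Set Expansion with parameters `η` and `δ` is NP-hard. -/
def SSEHypothesis : Prop :=
  ∀ η : ℚ, 0 < η → ∃ δ : ℚ, 0 < δ ∧ δ < 1 ∧ IsNPHard Graph.encode (Graph.yes η δ) (Graph.no η δ)

end Pool.Agent.Lib.MP_dc7e63_lc
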