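import Pool.Agent.Lib.MP_dc7e63_lc.Defs

/-!
# Sets of vertices with many edges
-/

namespace Pool.Agent.Lib.MP_dc7e63_lc

open Finset

namespace Graph

variable (G : Graph)

theorem card_ends_inter (S : Finset (Fin G.n)) (e : Fin G.m) :
    (S.filter fun v => v ∈ G.ends e).card =
      2 * (if ∀ v ∈ G.ends e, v ∈ S then 1 else 0) +
      (if (∃ v ∈ G.ends e, v ∈ S) ∧ ∃ v ∈ G.ends e, v ∉ S then 1 else 0) := by
  have hl := G.loopless e
  revert hl
  refine Sym2.ind (fun a b => ?_) (G.ends e)
  intro hl
  have hab : a ≠ b := by simpa using hl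
  have e1 : (S.filter fun v => v ∈ s(a, b)) = ({a, b} : Finset _).filter fun v => v ∈ S := by
    ext v
    simp only [mem_filter, Sym2.mem_iff, mem_insert, mem_singleton]
    tauto
  rw [e1]
  by_cases ha : a ∈ S <;> by_cases hb : b ∈ S
  · have : ({a, b} : Finset (Fin G.n)).filter (fun v => v ∈ S) = {a, b} := by
      ext v
      simp only [mem_filter, mem_insert, mem_singleton]
      constructor
      · exact fun h => h.1
      · rintro (rfl | rfl) <;> simp [*]
    rw [this, card_pair hab]
    simp [ha, hb]
  · have : ({a, b} : Finset (Fin G.n)).filter (fun v => v ∈ S) = {a} := by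
      ext v
      simp only [mem_filter, mem_insert, mem_singleton]
      constructor
      · rintro ⟨rfl | rfl, h⟩
        · rfl
        · exact absurd h hb
      · rintro rfl; simp [*]
    rw [this, card_singleton]
    simp [ha, hb]
  · have : ({a, b} : Finset (Fin G.n)).filter (fun v => v ∈ S) = {b} := by
      ext v
      simp only [mem_filter, mem_insert, mem_singleton]
      constructor
      · rintro ⟨rfl | rfl, h⟩
        · exact absurd h ha
        · rfl
      · rintro rfl; simp [*]
    rw [this, card_singleton]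
    simp [ha, hb]
  · have : ({a, b} : Finset (Fin G.n)).filter (fun v => v ∈ S) = ∅ := by
      ext v
      simp only [mem_filter, mem_insert, mem_singleton, notMem_empty, iff_false]
      rintro ⟨rfl | rfl, h⟩
      · exact ha h
      · exact hb h
    rw [this, card_empty]
    simp [ha, hb]

theorem two_inner_add_cut {d : ℕ} (hd : G.Regular d) (S : Finset (Fin G.n)) :
    2 * G.inner S + G.cut S = d * S.card := by
  have h1 : ∑ v ∈ S, (univ.filter fun e => v ∈ G.ends e).card = d * S.card := by
    rw [sum_congr rfl fun v _ => hd v, sum_const, smul_eq_mul, mul_comm]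
  rw [← h1]
  have h2 : ∑ v ∈ S, (univ.filter fun e => v ∈ G.ends e).card =
      ∑ e, (S.filter fun v => v ∈ G.ends e).card := by
    simp only [card_filter]
    exact sum_comm
  rw [h2, sum_congr rfl fun e _ => G.card_ends_inter S e, sum_add_distrib, ← mul_sum]
  unfold inner cut
  rw [card_filter, card_filter]

theorem two_m {d : ℕ} (hd : G.Regular d) : 2 * G.m = d * G.n := by
  have h := G.two_inner_add_cut hd univ
  have h1 : G.inner univ = G.m := by
    unfold inner
    simp
  have h2 : G.cut univ = 0 := by
    unfold cut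
    simp
  rw [h1, h2, card_univ, Fintype.card_fin] at h
  exact h

/-- A set with at most `N * r` elements is divided into `N` sets with at most `r` elements. -/
theorem exists_blocks {V : Type*} [DecidableEq V] (T : Finset V) (N r : ℕ) (hr : 0 < r)
    (hT : T.card ≤ N * r) (hN : 0 < N) :
    ∃ g : V → Fin N, ∀ i, (T.filter fun v => g v = i).card ≤ r := by
  classical
  obtain ⟨f⟩ : Nonempty (T ≃ Fin T.card) := ⟨T.equivFin⟩
  refine ⟨fun v => if h : v ∈ T then ⟨f ⟨v, h⟩ / r, ?_⟩ else ⟨0, hN⟩, fun i => ?_⟩
  · rw [Nat.div_lt_iff_lt_mul hr]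
    exact lt_of_lt_of_le (f ⟨v, h⟩).2 hT
  · have key : ∀ v ∈ T.filter (fun v => (if h : v ∈ T then (⟨f ⟨v, h⟩ / r, by
        rw [Nat.div_lt_iff_lt_mul hr]
        exact lt_of_lt_of_le (f ⟨v, h⟩).2 hT⟩ : Fin N) else ⟨0, hN⟩) = i),
        (if h : v ∈ T then (f ⟨v, h⟩ : ℕ) else 0) ∈ Finset.Ico (i * r) (i * r + r) := by
      intro v hv
      rw [mem_filter] at hv
      obtain ⟨h1, h2⟩ := hv
      rw [dif_pos h1] at h2 ⊢
      have h3 : (f ⟨v, h1⟩ : ℕ) / r = i := congrArg Fin.val h2
      rw [mem_Ico, ← h3]
      have := Nat.div_add_mod (f ⟨v, h1⟩ : ℕ) r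
      have h4 := Nat.mod_lt (f ⟨v, h1⟩ : ℕ) hr
      rw [Nat.mul_comm] at this
      omega
    have := card_le_card_of_injOn _ key (by
      intro v hv w hw hvw
      simp only [coe_filter, Set.mem_ofPred_eq] at hv hw
      simp only [hv.1, hw.1, dif_pos] at hvw
      exact congrArg Subtype.val (f.injective (Fin.ext hvw)))
    simpa using this

theorem inner_mono {S T : Finset (Fin G.n)} (h : S ⊆ T) : G.inner S ≤ G.inner T := by
  unfold inner
  refine card_le_card fun e he => ?_
  rw [mem_filter] at he ⊢
  exact ⟨he.1, fun v hv => h (he.2 v hv)⟩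

theorem inner_eq_zero {S : Finset (Fin G.n)} (h : S.card ≤ 1) : G.inner S = 0 := by
  unfold inner
  rw [card_eq_zero, filter_eq_empty_iff]
  intro e _ he
  have hl := G.loopless e
  revert he hl
  refine Sym2.ind (fun a b => ?_) (G.ends e)
  intro he hl
  have ha := he a (by simp)
  have hb := he b (by simp)
  exact hl (by simpa using card_le_one.1 h a ha b hb)

/-- Many edges inside a set with `N r` vertices give many edges inside some set with `2 r`
vertices. -/
theorem exists_dense {N r : ℕ} (hr : 0 < r) (T : Finset (Fin G.n))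
    (hT : T.card ≤ N * r) : ∃ S : Finset (Fin G.n), S.card ≤ 2 * r ∧
      G.inner T ≤ N ^ 2 * G.inner S := by
  classical
  rcases Nat.eq_zero_or_pos N with rfl | hN
  · refine ⟨∅, by simp, ?_⟩
    rw [G.inner_eq_zero (by omega)]
    exact Nat.zero_le _
  · obtain ⟨g, hg⟩ := exists_blocks T N r hr hT hN
    have hpair : ∀ e : Fin G.m, ∃ ij : Fin N × Fin N,
        ∀ v ∈ G.ends e, g v = ij.1 ∨ g v = ij.2 := by
      intro e
      refine Sym2.ind (fun a b => ?_) (G.ends e)
      refine ⟨(g a, g b), ?_⟩
      intro v hv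
      rw [Sym2.mem_iff] at hv
      rcases hv with rfl | rfl
      · exact Or.inl rfl
      · exact Or.inr rfl
    choose φ hφ using hpair
    set U := univ.filter fun e => ∀ v ∈ G.ends e, v ∈ T with hU
    have hpig : ∃ y ∈ (univ : Finset (Fin N × Fin N)),
        U.card ≤ N ^ 2 * (U.filter fun e => φ e = y).card := by
      by_contra hcon
      push Not at hcon
      have h1 : U.card = ∑ y : Fin N × Fin N, (U.filter fun e => φ e = y).card :=
        card_eq_sum_card_fiberwise (fun e _ => mem_univ _)
      have hne : (univ : Finset (Fin N × Fin N)).Nonempty :=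
        ⟨(⟨0, hN⟩, ⟨0, hN⟩), mem_univ _⟩
      have h2 : ∑ y : Fin N × Fin N, N ^ 2 * (U.filter fun e => φ e = y).card <
          ∑ _y : Fin N × Fin N, U.card := sum_lt_sum_of_nonempty hne hcon
      rw [← mul_sum, ← h1, sum_const, card_univ, Fintype.card_prod, Fintype.card_fin, smul_eq_mul]
        at h2
      rw [pow_two] at h2
      exact absurd h2 (lt_irrefl _)
    obtain ⟨y, -, hy⟩ := hpig
    set S := T.filter fun v => g v = y.1 ∨ g v = y.2 with hS
    have hSc : S.card ≤ 2 * r := by
      have : S ⊆ (T.filter fun v => g v = y.1) ∪ (T.filter fun v => g v = y.2) := by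
        intro v hv
        rw [hS, mem_filter] at hv
        rw [mem_union, mem_filter, mem_filter]
        tauto
      have h1 := (card_le_card this).trans (card_union_le _ _)
      have h2 := hg y.1
      have h3 := hg y.2
      omega
    refine ⟨S, hSc, ?_⟩
    have hle : (U.filter fun e => φ e = y).card ≤ G.inner S := by
      unfold inner
      refine card_le_card fun e he => ?_
      rw [mem_filter] at he ⊢
      refine ⟨mem_univ _, fun v hv => ?_⟩
      rw [hS, mem_filter]
      have h1 := he.1
      rw [hU, mem_filter] at h1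
      refine ⟨h1.2 v hv, ?_⟩
      have := hφ e v hv
      rw [he.2] at this
      exact this
    exact hy.trans (Nat.mul_le_mul_left _ hle)

end Graph

end Pool.Agent.Lib.MP_dc7e63_lc
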