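import Pool.Agent.Lib.MP_dc7e63_lc.GraphLemmas

/-!
# The hyperedges of the instance of the clustering problem that is built from a graph
-/

namespace Pool.Agent.Lib.MP_dc7e63_lc

/-- The parameters of the reduction: every vertex of the graph has the weight `a`, every edge has
the weight `b`, and `A` bounds the approximation factor. The parameter `p` is used only by the
program: if `n` is the number of vertices and `K` is the sum of the degrees then `p n` is added to
the bound for the weight of the set, and `p K` to the bound for the weight of the edges. -/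
structure Par where
  a : ℕ
  b : ℕ
  A : ℕ
  p : ℕ
  ha : 0 < a
  hb : 0 < b
  hA : 0 < A

namespace Par

variable (P : Par)

/-- The number of copies of the gadgets (per vertex). -/
def C : ℕ := P.A * (P.A + P.a) + 1
/-- The nodes of type less than `2` are the tax nodes, the nodes of type `2 + c` for `c < 2 b` are
the copies of the edges. The nodes of type at least `tB` are private nodes of hyperedges. -/
def tB : ℕ := 2 + 2 * P.b
/-- The first type of the private nodes of the hyperedges of the kind A. -/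
def tA : ℕ := P.tB + P.a
/-- The first type of the private nodes of the hyperedges of the kind C. -/
def t1 : ℕ := P.tA + P.A
/-- The first type of the private nodes of the hyperedges of the kind D. -/
def t2 : ℕ := P.t1 + 2 * P.b * P.C
/-- The number of types. -/
def T : ℕ := P.t2 + 2 * P.C

/-- The node of type `t` with the coordinates `x` and `y`. -/
def code (B t x y : ℕ) : ℕ := t + P.T * (x + B * y)

theorem T_pos : 0 < P.T := by
  unfold T t2 t1 tA tB
  omega

variable {P}

theorem code_mod {B t x y : ℕ} (ht : t < P.T) : P.code B t x y % P.T = t := by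
  unfold code
  rw [Nat.add_mul_mod_self_left, Nat.mod_eq_of_lt ht]

theorem code_div {B t x y : ℕ} (ht : t < P.T) : P.code B t x y / P.T = x + B * y := by
  unfold code
  rw [Nat.add_mul_div_left _ _ P.T_pos, Nat.div_eq_of_lt ht, Nat.zero_add]

theorem code_x {B t x y : ℕ} (ht : t < P.T) (hx : x < B) : P.code B t x y / P.T % B = x := by
  rw [code_div ht, Nat.add_mul_mod_self_left, Nat.mod_eq_of_lt hx]

theorem code_y {B t x y : ℕ} (ht : t < P.T) (hx : x < B) : P.code B t x y / P.T / B = y := by
  rw [code_div ht, Nat.add_mul_div_left _ _ (by omega), Nat.div_eq_of_lt hx, Nat.zero_add]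

theorem code_lt {B t x y : ℕ} (ht : t < P.T) (hx : x < B) (hy : y < B) :
    P.code B t x y < P.T * (B * B) := by
  unfold code
  have h1 : x + B * y + 1 ≤ B * B := by
    have : B * (y + 1) ≤ B * B := Nat.mul_le_mul_left _ hy
    rw [Nat.mul_add] at this
    omega
  calc t + P.T * (x + B * y) < P.T + P.T * (x + B * y) := by omega
    _ = P.T * (x + B * y + 1) := by ring
    _ ≤ P.T * (B * B) := Nat.mul_le_mul_left _ h1

theorem code_inj {B t x y t' x' y' : ℕ} (ht : t < P.T) (ht' : t' < P.T) (hx : x < B) (hx' : x' < B)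
    (h : P.code B t x y = P.code B t' x' y') : t = t' ∧ x = x' ∧ y = y' := by
  refine ⟨?_, ?_, ?_⟩
  · rw [← code_mod (P := P) (B := B) (x := x) (y := y) ht, h, code_mod ht']
  · rw [← code_x (P := P) (B := B) (y := y) ht hx, h, code_x ht' hx']
  · rw [← code_y (P := P) (B := B) (y := y) ht hx, h, code_y ht' hx']

theorem lt_T_of_p {t : ℕ} (h : t < 2) : t < P.T := by
  unfold T t2 t1 tA tB; omega

theorem lt_T_of_c {c : ℕ} (h : c < 2 * P.b) : 2 + c < P.T := by
  unfold T t2 t1 tA tB; omega

theorem lt_T_of_B {i : ℕ} (h : i < P.a) : P.tB + i < P.T := by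
  unfold T t2 t1 tA; omega

theorem lt_T_of_A {j : ℕ} (h : j < P.A) : P.tA + j < P.T := by
  unfold T t2 t1; omega

theorem mul_add_lt {a b c d : ℕ} (h : a < b) (h' : c < d) : a * d + c < b * d := by
  calc a * d + c < a * d + d := by omega
    _ = (a + 1) * d := by ring
    _ ≤ b * d := Nat.mul_le_mul_right _ h

theorem lt_t2_of_C {h c : ℕ} (hh : h < 2 * P.b) (hc : c < P.C) :
    P.t1 + (h * P.C + c) < P.t2 := by
  unfold t2
  have := mul_add_lt hh hc
  omega

theorem lt_T_of_C {h c : ℕ} (hh : h < 2 * P.b) (hc : c < P.C) :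
    P.t1 + (h * P.C + c) < P.T := by
  have := lt_t2_of_C hh hc
  unfold T
  omega

theorem lt_T_of_D {i c : ℕ} (hh : i < 2) (hc : c < P.C) :
    P.t2 + (i * P.C + c) < P.T := by
  unfold T
  have := mul_add_lt hh hc
  omega

variable (P)

/-- The list of the copies of the edge `e`. -/
def copies (B e : ℕ) : List ℕ := (List.range (2 * P.b)).map fun c => P.code B (2 + c) e 0

/-- The list of all tax nodes. -/
def taxes (B : ℕ) : List ℕ :=
  (List.range 2).flatMap fun i => (List.range B).flatMap fun y => (List.range B).map fun x =>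
    P.code B i x y

/-- The hyperedges of kind A, given as (common nodes, private node, color). -/
def edgesA (B k : ℕ) : List (List ℕ × ℕ × ℕ) :=
  (List.range P.A).flatMap fun j => (List.range (k + 1)).map fun l =>
    (P.taxes B, P.code B (P.tA + j) l 0, 1)

/-- The hyperedges of kind B. -/
def edgesB (B : ℕ) (L : List (List ℕ × ℕ)) : List (List ℕ × ℕ × ℕ) :=
  (List.range P.a).flatMap fun i => L.map fun z =>
    (z.1.flatMap (P.copies B), P.code B (P.tB + i) z.2 0, 1)

/-- The hyperedges of kind C for one incidence. -/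
def gadget (B M e j : ℕ) : List (List ℕ × ℕ × ℕ) :=
  (List.range (2 * P.b)).flatMap fun h => (List.range P.C).flatMap fun c =>
    (List.range M).map fun l =>
      ([P.code B (2 + h) e 0], P.code B (P.t1 + (h * P.C + c)) j l, 0)

/-- The hyperedges of kind C. -/
def edgesC (B M : ℕ) (L : List (ℕ × ℕ)) : List (List ℕ × ℕ × ℕ) :=
  L.flatMap fun z => P.gadget B M z.1 z.2

/-- The hyperedges of kind D. -/
def edgesD (B M t : ℕ) : List (List ℕ × ℕ × ℕ) :=
  (List.range 2).flatMap fun i => (List.range P.C).flatMap fun c =>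
    (List.range t).flatMap fun j => (List.range M).map fun l =>
      ([P.code B i j 0], P.code B (P.t2 + (i * P.C + c)) j l, 0)

/-- All hyperedges; `Ls` lists the edges at the vertices. -/
def allEdges (B k t : ℕ) (Ls : List (List ℕ)) : List (List ℕ × ℕ × ℕ) :=
  P.edgesA B k ++ (P.edgesB B Ls.zipIdx ++
    (P.edgesC B (Ls.length + k + 1) Ls.flatten.zipIdx ++ P.edgesD B (Ls.length + k + 1) t))

/-- The hyperedge that is described by a triple. -/
def edgeOf (z : List ℕ × ℕ × ℕ) : List ℕ × ℕ := (z.1 ++ [z.2.1], z.2.2)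

variable {P}

/-! ### Types -/

section types

variable {B k t : ℕ} {Ls : List (List ℕ)}

/-- A node of a type less than `a`. -/
def IsNode (P : Par) (B a b v : ℕ) : Prop :=
  ∃ t x y, a ≤ t ∧ t < b ∧ x < B ∧ y < B ∧ v = P.code B t x y

theorem IsNode.mono {a b a' b' v : ℕ} (h : IsNode P B a b v) (ha : a' ≤ a) (hb : b ≤ b') :
    IsNode P B a' b' v := by
  obtain ⟨t, x, y, h1, h2, h3, h4, h5⟩ := h
  exact ⟨t, x, y, by omega, by omega, h3, h4, h5⟩

theorem IsNode.mod {a b v : ℕ} (h : IsNode P B a b v) (hb : b ≤ P.T) : a ≤ v % P.T ∧ v % P.T < b := by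
  obtain ⟨t, x, y, h1, h2, h3, h4, rfl⟩ := h
  rw [code_mod (by omega)]
  exact ⟨h1, h2⟩

theorem IsNode.lt {a b v : ℕ} (h : IsNode P B a b v) (hb : b ≤ P.T) : v < P.T * (B * B) := by
  obtain ⟨t, x, y, h1, h2, h3, h4, rfl⟩ := h
  exact code_lt (by omega) h3 h4

theorem isNode_taxes {v : ℕ} (hv : v ∈ P.taxes B) : IsNode P B 0 2 v := by
  unfold taxes at hv
  simp only [List.mem_flatMap, List.mem_map, List.mem_range] at hv
  obtain ⟨i, hi, y, hy, x, hx, rfl⟩ := hv
  exact ⟨i, x, y, Nat.zero_le _, hi, hx, hy, rfl⟩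

theorem isNode_copies {e v : ℕ} (he : e < B) (hv : v ∈ P.copies B e) : IsNode P B 2 P.tB v := by
  unfold copies at hv
  simp only [List.mem_map, List.mem_range] at hv
  obtain ⟨c, hc, rfl⟩ := hv
  exact ⟨2 + c, e, 0, by omega, by unfold tB; omega, he, by omega, rfl⟩

/-- The list of the edges at the vertices is well-formed and the bound `B` is large enough. -/
structure Good (B k t : ℕ) (Ls : List (List ℕ)) : Prop where
  nodup : ∀ L ∈ Ls, L.Nodup
  lt : ∀ L ∈ Ls, ∀ e ∈ L, e < B
  len : Ls.length + k + 1 ≤ B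
  cnt : t ≤ B
  tot : Ls.flatten.length ≤ B

theorem mem_zipIdx_lt {α : Type} {l : List α} {z : α × ℕ} (h : z ∈ l.zipIdx) :
    z.1 ∈ l ∧ z.2 < l.length := by
  obtain ⟨a, i⟩ := z
  have := List.mem_zipIdx' h
  refine ⟨?_, this.1⟩
  simp only
  rw [this.2]
  exact List.getElem_mem _

theorem types_A (h : Good B k t Ls) {z : List ℕ × ℕ × ℕ} (hz : z ∈ P.edgesA B k) :
    (∀ v ∈ z.1, IsNode P B 0 P.tB v) ∧ IsNode P B P.tA P.t1 z.2.1 ∧ z.2.2 = 1 := by
  unfold edgesA at hz
  simp only [List.mem_flatMap, List.mem_map, List.mem_range] at hz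
  obtain ⟨j, hj, l, hl, rfl⟩ := hz
  have := h.len
  refine ⟨fun v hv => (isNode_taxes hv).mono le_rfl (by unfold tB; omega), ?_, rfl⟩
  exact ⟨P.tA + j, l, 0, by omega, by unfold t1; omega, by omega, by omega, rfl⟩

theorem types_B (h : Good B k t Ls) {z : List ℕ × ℕ × ℕ} (hz : z ∈ P.edgesB B Ls.zipIdx) :
    (∀ v ∈ z.1, IsNode P B 0 P.tB v) ∧ IsNode P B P.tB P.tA z.2.1 ∧ z.2.2 = 1 := by
  unfold edgesB at hz
  simp only [List.mem_flatMap, List.mem_map, List.mem_range] at hz
  obtain ⟨i, hi, w, hw, rfl⟩ := hz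
  obtain ⟨h1, h2⟩ := mem_zipIdx_lt hw
  have := h.len
  refine ⟨fun v hv => ?_, ?_, rfl⟩
  · simp only [List.mem_flatMap] at hv
    obtain ⟨e, he, hv⟩ := hv
    exact (isNode_copies (h.lt _ h1 e he) hv).mono (by omega) le_rfl
  · exact ⟨P.tB + i, w.2, 0, by omega, by unfold tA; omega, by omega, by omega, rfl⟩

theorem types_C (h : Good B k t Ls) {z : List ℕ × ℕ × ℕ}
    (hz : z ∈ P.edgesC B (Ls.length + k + 1) Ls.flatten.zipIdx) :
    (∀ v ∈ z.1, IsNode P B 0 P.tB v) ∧ IsNode P B P.t1 P.t2 z.2.1 ∧ z.2.2 = 0 := by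
  unfold edgesC gadget at hz
  simp only [List.mem_flatMap, List.mem_map, List.mem_range] at hz
  obtain ⟨w, hw, g, hg, c, hc, l, hl, rfl⟩ := hz
  obtain ⟨h1, h2⟩ := mem_zipIdx_lt hw
  have h3 := h.len
  have h4 := h.tot
  have h5 : w.1 < B := by
    rw [List.mem_flatten] at h1
    obtain ⟨L, hL, hw⟩ := h1
    exact h.lt L hL _ hw
  refine ⟨fun v hv => ?_, ?_, rfl⟩
  · simp only [List.mem_singleton] at hv
    subst hv
    exact ⟨2 + g, w.1, 0, by omega, by unfold tB; omega, h5, by omega, rfl⟩
  · exact ⟨_, _, _, by omega, lt_t2_of_C hg hc, by omega, by omega, rfl⟩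

theorem types_D (h : Good B k t Ls) {z : List ℕ × ℕ × ℕ}
    (hz : z ∈ P.edgesD B (Ls.length + k + 1) t) :
    (∀ v ∈ z.1, IsNode P B 0 P.tB v) ∧ IsNode P B P.t2 P.T z.2.1 ∧ z.2.2 = 0 := by
  unfold edgesD at hz
  simp only [List.mem_flatMap, List.mem_map, List.mem_range] at hz
  obtain ⟨i, hi, c, hc, j, hj, l, hl, rfl⟩ := hz
  have h3 := h.len
  have h4 := h.cnt
  refine ⟨fun v hv => ?_, ?_, rfl⟩
  · simp only [List.mem_singleton] at hv
    subst hv
    exact ⟨i, j, 0, by omega, by unfold tB; omega, by omega, by omega, rfl⟩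
  · exact ⟨_, _, _, by omega, lt_T_of_D hi hc, by omega, by omega, rfl⟩

theorem types (h : Good B k t Ls) {z : List ℕ × ℕ × ℕ} (hz : z ∈ P.allEdges B k t Ls) :
    (∀ v ∈ z.1, IsNode P B 0 P.tB v) ∧ IsNode P B P.tB P.T z.2.1 ∧ z.2.2 < 2 := by
  unfold allEdges at hz
  rw [List.mem_append, List.mem_append, List.mem_append] at hz
  rcases hz with hz | hz | hz | hz
  · obtain ⟨h1, h2, h3⟩ := types_A h hz
    exact ⟨h1, h2.mono (by unfold tA; omega) (by unfold T t2; omega), by omega⟩
  · obtain ⟨h1, h2, h3⟩ := types_B h hz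
    exact ⟨h1, h2.mono le_rfl (by unfold T t2 t1; omega), by omega⟩
  · obtain ⟨h1, h2, h3⟩ := types_C h hz
    exact ⟨h1, h2.mono (by unfold t1 tA; omega) (by unfold T; omega), by omega⟩
  · obtain ⟨h1, h2, h3⟩ := types_D h hz
    exact ⟨h1, h2.mono (by unfold t2 t1 tA; omega) le_rfl, by omega⟩

/-! ### Nodup -/

theorem nodup_flatMap_of {α β γ : Type} {f : α → List β} (g : β → γ) (k : α → γ) : ∀ l : List α,
    (l.map k).Nodup → (∀ x ∈ l, (f x).Nodup) → (∀ x ∈ l, ∀ y ∈ f x, g y = k x) →
    (l.flatMap f).Nodup := by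
  intro l
  induction l with
  | nil => intro _ _ _; exact List.nodup_nil
  | cons a l ih =>
    intro h1 h2 h3
    rw [List.map_cons, List.nodup_cons] at h1
    rw [List.flatMap_cons, List.nodup_append]
    refine ⟨h2 a (by simp), ih h1.2 (fun x hx => h2 x (by simp [hx]))
      (fun x hx => h3 x (by simp [hx])), ?_⟩
    intro y hy z hz hyz
    subst hyz
    rw [List.mem_flatMap] at hz
    obtain ⟨x, hx, hz⟩ := hz
    refine h1.1 ?_
    rw [← h3 a (by simp) y hy, h3 x (by simp [hx]) y hz]
    exact List.mem_map_of_mem hx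

theorem nodup_taxes : (P.taxes B).Nodup := by
  unfold taxes
  refine nodup_flatMap_of (fun v => v % P.T) id _ (by simpa using List.nodup_range) ?_ ?_
  · intro i hi
    rw [List.mem_range] at hi
    refine nodup_flatMap_of (fun v => v / P.T / B) id _ (by simpa using List.nodup_range) ?_ ?_
    · intro y _
      refine List.Nodup.map_on ?_ List.nodup_range
      intro x hx x' hx' h
      rw [List.mem_range] at hx hx'
      exact (code_inj (lt_T_of_p hi) (lt_T_of_p hi) hx hx' h).2.1
    · intro y _ v hv
      simp only [List.mem_map, List.mem_range] at hv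
      obtain ⟨x, hx, rfl⟩ := hv
      exact code_y (lt_T_of_p hi) hx
  · intro i hi v hv
    rw [List.mem_range] at hi
    simp only [List.mem_flatMap, List.mem_map, List.mem_range] at hv
    obtain ⟨y, _, x, _, rfl⟩ := hv
    exact code_mod (lt_T_of_p hi)

theorem nodup_copies {L : List ℕ} (hL : L.Nodup) (hB : ∀ e ∈ L, e < B) :
    (L.flatMap (P.copies B)).Nodup := by
  refine nodup_flatMap_of (fun v => v / P.T % B) id _ (by simpa using hL) ?_ ?_
  · intro e he
    unfold copies
    refine List.Nodup.map_on ?_ List.nodup_range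
    intro c hc c' hc' h
    rw [List.mem_range] at hc hc'
    have := (code_inj (lt_T_of_c hc) (lt_T_of_c hc') (hB e he) (hB e he) h).1
    omega
  · intro e he v hv
    unfold copies at hv
    simp only [List.mem_map, List.mem_range] at hv
    obtain ⟨c, hc, rfl⟩ := hv
    exact code_x (lt_T_of_c hc) (hB e he)

theorem nodup_common (h : Good B k t Ls) {z : List ℕ × ℕ × ℕ} (hz : z ∈ P.allEdges B k t Ls) :
    z.1.Nodup := by
  unfold allEdges at hz
  rw [List.mem_append, List.mem_append, List.mem_append] at hz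
  rcases hz with hz | hz | hz | hz
  · unfold edgesA at hz
    simp only [List.mem_flatMap, List.mem_map, List.mem_range] at hz
    obtain ⟨j, hj, l, hl, rfl⟩ := hz
    exact nodup_taxes
  · unfold edgesB at hz
    simp only [List.mem_flatMap, List.mem_map, List.mem_range] at hz
    obtain ⟨i, hi, w, hw, rfl⟩ := hz
    obtain ⟨h1, h2⟩ := mem_zipIdx_lt hw
    exact nodup_copies (h.nodup _ h1) (h.lt _ h1)
  · unfold edgesC gadget at hz
    simp only [List.mem_flatMap, List.mem_map, List.mem_range] at hz
    obtain ⟨w, hw, g, hg, c, hc, l, hl, rfl⟩ := hz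
    exact List.nodup_singleton _
  · unfold edgesD at hz
    simp only [List.mem_flatMap, List.mem_map, List.mem_range] at hz
    obtain ⟨i, hi, c, hc, j, hj, l, hl, rfl⟩ := hz
    exact List.nodup_singleton _

theorem nodup_privA (h : Good B k t Ls) : ((P.edgesA B k).map fun z => z.2.1).Nodup := by
  have := h.len
  unfold edgesA
  rw [List.map_flatMap]
  refine nodup_flatMap_of (fun v => v % P.T) (fun j => P.tA + j) _ ?_ ?_ ?_
  · exact List.Nodup.map (fun a b h => by omega) List.nodup_range
  · intro j hj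
    rw [List.mem_range] at hj
    rw [List.map_map]
    refine List.Nodup.map_on ?_ List.nodup_range
    intro x hx x' hx' h
    rw [List.mem_range] at hx hx'
    exact (code_inj (lt_T_of_A hj) (lt_T_of_A hj) (by omega) (by omega) h).2.1
  · intro j hj v hv
    rw [List.mem_range] at hj
    simp only [List.mem_map] at hv
    obtain ⟨_, ⟨x, _, rfl⟩, rfl⟩ := hv
    exact code_mod (lt_T_of_A hj)

theorem nodup_zipIdx_snd {α : Type} (l : List α) : (l.zipIdx.map Prod.snd).Nodup := by
  rw [List.zipIdx_map_snd]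
  exact List.nodup_range'

theorem nodup_privB (h : Good B k t Ls) : ((P.edgesB B Ls.zipIdx).map fun z => z.2.1).Nodup := by
  unfold edgesB
  rw [List.map_flatMap]
  refine nodup_flatMap_of (fun v => v % P.T) (fun j => P.tB + j) _ ?_ ?_ ?_
  · exact List.Nodup.map (fun a b h => by omega) List.nodup_range
  · intro j hj
    rw [List.mem_range] at hj
    rw [List.map_map]
    have e : ((fun z : List ℕ × ℕ × ℕ => z.2.1) ∘ fun z : List ℕ × ℕ =>
        (z.1.flatMap (P.copies B), P.code B (P.tB + j) z.2 0, 1)) =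
        (fun v => P.code B (P.tB + j) v 0) ∘ Prod.snd := rfl
    rw [e, ← List.map_map]
    refine List.Nodup.map_on ?_ (nodup_zipIdx_snd _)
    intro x hx x' hx' hh
    simp only [List.mem_map] at hx hx'
    obtain ⟨z, hz, rfl⟩ := hx
    obtain ⟨z', hz', rfl⟩ := hx'
    have h1 := (mem_zipIdx_lt hz).2
    have h2 := (mem_zipIdx_lt hz').2
    have h3 := h.len
    exact (code_inj (lt_T_of_B hj) (lt_T_of_B hj) (by omega) (by omega) hh).2.1
  · intro j hj v hv
    rw [List.mem_range] at hj
    simp only [List.mem_map] at hv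
    obtain ⟨_, ⟨x, _, rfl⟩, rfl⟩ := hv
    exact code_mod (lt_T_of_B hj)

theorem C_pos : 0 < P.C := by unfold C; omega

theorem sub_mod {c g s : ℕ} (hc : c < P.C) : (s + (g * P.C + c) - s) % P.C = c := by
  rw [Nat.add_sub_cancel_left, Nat.mul_comm, Nat.mul_add_mod, Nat.mod_eq_of_lt hc]

theorem sub_div {c g s : ℕ} (hc : c < P.C) : (s + (g * P.C + c) - s) / P.C = g := by
  rw [Nat.add_sub_cancel_left, Nat.mul_comm, Nat.mul_add_div C_pos, Nat.div_eq_of_lt hc,
    Nat.add_zero]

theorem nodup_privC (h : Good B k t Ls) (M : ℕ) :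
    ((P.edgesC B M Ls.flatten.zipIdx).map fun z => z.2.1).Nodup := by
  unfold edgesC
  rw [List.map_flatMap]
  have hk : ∀ z ∈ Ls.flatten.zipIdx, z.2 < B := fun z hz => by
    have := (mem_zipIdx_lt hz).2
    have := h.tot
    omega
  refine nodup_flatMap_of (fun v => v / P.T % B) Prod.snd _ (nodup_zipIdx_snd _) ?_ ?_
  · intro z hz
    unfold gadget
    rw [List.map_flatMap]
    refine nodup_flatMap_of (fun v => (v % P.T - P.t1) / P.C) id _ (by simpa using List.nodup_range)
      ?_ ?_
    · intro g hg
      rw [List.mem_range] at hg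
      rw [List.map_flatMap]
      refine nodup_flatMap_of (fun v => (v % P.T - P.t1) % P.C) id _
        (by simpa using List.nodup_range) ?_ ?_
      · intro c hc
        rw [List.mem_range] at hc
        rw [List.map_map]
        refine List.Nodup.map_on ?_ List.nodup_range
        intro x hx x' hx' hh
        exact (code_inj (lt_T_of_C hg hc) (lt_T_of_C hg hc) (hk z hz) (hk z hz) hh).2.2
      · intro c hc v hv
        rw [List.mem_range] at hc
        simp only [List.mem_map] at hv
        obtain ⟨_, ⟨x, _, rfl⟩, rfl⟩ := hv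
        simp only
        rw [code_mod (lt_T_of_C hg hc)]
        exact sub_mod hc
    · intro g hg v hv
      rw [List.mem_range] at hg
      simp only [List.mem_map, List.mem_flatMap, List.mem_range] at hv
      obtain ⟨_, ⟨c, hc, x, _, rfl⟩, rfl⟩ := hv
      simp only
      rw [code_mod (lt_T_of_C hg hc)]
      exact sub_div hc
  · intro z hz v hv
    unfold gadget at hv
    simp only [List.mem_map, List.mem_flatMap, List.mem_range] at hv
    obtain ⟨_, ⟨g, hg, c, hc, x, _, rfl⟩, rfl⟩ := hv
    exact code_x (lt_T_of_C hg hc) (hk z hz)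

theorem nodup_privD (h : Good B k t Ls) (M : ℕ) : ((P.edgesD B M t).map fun z => z.2.1).Nodup := by
  unfold edgesD
  rw [List.map_flatMap]
  have hB := h.cnt
  refine nodup_flatMap_of (fun v => (v % P.T - P.t2) / P.C) id _ (by simpa using List.nodup_range)
    ?_ ?_
  · intro i hi
    rw [List.mem_range] at hi
    rw [List.map_flatMap]
    refine nodup_flatMap_of (fun v => (v % P.T - P.t2) % P.C) id _
      (by simpa using List.nodup_range) ?_ ?_
    · intro c hc
      rw [List.mem_range] at hc
      rw [List.map_flatMap]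
      refine nodup_flatMap_of (fun v => v / P.T % B) id _ (by simpa using List.nodup_range) ?_ ?_
      · intro j hj
        rw [List.mem_range] at hj
        rw [List.map_map]
        refine List.Nodup.map_on ?_ List.nodup_range
        intro x hx x' hx' hh
        exact (code_inj (lt_T_of_D hi hc) (lt_T_of_D hi hc) (by omega) (by omega) hh).2.2
      · intro j hj v hv
        rw [List.mem_range] at hj
        simp only [List.mem_map] at hv
        obtain ⟨_, ⟨x, _, rfl⟩, rfl⟩ := hv
        exact code_x (lt_T_of_D hi hc) (by omega)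
    · intro c hc v hv
      rw [List.mem_range] at hc
      simp only [List.mem_map, List.mem_flatMap] at hv
      obtain ⟨_, ⟨j, _, x, _, rfl⟩, rfl⟩ := hv
      simp only
      rw [code_mod (lt_T_of_D hi hc)]
      exact sub_mod hc
  · intro i hi v hv
    rw [List.mem_range] at hi
    simp only [List.mem_map, List.mem_flatMap, List.mem_range] at hv
    obtain ⟨_, ⟨c, hc, j, _, x, _, rfl⟩, rfl⟩ := hv
    simp only
    rw [code_mod (lt_T_of_D hi hc)]
    exact sub_div hc

theorem nodup_append_of {α : Type} {l l' : List (List ℕ × ℕ × ℕ)} (f : ℕ → α)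
    (Q : α → Prop) (h1 : (l.map fun z => z.2.1).Nodup) (h2 : (l'.map fun z => z.2.1).Nodup)
    (h3 : ∀ z ∈ l, Q (f z.2.1)) (h4 : ∀ z ∈ l', ¬ Q (f z.2.1)) :
    ((l ++ l').map fun z => z.2.1).Nodup := by
  rw [List.map_append, List.nodup_append]
  refine ⟨h1, h2, ?_⟩
  intro v hv w hw hvw
  subst hvw
  simp only [List.mem_map] at hv hw
  obtain ⟨z, hz, rfl⟩ := hv
  obtain ⟨z', hz', hzz⟩ := hw
  have := h4 z' hz'
  rw [hzz] at this
  exact this (h3 z hz)

theorem nodup_priv (h : Good B k t Ls) : ((P.allEdges B k t Ls).map fun z => z.2.1).Nodup := by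
  have e1 : P.tA ≤ P.t1 := by unfold t1; omega
  have e2 : P.t1 ≤ P.t2 := by unfold t2; omega
  have e3 : P.t2 ≤ P.T := by unfold T; omega
  unfold allEdges
  refine nodup_append_of (fun v => v % P.T) (fun r => P.tA ≤ r ∧ r < P.t1) (nodup_privA h) ?_
    (fun z hz => (types_A h hz).2.1.mod (by omega)) ?_
  · refine nodup_append_of (fun v => v % P.T) (fun r => r < P.tA) (nodup_privB h) ?_
      (fun z hz => ((types_B h hz).2.1.mod (by omega)).2) ?_
    · refine nodup_append_of (fun v => v % P.T) (fun r => r < P.t2) (nodup_privC h _)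
        (nodup_privD h _) (fun z hz => ((types_C h hz).2.1.mod (by omega)).2) ?_
      intro z hz
      have := (types_D h hz).2.1.mod le_rfl
      omega
    · intro z hz
      rcases List.mem_append.1 hz with hz | hz
      · have := (types_C h hz).2.1.mod (by omega)
        omega
      · have := (types_D h hz).2.1.mod le_rfl
        omega
  · intro z hz
    rcases List.mem_append.1 hz with hz | hz
    · have := (types_B h hz).2.1.mod (by omega)
      omega
    · rcases List.mem_append.1 hz with hz | hz
      · have := (types_C h hz).2.1.mod (by omega)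
        omega
      · have := (types_D h hz).2.1.mod le_rfl
        omega

theorem filter_toFinset (h : Good B k t Ls) {z : List ℕ × ℕ × ℕ} (hz : z ∈ P.allEdges B k t Ls) :
    (edgeOf z).1.toFinset.filter (fun v => P.tB ≤ v % P.T) = {z.2.1} := by
  obtain ⟨h1, h2, -⟩ := types h hz
  ext v
  unfold edgeOf
  simp only [Finset.mem_filter, List.mem_toFinset, List.mem_append, List.mem_singleton,
    Finset.mem_singleton]
  constructor
  · rintro ⟨hv | hv, h3⟩
    · have := ((h1 v hv).mod (by unfold T t2 t1 tA; omega)).2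
      omega
    · exact hv
  · rintro rfl
    exact ⟨Or.inr rfl, (h2.mod le_rfl).1⟩

theorem distinct (h : Good B k t Ls) :
    (((P.allEdges B k t Ls).map edgeOf).map fun e => e.1.toFinset).Nodup := by
  refine List.Nodup.of_map (fun F => F.filter fun v => P.tB ≤ v % P.T) ?_
  have e : (((P.allEdges B k t Ls).map edgeOf).map fun e => e.1.toFinset).map
      (fun F => F.filter fun v => P.tB ≤ v % P.T) =
      ((P.allEdges B k t Ls).map fun z => z.2.1).map fun v => ({v} : Finset ℕ) := by
    rw [List.map_map, List.map_map, List.map_map]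
    refine List.map_congr_left fun z hz => ?_
    exact filter_toFinset h hz
  rw [e]
  exact (nodup_priv h).map fun a b hab => Finset.singleton_inj.1 hab

end types

end Par

end Pool.Agent.Lib.MP_dc7e63_lc
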