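import Pool.Agent.Lib.MP_dc7e63_lc.Prog

/-!
# The program that prints the instance, the end
-/

namespace Pool.Agent.Lib.MP_dc7e63_lc

open Function Pool.Agent.Lib.MP_c85d9c_lc Cmd

/-- The states of the first part of the program. -/
def cnt (b m k x q t y f g : ℕ) : Rg → ℕ
  | .M => m
  | .K => k
  | .B => b
  | .B1 => b
  | .B2 => b
  | .X => x
  | .Y => y
  | .F => f
  | .G => g
  | .Q => q
  | .T => t
  | _ => 0

/-- Adds `c` to the counter `r`. -/
def incN (c : ℕ) (r : Rg) : Prog := seqs (List.replicate c (.inc r))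

/-- The first steps. -/
def initP : Prog := .seq (.inc .M) (.seq (.inc .B) (.seq (.inc .B1) (.seq (.inc .B2) (.inc .Q))))

/-- One step of the pass that counts the vertices and incidences. -/
def countB (p : ℕ) (a : Sym) : Prog :=
  .seq (incN (p + 1) .B) (.seq (incN (p + 1) .B1) (.seq (incN (p + 1) .B2) (match a with
    | .one => .skip
    | .comma => .seq (.inc .K) (incN p .T)
    | .semi => .seq (incN (p + 1) .M) (.seq (incN p .X) (incN p .Q))
    | .size => .seq (.inc .M) (.seq (.inc .X) (.inc .Q))
    | .count => .inc .T)))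

/-- Subtracts 1 from the counter `X`. -/
def predP : Prog :=
  .seq (.each (some .X) fun _ => .seq (.each (some .F) fun _ => .inc .Y) (.seq (.clr .F) (.inc .F)))
    (.seq (.clr .F) (.seq (.clr .X) (.seq (.each (some .Y) fun _ => .inc .X) (.clr .Y))))

/-- Sets the counter `G` to `1` if the counter `X` is positive. -/
def bigP : Prog :=
  .seq (.each (some .X) fun _ => .seq (.clr .G) (.inc .G)) (.clr .X)

/-- Prints the header of the instance. -/
def headP (P : Par) : Prog :=
  .seq (ones2P P.T .B1 .B2) (.seq (.out .comma) (.seq (outs (num 2)) (.seq (ones2P P.b .G .K)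
    (.seq (.out .comma) (.out .semi)))))

/-- The last steps. -/
def clearP : Prog :=
  .seq (.clr .M) (.seq (.clr .K) (.seq (.clr .B) (.seq (.clr .B1) (.seq (.clr .B2) (.seq (.clr .G)
    (.seq (.clr .Q) (.clr .T)))))))

/-- The whole program. -/
def prog (P : Par) : Prog :=
  .seq initP (.seq (.each none (countB P.p)) (.seq (seqs ((List.range' 0 (2 * P.a - 1)).map
    fun _ => predP)) (.seq bigP (.seq (headP P) (.seq (progA P) (.seq (progB P) (.seq (progC P)
    (.seq (progD P) clearP))))))))

section

variable {N : ℕ} {inp : List Sym}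

theorem spec_init : SB N inp initP (fun _ => 0) (cnt 1 1 0 0 1 0 0 0 0) [] := by
  refine (SB.seq (SB.inc _) (SB.seq (SB.inc _) (SB.seq (SB.inc _) (SB.seq (SB.inc _)
    (SB.inc _))))).cast ?_ rfl
  funext r; cases r <;> rfl

theorem SB.incN {c : ℕ} {r : Rg} : ∀ {ρ : Rg → ℕ},
    SB N inp (incN c r) ρ (update ρ r (ρ r + c)) [] := by
  induction c with
  | zero =>
    intro ρ
    refine SB.skip.cast ?_ rfl
    rw [Nat.add_zero, update_eq_self]
  | succ c ih =>
    intro ρ
    unfold MP_dc7e63_lc.incN
    rw [List.replicate_succ, seqs_cons]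
    refine (SB.seq (SB.inc r) ih).cast ?_ rfl
    rw [update_self, update_idem]
    congr 1
    ring

theorem spec_count (p : ℕ) : ∀ (l : List Sym) (b m k x q t : ℕ),
    SBL N inp (countB p) l (cnt b m k x q t 0 0 0)
      (cnt (b + (p + 1) * l.length) (m + (l.count .size + (p + 1) * l.count .semi))
        (k + l.count .comma) (x + (l.count .size + p * l.count .semi))
        (q + (l.count .size + p * l.count .semi)) (t + (l.count .count + p * l.count .comma)) 0 0 0)
      [] := by
  intro l
  induction l with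
  | nil => intro b m k x q t; exact SBL.nil
  | cons a l ih =>
    intro b m k x q t
    cases a with
    | one =>
      have h1 : SB N inp (countB p .one) (cnt b m k x q t 0 0 0)
          (cnt (b + (p + 1)) m k x q t 0 0 0) [] := by
        refine (SB.seq SB.incN (SB.seq SB.incN (SB.seq SB.incN SB.skip))).cast ?_ rfl
        funext r; cases r <;> rfl
      refine (SBL.cons h1 (ih (b + (p + 1)) m k x q t)).cast ?_ rfl
      simp only [List.length_cons, List.count_cons, beq_iff_eq, reduceCtorEq, if_false,
        Nat.add_zero]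
      congr 1
      ring
    | comma =>
      have h1 : SB N inp (countB p .comma) (cnt b m k x q t 0 0 0)
          (cnt (b + (p + 1)) m (k + 1) x q (t + p) 0 0 0) [] := by
        refine (SB.seq SB.incN (SB.seq SB.incN (SB.seq SB.incN (SB.seq (SB.inc _)
          SB.incN)))).cast ?_ rfl
        funext r; cases r <;> rfl
      refine (SBL.cons h1 (ih (b + (p + 1)) m (k + 1) x q (t + p))).cast ?_ rfl
      simp only [List.length_cons, List.count_cons, beq_iff_eq, reduceCtorEq, if_false,
        Nat.add_zero, if_true]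
      congr 1 <;> ring
    | semi =>
      have h1 : SB N inp (countB p .semi) (cnt b m k x q t 0 0 0)
          (cnt (b + (p + 1)) (m + (p + 1)) k (x + p) (q + p) t 0 0 0) [] := by
        refine (SB.seq SB.incN (SB.seq SB.incN (SB.seq SB.incN (SB.seq SB.incN
          (SB.seq SB.incN SB.incN))))).cast ?_ rfl
        funext r; cases r <;> rfl
      refine (SBL.cons h1 (ih (b + (p + 1)) (m + (p + 1)) k (x + p) (q + p) t)).cast ?_ rfl
      simp only [List.length_cons, List.count_cons, beq_iff_eq, reduceCtorEq, if_false,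
        Nat.add_zero, if_true]
      congr 1 <;> ring
    | size =>
      have h1 : SB N inp (countB p .size) (cnt b m k x q t 0 0 0)
          (cnt (b + (p + 1)) (m + 1) k (x + 1) (q + 1) t 0 0 0) [] := by
        refine (SB.seq SB.incN (SB.seq SB.incN (SB.seq SB.incN (SB.seq (SB.inc _)
          (SB.seq (SB.inc _) (SB.inc _)))))).cast ?_ rfl
        funext r; cases r <;> rfl
      refine (SBL.cons h1 (ih (b + (p + 1)) (m + 1) k (x + 1) (q + 1) t)).cast ?_ rfl
      simp only [List.length_cons, List.count_cons, beq_iff_eq, reduceCtorEq, if_false,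
        Nat.add_zero, if_true]
      congr 1 <;> ring
    | count =>
      have h1 : SB N inp (countB p .count) (cnt b m k x q t 0 0 0)
          (cnt (b + (p + 1)) m k x q (t + 1) 0 0 0) [] := by
        refine (SB.seq SB.incN (SB.seq SB.incN (SB.seq SB.incN (SB.inc _)))).cast ?_ rfl
        funext r; cases r <;> rfl
      refine (SBL.cons h1 (ih (b + (p + 1)) m k x q (t + 1))).cast ?_ rfl
      simp only [List.length_cons, List.count_cons, beq_iff_eq, reduceCtorEq, if_false,
        Nat.add_zero, if_true]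
      congr 1 <;> ring

theorem spec_pred {b m k x q t : ℕ} (hx : x ≤ N) (hN : 1 ≤ N) :
    SB N inp predP (cnt b m k x q t 0 0 0) (cnt b m k (x - 1) q t 0 0 0) [] := by
  have h1 := SB.for (N := N) (inp := inp) (r := Rg.X)
    (f := fun _ => .seq (.each (some .F) fun _ => .inc .Y) (.seq (.clr .F) (.inc .F)))
    (σ := fun i => cnt b m k x q t (i - 1) (min i 1) 0) (w := fun _ => []) (n := x) rfl hx
    (fun i hi => by
      have h2 := SB.for (N := N) (inp := inp) (r := Rg.F) (f := fun _ => .inc .Y)
        (σ := fun j => cnt b m k x q t (i - 1 + j) (min i 1) 0) (w := fun _ => [])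
        (n := min i 1) rfl (by omega) (fun j hj => by
          refine (SB.inc _).cast ?_ rfl
          funext r; cases r <;> rfl)
      have h3 := SB.clr (N := N) (inp := inp)
        (ρ := cnt b m k x q t (i - 1 + min i 1) (min i 1) 0) Rg.F (show min i 1 ≤ N by omega)
      refine (SB.seq h2 (SB.seq h3 (SB.inc _))).cast ?_ (by simp)
      have e1 : i - 1 + min i 1 = i := by omega
      have e2 : min (i + 1) 1 = 1 := by omega
      rw [e1, e2, Nat.add_sub_cancel]
      funext r; cases r <;> rfl)
  have h4 := SB.clr (N := N) (inp := inp) (ρ := cnt b m k x q t (x - 1) (min x 1) 0) Rg.F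
    (show min x 1 ≤ N by omega)
  have e4 : update (cnt b m k x q t (x - 1) (min x 1) 0) Rg.F 0 =
      cnt b m k x q t (x - 1) 0 0 := by
    funext r; cases r <;> rfl
  rw [e4] at h4
  have h5 := SB.clr (N := N) (inp := inp) (ρ := cnt b m k x q t (x - 1) 0 0) Rg.X
    (show x ≤ N from hx)
  have e5 : update (cnt b m k x q t (x - 1) 0 0) Rg.X 0 = cnt b m k 0 q t (x - 1) 0 0 := by
    funext r; cases r <;> rfl
  rw [e5] at h5
  have h6 := SB.for (N := N) (inp := inp) (r := Rg.Y) (f := fun _ => .inc .X)
    (σ := fun j => cnt b m k j q t (x - 1) 0 0) (w := fun _ => []) (n := x - 1) rfl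
    (by omega) (fun j hj => by
      refine (SB.inc _).cast ?_ rfl
      funext r; cases r <;> rfl)
  have h7 := SB.clr (N := N) (inp := inp) (ρ := cnt b m k (x - 1) q t (x - 1) 0 0) Rg.Y
    (show x - 1 ≤ N by omega)
  have e7 : update (cnt b m k (x - 1) q t (x - 1) 0 0) Rg.Y 0 =
      cnt b m k (x - 1) q t 0 0 0 := by
    funext r; cases r <;> rfl
  rw [e7] at h7
  refine (SB.seq h1 (SB.seq h4 (SB.seq h5 (SB.seq h6 h7)))).cast rfl (by simp)

theorem spec_preds {b m k x q t c : ℕ} (hx : x ≤ N) (hN : 1 ≤ N) :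
    SB N inp (seqs ((List.range' 0 c).map fun _ => predP)) (cnt b m k x q t 0 0 0)
      (cnt b m k (x - c) q t 0 0 0) [] := by
  have := SB.seqs' (N := N) (inp := inp) (c := fun _ => predP)
    (σ := fun i => cnt b m k (x - i) q t 0 0 0) (w := fun _ => []) c 0 (fun i _ _ => by
      refine (spec_pred (by omega) hN).cast ?_ rfl
      rw [Nat.sub_sub])
  refine this.cast (by simp) (by simp)

theorem spec_big {b m k x q t : ℕ} (hx : x ≤ N) (hN : 1 ≤ N) :
    SB N inp bigP (cnt b m k x q t 0 0 0) (cnt b m k 0 q t 0 0 (min x 1)) [] := by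
  have h1 := SB.for (N := N) (inp := inp) (r := Rg.X)
    (f := fun _ => .seq (.clr .G) (.inc .G))
    (σ := fun i => cnt b m k x q t 0 0 (min i 1)) (w := fun _ => []) (n := x) rfl hx
    (fun i hi => by
      have h3 := SB.clr (N := N) (inp := inp)
        (ρ := cnt b m k x q t 0 0 (min i 1)) Rg.G (show min i 1 ≤ N by omega)
      refine (SB.seq h3 (SB.inc _)).cast ?_ rfl
      have e2 : min (i + 1) 1 = 1 := by omega
      rw [e2]
      funext r; cases r <;> rfl)
  have h5 := SB.clr (N := N) (inp := inp) (ρ := cnt b m k x q t 0 0 (min x 1)) Rg.X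
    (show x ≤ N from hx)
  refine (SB.seq h1 h5).cast ?_ (by simp)
  funext r; cases r <;> rfl

theorem spec_head {P : Par} {m k b g q t : ℕ} (hb : b ≤ N) (hg : g ≤ N) (hk : k ≤ N) :
    SB N inp (headP P) (base m k b g q t) (base m k b g q t)
      (num (P.T * (b * b)) ++ (num 2 ++ (num (g * (k * P.b)) ++ [Sym.semi]))) := by
  refine (SB.seq (SB.ones2 (ρ := base m k b g q t) (show b ≤ N from hb) (show b ≤ N from hb))
    (SB.seq (SB.out _) (SB.seq (SB.outs _) (SB.seq (SB.ones2 (ρ := base m k b g q t)
      (show g ≤ N from hg) (show k ≤ N from hk)) (SB.seq (SB.out _) (SB.out _)))))).cast rfl ?_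
  have e : (base m k b g q t) Rg.B1 * ((base m k b g q t) Rg.B2 * P.T) = P.T * (b * b) := by
    show b * (b * P.T) = _
    ring
  rw [e]
  unfold num
  simp only [List.append_assoc]
  rfl

theorem spec_clear {m k b g q t : ℕ} (hm : m ≤ N) (hb : b ≤ N) (hg : g ≤ N) (hk : k ≤ N)
    (hq : q ≤ N) (ht : t ≤ N) :
    SB N inp clearP (base m k b g q t) (fun _ => 0) [] := by
  set ρ := base m k b g q t with hρ
  have h1 := SB.clr (N := N) (inp := inp) (ρ := ρ) Rg.M (show m ≤ N from hm)
  have h2 := SB.clr (N := N) (inp := inp) (ρ := update ρ Rg.M 0) Rg.K (show k ≤ N from hk)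
  have h3 := SB.clr (N := N) (inp := inp) (ρ := update (update ρ Rg.M 0) Rg.K 0) Rg.B
    (show b ≤ N from hb)
  have h4 := SB.clr (N := N) (inp := inp)
    (ρ := update (update (update ρ Rg.M 0) Rg.K 0) Rg.B 0) Rg.B1 (show b ≤ N from hb)
  have h5 := SB.clr (N := N) (inp := inp)
    (ρ := update (update (update (update ρ Rg.M 0) Rg.K 0) Rg.B 0) Rg.B1 0) Rg.B2
    (show b ≤ N from hb)
  have h6 := SB.clr (N := N) (inp := inp)
    (ρ := update (update (update (update (update ρ Rg.M 0) Rg.K 0) Rg.B 0) Rg.B1 0)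
      Rg.B2 0) Rg.G (show g ≤ N from hg)
  have h7 := SB.clr (N := N) (inp := inp)
    (ρ := update (update (update (update (update (update ρ Rg.M 0) Rg.K 0) Rg.B 0) Rg.B1 0)
      Rg.B2 0) Rg.G 0) Rg.Q (show q ≤ N from hq)
  have h8 := SB.clr (N := N) (inp := inp)
    (ρ := update (update (update (update (update (update (update ρ Rg.M 0) Rg.K 0) Rg.B 0) Rg.B1 0)
      Rg.B2 0) Rg.G 0) Rg.Q 0) Rg.T (show t ≤ N from ht)
  refine (SB.seq h1 (SB.seq h2 (SB.seq h3 (SB.seq h4 (SB.seq h5 (SB.seq h6
    (SB.seq h7 h8))))))).cast ?_ rfl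
  funext r; cases r <;> rfl

end

theorem count_num (e : ℕ) : (num e).count .semi = 0 ∧ (num e).count .comma = 1 ∧
    (num e).count .size = 0 ∧ (num e).count .count = 0 := by
  unfold num
  simp [List.count_append, List.count_replicate]

theorem count_nums (L : List ℕ) : (L.flatMap num).count .semi = 0 ∧
    (L.flatMap num).count .comma = L.length ∧ (L.flatMap num).count .size = 0 ∧
    (L.flatMap num).count .count = 0 := by
  induction L with
  | nil => simp
  | cons e L ih =>
    obtain ⟨h1, h2, h3, h4⟩ := count_num e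
    rw [List.flatMap_cons, List.count_append, List.count_append, List.count_append,
      List.count_append, ih.1, ih.2.1, ih.2.2.1, ih.2.2.2, h1, h2, h3, h4, List.length_cons]
    omega

theorem count_word (Ls : List (List ℕ)) : (word Ls).count .semi = Ls.length ∧
    (word Ls).count .comma = Ls.flatten.length ∧ (word Ls).count .size = 0 ∧
    (word Ls).count .count = 0 := by
  induction Ls with
  | nil => simp [word]
  | cons L Ls ih =>
    obtain ⟨h1, h2, h3, h4⟩ := count_nums L
    rw [word_cons, List.count_append, List.count_append, List.count_append, List.count_append,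
      List.count_append, List.count_append, List.count_append, List.count_append,
      ih.1, ih.2.1, ih.2.2.1, ih.2.2.2, h1, h2, h3, h4, List.length_cons, List.flatten_cons,
      List.length_append]
    have e1 : List.count Sym.semi [Sym.semi] = 1 := rfl
    have e2 : List.count Sym.comma [Sym.semi] = 0 := rfl
    have e3 : List.count Sym.size [Sym.semi] = 0 := rfl
    have e4 : List.count Sym.count [Sym.semi] = 0 := rfl
    omega

theorem count_query (z : Query) : z.encode.count .semi = z.1.n ∧
    z.encode.count .comma = z.1.K ∧ z.encode.count .size = z.2.1 ∧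
    z.encode.count .count = z.2.2 := by
  obtain ⟨h1, h2, h3, h4⟩ := count_word z.1.lists
  rw [z.1.length_lists] at h1
  unfold Query.encode
  rw [z.1.encode_eq]
  simp only [List.count_append, h1, h2, h3, h4, List.count_replicate, beq_iff_eq, reduceCtorEq,
    if_false, if_true]
  unfold Graph.K
  omega

/-- The bound for the counters. -/
noncomputable def bound (P : Par) : Polynomial ℕ := Polynomial.C (P.p + 1) * Polynomial.X + 2

theorem spec_prog (P : Par) (z : Query) :
    SB ((bound P).eval z.encode.length) z.encode (prog P) (fun _ => 0)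
      (fun _ => 0) (z.inst P).encode := by
  have hN : (bound P).eval z.encode.length = (P.p + 1) * z.encode.length + 2 := by
    simp [bound]
  rw [hN]
  set N := (P.p + 1) * z.encode.length + 2 with hNdef
  obtain ⟨c1, c2, c3, c4⟩ := count_query z
  obtain ⟨-, -, g1, g2, g3⟩ := z.good P
  rw [z.1.length_lists] at g1
  have hb : z.bnd P = (P.p + 1) * z.encode.length + 1 := rfl
  have hkk : z.kk P = z.2.1 + P.p * z.1.n := rfl
  have htt : z.tt P = z.2.2 + P.p * z.1.K := rfl
  have hK : z.1.K = z.1.lists.flatten.length := rfl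
  have hlen : z.encode.length ≤ (P.p + 1) * z.encode.length := Nat.le_mul_of_pos_left _ (by omega)
  have s1 := spec_init (N := N) (inp := z.encode)
  have s2 := SB.pass (N := N) (inp := z.encode) (by omega)
    (spec_count P.p z.encode 1 1 0 0 1 0)
  have e2 : cnt (1 + (P.p + 1) * z.encode.length)
      (1 + (z.encode.count .size + (P.p + 1) * z.encode.count .semi))
      (0 + z.encode.count .comma) (0 + (z.encode.count .size + P.p * z.encode.count .semi))
      (1 + (z.encode.count .size + P.p * z.encode.count .semi))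
      (0 + (z.encode.count .count + P.p * z.encode.count .comma)) 0 0 0 =
      cnt (z.bnd P) (z.1.n + z.kk P + 1) z.1.K (z.kk P) (z.kk P + 1) (z.tt P) 0 0 0 := by
    rw [c1, c2, c3, c4, hb, hkk, htt]
    congr 1 <;> ring
  rw [e2] at s2
  have s3 := spec_preds (N := N) (inp := z.encode) (b := z.bnd P) (m := z.1.n + z.kk P + 1)
    (k := z.1.K) (x := z.kk P) (q := z.kk P + 1) (t := z.tt P) (c := 2 * P.a - 1)
    (by omega) (by omega)
  have s4 := spec_big (N := N) (inp := z.encode) (b := z.bnd P) (m := z.1.n + z.kk P + 1)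
    (k := z.1.K) (x := z.kk P - (2 * P.a - 1)) (q := z.kk P + 1) (t := z.tt P)
    (by omega) (by omega)
  set g := min (z.kk P - (2 * P.a - 1)) 1 with hg
  have e4 : cnt (z.bnd P) (z.1.n + z.kk P + 1) z.1.K 0 (z.kk P + 1) (z.tt P) 0 0 g =
      base (z.1.n + z.kk P + 1) z.1.K (z.bnd P) g (z.kk P + 1) (z.tt P) := by
    funext r; cases r <;> rfl
  rw [e4] at s4
  have s5 := spec_head (N := N) (inp := z.encode) (P := P) (m := z.1.n + z.kk P + 1)
    (k := z.1.K) (b := z.bnd P) (g := g) (q := z.kk P + 1) (t := z.tt P)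
    (by omega) (by omega) (by omega)
  have s6 := spec_A (N := N) (inp := z.encode) (P := P) (m := z.1.n + z.kk P + 1)
    (k := z.1.K) (b := z.bnd P) (g := g) (κ := z.kk P) (t := z.tt P) (by omega) (by omega)
  have s7 := spec_B (N := N) (P := P) (m := z.1.n + z.kk P + 1) (k := z.1.K) (b := z.bnd P)
    (g := g) (q := z.kk P + 1) (t := z.tt P) (z := z) (by omega) (by omega)
  have s8 := spec_C (N := N) (P := P) (m := z.1.n + z.kk P + 1) (k := z.1.K) (b := z.bnd P)
    (g := g) (q := z.kk P + 1) (t := z.tt P) (z := z) (by omega) (by omega) (by omega)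
  have s9 := spec_D (N := N) (inp := z.encode) (P := P) (m := z.1.n + z.kk P + 1) (k := z.1.K)
    (b := z.bnd P) (g := g) (q := z.kk P + 1) (t := z.tt P) (by omega) (by omega) (by omega)
  have s10 := spec_clear (N := N) (inp := z.encode) (m := z.1.n + z.kk P + 1) (k := z.1.K)
    (b := z.bnd P) (g := g) (q := z.kk P + 1) (t := z.tt P) (by omega) (by omega) (by omega)
    (by omega) (by omega) (by omega)
  refine (s1.seq (s2.seq (s3.seq (s4.seq (s5.seq (s6.seq (s7.seq (s8.seq
    (s9.seq s10))))))))).cast rfl ?_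
  rw [encode_inst]
  have hbud : g * (z.1.K * P.b) = z.bud P := by
    have ha := P.ha
    unfold Query.bud
    split_ifs with h
    · have : g = 1 := by omega
      rw [this]; ring
    · have : g = 0 := by omega
      rw [this]; ring
  rw [hbud]
  unfold Par.allEdges
  rw [List.flatMap_append, List.flatMap_append, List.flatMap_append, z.1.length_lists]
  simp only [List.nil_append, List.append_nil, List.append_assoc]

/-! ### Well-formedness -/

section wf

theorem wf_seqs {l : List Prog} : WF (seqs l) ↔ ∀ c ∈ l, WF c := by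
  induction l with
  | nil => simp [seqs_nil, WF]
  | cons c l ih => simp [seqs_cons, WF, ih]

theorem free_seqs {l : List Prog} {k : Option Rg} : Free (seqs l) k ↔ ∀ c ∈ l, Free c k := by
  induction l with
  | nil => simp [seqs_nil, Free]
  | cons c l ih => simp [seqs_cons, Free, ih]

theorem wf_outs (l : List Sym) : WF (outs l : Prog) := by
  unfold outs
  rw [wf_seqs]
  intro c hc
  rw [List.mem_map] at hc
  obtain ⟨a, _, rfl⟩ := hc
  trivial

theorem free_outs (l : List Sym) (k : Option Rg) : Free (outs l : Prog) k := by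
  unfold outs
  rw [free_seqs]
  intro c hc
  rw [List.mem_map] at hc
  obtain ⟨a, _, rfl⟩ := hc
  trivial

theorem free_onesP (c : ℕ) (r : Rg) (k : Option Rg) : Free (onesP c r) k ↔ k ≠ some r := by
  unfold onesP
  simp [Free, free_outs]

theorem wf_onesP (c : ℕ) (r : Rg) : WF (onesP c r) := by
  unfold onesP
  intro a
  exact ⟨free_outs _ _, wf_outs _⟩

theorem free_ones2P (c : ℕ) (r r' : Rg) (k : Option Rg) :
    Free (ones2P c r r') k ↔ k ≠ some r ∧ k ≠ some r' := by
  unfold ones2P
  simp [Free, free_onesP]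

theorem wf_ones2P (c : ℕ) (r r' : Rg) (h : r ≠ r') : WF (ones2P c r r') := by
  unfold ones2P
  intro a
  exact ⟨(free_onesP _ _ _).2 (by simpa using h), wf_onesP _ _⟩

theorem free_numP (P : Par) (t : ℕ) (rx ry : Rg) (k : Option Rg) :
    Free (numP P t rx ry) k ↔ k ≠ some rx ∧ k ≠ some ry ∧ k ≠ some .B := by
  unfold numP
  simp [Free, free_outs, free_onesP, free_ones2P]

theorem wf_numP (P : Par) (t : ℕ) (rx ry : Rg) (h : ry ≠ .B) : WF (numP P t rx ry) :=
  ⟨wf_outs _, wf_onesP _ _, wf_ones2P _ _ _ h, trivial⟩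

theorem free_forR (r idx : Rg) (c : Prog) (k : Option Rg) :
    Free (forR r idx c) k ↔ k ≠ some r ∧ k ≠ some idx ∧ Free c k := by
  unfold forR
  simp only [Free]
  constructor
  · rintro ⟨⟨h1, h2⟩, h3⟩
    exact ⟨h1, h3, (h2 default).1⟩
  · rintro ⟨h1, h2, h3⟩
    exact ⟨⟨h1, fun _ => ⟨h3, h2⟩⟩, h2⟩

theorem wf_forR (r idx : Rg) (c : Prog) (h : r ≠ idx) (h1 : Free c (some r)) (h2 : WF c) :
    WF (forR r idx c) := by
  unfold forR
  exact ⟨fun _ => ⟨⟨h1, by simpa [Free] using h⟩, h2, trivial⟩, trivial⟩

theorem wf_taxP (P : Par) : WF (taxP P) := by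
  unfold taxP
  rw [wf_seqs]
  intro c hc
  rw [List.mem_map] at hc
  obtain ⟨i, _, rfl⟩ := hc
  refine wf_forR _ _ _ (by decide) ?_ (wf_forR _ _ _ (by decide) ?_ (wf_numP _ _ _ _ (by decide)))
  · rw [free_forR, free_numP]; simp
  · rw [free_numP]; simp

theorem free_taxP (P : Par) (k : Option Rg) (h : k ≠ some .B1 ∧ k ≠ some .I1 ∧ k ≠ some .B2 ∧
    k ≠ some .I2 ∧ k ≠ some .B) : Free (taxP P) k := by
  unfold taxP
  rw [free_seqs]
  intro c hc
  rw [List.mem_map] at hc
  obtain ⟨i, _, rfl⟩ := hc
  rw [free_forR, free_forR, free_numP]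
  tauto

theorem wf_progA (P : Par) : WF (progA P) := by
  unfold progA
  rw [wf_seqs]
  intro c hc
  rw [List.mem_map] at hc
  obtain ⟨j, _, rfl⟩ := hc
  refine wf_forR _ _ _ (by decide) ⟨free_taxP _ _ (by simp), ?_, free_outs _ _⟩
    ⟨wf_taxP P, wf_numP _ _ _ _ (by decide), wf_outs _⟩
  rw [free_numP]; simp

theorem wf_copP (P : Par) : WF (copP P) := by
  unfold copP
  rw [wf_seqs]
  intro c hc
  rw [List.mem_map] at hc
  obtain ⟨j, _, rfl⟩ := hc
  exact wf_numP _ _ _ _ (by decide)

theorem free_copP (P : Par) : Free (copP P) none := by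
  unfold copP
  rw [free_seqs]
  intro c hc
  rw [List.mem_map] at hc
  obtain ⟨j, _, rfl⟩ := hc
  rw [free_numP]; simp

theorem wf_progB (P : Par) : WF (progB P) := by
  unfold progB
  rw [wf_seqs]
  intro c hc
  rw [List.mem_map] at hc
  obtain ⟨i, _, rfl⟩ := hc
  refine ⟨fun a => ?_, trivial⟩
  cases a with
  | one => exact ⟨by simp [bodyB, Free], trivial⟩
  | comma => exact ⟨⟨free_copP P, by simp [Free]⟩, wf_copP P, trivial⟩
  | semi =>
    refine ⟨⟨?_, free_outs _ _, by simp [Free]⟩, wf_numP _ _ _ _ (by decide), wf_outs _, trivial⟩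
    rw [free_numP]; simp
  | size => exact ⟨trivial, trivial⟩
  | count => exact ⟨trivial, trivial⟩

theorem wf_gadP (P : Par) : WF (gadP P) := by
  unfold gadP
  rw [wf_seqs]
  intro c hc
  rw [List.mem_map] at hc
  obtain ⟨h, _, rfl⟩ := hc
  rw [wf_seqs]
  intro c hc
  rw [List.mem_map] at hc
  obtain ⟨j, _, rfl⟩ := hc
  refine wf_forR _ _ _ (by decide) ⟨?_, ?_, free_outs _ _⟩
    ⟨wf_numP _ _ _ _ (by decide), wf_numP _ _ _ _ (by decide), wf_outs _⟩
  · rw [free_numP]; simp
  · rw [free_numP]; simp

theorem free_gadP (P : Par) : Free (gadP P) none := by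
  unfold gadP
  rw [free_seqs]
  intro c hc
  rw [List.mem_map] at hc
  obtain ⟨h, _, rfl⟩ := hc
  rw [free_seqs]
  intro c hc
  rw [List.mem_map] at hc
  obtain ⟨j, _, rfl⟩ := hc
  rw [free_forR]
  refine ⟨by simp, by simp, ?_, ?_, free_outs _ _⟩
  · rw [free_numP]; simp
  · rw [free_numP]; simp

theorem wf_progC (P : Par) : WF (progC P) := by
  refine ⟨fun a => ?_, trivial⟩
  cases a with
  | one => exact ⟨by simp [bodyC, Free], trivial⟩
  | comma =>
    exact ⟨⟨free_gadP P, by simp [Free], by simp [Free]⟩, wf_gadP P, trivial, trivial⟩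
  | semi => exact ⟨trivial, trivial⟩
  | size => exact ⟨trivial, trivial⟩
  | count => exact ⟨trivial, trivial⟩

theorem wf_progD (P : Par) : WF (progD P) := by
  unfold progD
  rw [wf_seqs]
  intro c hc
  rw [List.mem_map] at hc
  obtain ⟨h, _, rfl⟩ := hc
  rw [wf_seqs]
  intro c hc
  rw [List.mem_map] at hc
  obtain ⟨j, _, rfl⟩ := hc
  refine wf_forR _ _ _ (by decide) ?_ (wf_forR _ _ _ (by decide) ⟨?_, ?_, free_outs _ _⟩
    ⟨wf_numP _ _ _ _ (by decide), wf_numP _ _ _ _ (by decide), wf_outs _⟩)
  · rw [free_forR]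
    refine ⟨by simp, by simp, ?_, ?_, free_outs _ _⟩
    · rw [free_numP]; simp
    · rw [free_numP]; simp
  · rw [free_numP]; simp
  · rw [free_numP]; simp

theorem wf_incN (c : ℕ) (r : Rg) : WF (incN c r) := by
  unfold incN
  rw [wf_seqs]
  intro d hd
  rw [List.eq_of_mem_replicate hd]
  trivial

theorem free_incN (c : ℕ) (r : Rg) : Free (incN c r) none := by
  unfold incN
  rw [free_seqs]
  intro d hd
  rw [List.eq_of_mem_replicate hd]
  simp [Free]

theorem wf_prog (P : Par) : WF (prog P) := by
  refine ⟨⟨trivial, trivial, trivial, trivial, trivial⟩, fun a => ?_, ?_, ?_, ?_, wf_progA P,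
    wf_progB P, wf_progC P, wf_progD P,
    ⟨trivial, trivial, trivial, trivial, trivial, trivial, trivial, trivial⟩⟩
  · cases a <;> simp [countB, WF, Free, wf_incN, free_incN]
  · rw [wf_seqs]
    intro c hc
    rw [List.mem_map] at hc
    obtain ⟨j, _, rfl⟩ := hc
    simp [predP, WF, Free]
  · simp [bigP, WF, Free]
  · exact ⟨wf_ones2P _ _ _ (by decide), trivial, wf_outs _, wf_ones2P _ _ _ (by decide), trivial,
      trivial⟩

end wf

/-- **The reduction is computable in polynomial time.** -/
theorem inst_computable (P : Par) :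
    Nonempty (Turing.TM2ComputableInPolyTime Query.encode Instance.encode
      fun z => Query.inst P z) :=
  computable_of_SB (prog P) (wf_prog P) _ (spec_prog P)

/-- The reduction from graphs is computable in polynomial time. -/
theorem graph_inst_computable (P : Par) :
    Nonempty (Turing.TM2ComputableInPolyTime Graph.encode Instance.encode
      fun G => Query.inst P ((G, 0, 0) : Query)) :=
  computable_of_SB (prog P) (wf_prog P) _ fun G => spec_prog P (G, 0, 0)

end Pool.Agent.Lib.MP_dc7e63_lc
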