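import Pool.Agent.Lib.MP_dc7e63_lc.DFA
import Pool.Agent.Lib.MP_dc7e63_lc.Comb
import Pool.Agent.Lib.MP_dc7e63_lc.Prog2

/-!
# A constant-factor approximation solves Gap Densest-k-Subgraph and Gap Small-Set Expansion
-/

namespace Pool.Agent.Lib.MP_dc7e63_lc

open Turing Pool.Agent.Lib.CookLevin

section automaton

variable {T : ℕ} (hT : 0 < T) (p : ℕ)

/-- The automaton that checks that every row whose number is less than `p` modulo `T` has a
positive entry. -/
def step (v : Fin T × Bool × Bool) : Sym → Fin T × Bool × Bool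
  | .one => (v.1, true, v.2.2)
  | .comma => v
  | .semi => (⟨(v.1 + 1) % T, Nat.mod_lt _ hT⟩, false, v.2.2 && (v.2.1 || decide (p ≤ v.1)))
  | .size => v
  | .count => v

theorem fold_num (c : Fin T) (s b : Bool) (e : ℕ) :
    (num e).foldl (step hT p) (c, s, b) = (c, s || decide (0 < e), b) := by
  unfold num
  rw [List.foldl_append]
  have : ∀ (e : ℕ) (s : Bool), (List.replicate e Sym.one).foldl (step hT p) (c, s, b) =
      (c, s || decide (0 < e), b) := by
    intro e
    induction e with
    | zero => intro s; simp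
    | succ e ih =>
      intro s
      rw [List.replicate_succ, List.foldl_cons]
      show (List.replicate e Sym.one).foldl (step hT p) (c, true, b) = _
      rw [ih]
      simp
  rw [this]
  rfl

theorem fold_row (c : Fin T) (b : Bool) : ∀ (row : List ℕ) (s : Bool),
    (row.flatMap num).foldl (step hT p) (c, s, b) = (c, s || decide (∃ e ∈ row, 0 < e), b) := by
  intro row
  induction row with
  | nil => intro s; simp
  | cons e row ih =>
    intro s
    rw [List.flatMap_cons, List.foldl_append, fold_num, ih]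
    congr 2
    rw [Bool.or_assoc]
    congr 1
    simp

theorem fold_word : ∀ (t : List (List ℕ)) (c : ℕ) (b : Bool),
    ((word t).foldl (step hT p) (⟨c % T, Nat.mod_lt _ hT⟩, false, b)).2.2 = true ↔
      b = true ∧ ∀ (j : ℕ) (h : j < t.length), (c + j) % T < p → ∃ e ∈ t[j], 0 < e := by
  intro t
  induction t with
  | nil => intro c b; simp [word]
  | cons row t ih =>
    intro c b
    rw [word_cons, List.foldl_append, List.foldl_append, fold_row]
    have e1 : List.foldl (step hT p)
        (⟨c % T, Nat.mod_lt _ hT⟩, false || decide (∃ e ∈ row, 0 < e), b) [Sym.semi] =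
        (⟨(c + 1) % T, Nat.mod_lt _ hT⟩, false,
          b && (decide (∃ e ∈ row, 0 < e) || decide (p ≤ c % T))) := by
      show (_, _, _) = _
      simp only [Bool.false_or]
      congr 1
      exact Fin.ext (Nat.mod_add_mod c T 1)
    rw [e1, ih (c + 1)]
    simp only [Bool.and_eq_true, Bool.or_eq_true, decide_eq_true_eq]
    constructor
    · rintro ⟨⟨h1, h2⟩, h3⟩
      refine ⟨h1, fun j hj hjp => ?_⟩
      cases j with
      | zero =>
        rcases h2 with h2 | h2
        · exact h2
        · rw [Nat.add_zero] at hjp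
          omega
      | succ j =>
        have := h3 j (by simpa using hj) (by rwa [show c + 1 + j = c + (j + 1) by ring])
        simpa using this
    · rintro ⟨h1, h2⟩
      refine ⟨⟨h1, ?_⟩, fun j hj hjp => ?_⟩
      · by_cases h : c % T < p
        · left
          have := h2 0 (by simp) (by rwa [Nat.add_zero])
          simpa using this
        · right; omega
      · have := h2 (j + 1) (by simpa using hj) (by rwa [show c + (j + 1) = c + 1 + j by ring])
        simpa using this

end automaton

/-- A constant-factor approximation gives an algorithm that distinguishes the two cases. -/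
theorem distinguish {Feas : Instance → (ℕ → Finset ℕ) → Prop}
    (hFeas : ∀ I S, I.numColors = 2 → (Feas I S ↔ Core I S))
    (h : HasConstantFactor twoColors Feas) :
    ∃ A : ℕ, 0 < A ∧ ∀ a b p : ℕ, 0 < a → 0 < b → ∃ P : Par,
      P.a = a ∧ P.b = b ∧ P.A = A ∧ P.p = p ∧ ∃ acc : Query → Bool,
        Nonempty (TM2ComputableInPolyTime Query.encode Computability.encodeBool acc) ∧
        Nonempty (TM2ComputableInPolyTime Graph.encode Computability.encodeBool
          fun G => acc (G, 0, 0)) ∧
        (∀ z : Query, 0 < z.tt P → (∃ S : Finset (Fin z.1.n), a * S.card ≤ z.kk P ∧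
          z.tt P ≤ b * z.1.inner S) → acc z = true) ∧
        ∀ z : Query, (∀ S : Finset (Fin z.1.n), a * S.card ≤ z.kk P →
          64 * A ^ 4 * (b * z.1.inner S) < z.tt P) → acc z = false := by
  obtain ⟨α, alg, ⟨halg⟩, hopt⟩ := h
  obtain ⟨A, hA0, hA⟩ : ∃ A : ℕ, 0 < A ∧ α ≤ A := by
    obtain ⟨A, hA⟩ := exists_nat_ge α
    exact ⟨A + 1, by omega, hA.trans (by push_cast; linarith)⟩
  refine ⟨A, hA0, fun a b p ha hb => ?_⟩
  let P : Par := ⟨a, b, A, p, ha, hb, hA0⟩
  have hPT := P.T_pos
  have h2 : ∀ z : Query, z.inst P ∈ twoColors := fun z => rfl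
  obtain ⟨hdfa⟩ := dfa_computable (step hPT 2) (⟨0 % P.T, Nat.mod_lt _ hPT⟩, false, true)
    (fun v => v.2.2) (ea := word)
  obtain ⟨hinst⟩ := inst_computable P
  obtain ⟨hcomp⟩ := polyTime_comp hinst halg
  have hall := polyTime_comp hcomp hdfa
  obtain ⟨hinst'⟩ := graph_inst_computable P
  obtain ⟨hcomp'⟩ := polyTime_comp hinst' halg
  have hall' := polyTime_comp hcomp' hdfa
  have hacc : ∀ z : Query,
      ((word (alg (z.inst P))).foldl (step hPT 2)
        (⟨0 % P.T, Nat.mod_lt _ hPT⟩, false, true)).2.2 = true ↔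
      ∀ v ∈ P.taxes (z.bnd P), 1 ∈ assignment (alg (z.inst P)) v := by
    intro z
    obtain ⟨hlen, hfeas, -⟩ := hopt (z.inst P) (h2 z)
    have hcore := (hFeas _ _ rfl).1 hfeas
    rw [fold_word]
    simp only [true_and, Nat.zero_add]
    have hN : (z.inst P).numNodes = P.T * (z.bnd P * z.bnd P) := rfl
    have hiff : ∀ (v : ℕ) (hv : v < (alg (z.inst P)).length),
        (∃ e ∈ (alg (z.inst P))[v], 0 < e) ↔ 1 ∈ assignment (alg (z.inst P)) v := by
      intro v hv
      have h1 := (hcore.1 v (by rw [← hlen]; exact hv)).2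
      have h2 : assignment (alg (z.inst P)) v = ((alg (z.inst P))[v]).toFinset := by
        unfold assignment
        rw [List.getD_eq_getElem _ _ hv]
      rw [h2] at h1 ⊢
      rw [List.mem_toFinset]
      constructor
      · rintro ⟨e, he, h0⟩
        have := h1 (List.mem_toFinset.2 he)
        rw [Finset.mem_range] at this
        have : e = 1 := by omega
        rwa [this] at he
      · exact fun he => ⟨1, he, by norm_num⟩
    constructor
    · intro h v hv
      rw [Par.mem_taxes] at hv
      have hv' : v < (alg (z.inst P)).length := by rw [hlen, hN]; exact hv.1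
      exact (hiff v hv').1 (h v hv' hv.2)
    · intro h v hv hp
      refine (hiff v hv).2 (h v ?_)
      rw [Par.mem_taxes, ← hN, ← hlen]
      exact ⟨hv, hp⟩
  have hbest : ∀ z : Query, ∀ S', Core (z.inst P) S' →
      (z.inst P).mistakes (assignment (alg (z.inst P))) ≤ P.A * (z.inst P).mistakes S' := by
    intro z S' hS'
    have h1 := (hopt (z.inst P) (h2 z)).2.2 S' ((hFeas _ _ rfl).2 hS')
    have h2 : ((z.inst P).mistakes (assignment (alg (z.inst P))) : ℝ) ≤
        (A : ℝ) * (z.inst P).mistakes S' :=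
      h1.trans (mul_le_mul_of_nonneg_right hA (Nat.cast_nonneg _))
    exact_mod_cast h2
  refine ⟨P, rfl, rfl, rfl, rfl, _, hall, hall', fun z ht hS => ?_, fun z hno => ?_⟩
  · obtain ⟨S, hS1, hS2⟩ := hS
    exact (hacc z).2 (Query.yes_case P z ht hS1 hS2 (hbest z))
  · have hcore := (hFeas _ _ rfl).1 (hopt (z.inst P) (h2 z)).2.1
    obtain ⟨v, hv, h1⟩ := Query.no_case P z hno hcore (hbest z)
    have h2 := mt (hacc z).1 (fun h => h1 (h v hv))
    exact Bool.not_eq_true _ ▸ h2

/-- **A constant-factor approximation solves Gap Densest-k-Subgraph.** -/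
theorem solved_dense {Feas : Instance → (ℕ → Finset ℕ) → Prop}
    (hFeas : ∀ I S, I.numColors = 2 → (Feas I S ↔ Core I S))
    (h : HasConstantFactor twoColors Feas) :
    ∃ c : ℕ, SolvedInP Query.encode Query.yes (Query.no c) := by
  obtain ⟨A, hA, hall⟩ := distinguish hFeas h
  obtain ⟨P, -, -, -, hp, acc, hacc, -, hyes, hno⟩ := hall 1 1 0 one_pos one_pos
  refine ⟨64 * A ^ 4, acc, hacc, fun z hz => ?_, fun z hz => ?_⟩
  · obtain ⟨ht, S, hS1, hS2⟩ := hz
    refine hyes z ?_ ⟨S, ?_, ?_⟩
    · unfold Query.tt; omega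
    · unfold Query.kk; omega
    · unfold Query.tt
      rw [hp]
      omega
  · refine hno z fun S hS => ?_
    unfold Query.kk at hS
    rw [hp, Nat.zero_mul, Nat.add_zero, Nat.one_mul] at hS
    have := hz S hS
    unfold Query.tt
    rw [Nat.one_mul]
    omega

/-- **A constant-factor approximation solves Gap Small-Set Expansion.** -/
theorem solved {Feas : Instance → (ℕ → Finset ℕ) → Prop}
    (hFeas : ∀ I S, I.numColors = 2 → (Feas I S ↔ Core I S))
    (h : HasConstantFactor twoColors Feas) :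
    ∃ η : ℚ, 0 < η ∧ ∀ δ : ℚ, 0 < δ → δ < 1 →
      SolvedInP Graph.encode (Graph.yes η δ) (Graph.no η δ) := by
  obtain ⟨A, hA, hall⟩ := distinguish hFeas h
  have hA1 : (1 : ℚ) ≤ (A : ℚ) ^ 4 := one_le_pow₀ (by exact_mod_cast hA)
  refine ⟨1 / (200 * (A : ℚ) ^ 4), by positivity, fun δ hδ0 hδ1 => ?_⟩
  set η : ℚ := 1 / (200 * (A : ℚ) ^ 4) with hη
  have hη1 : η ≤ 1 / 2 := by
    rw [hη, div_le_div_iff₀ (by positivity) (by norm_num)]
    linarith
  have hη2 : 128 * (A : ℚ) ^ 4 * η < 1 := by
    have : (A : ℚ) ^ 4 ≠ 0 := by positivity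
    rw [hη]
    field_simp
    norm_num
  have hnum : 0 < δ.num := Rat.num_pos.2 hδ0
  have hcast : ((δ.num.toNat : ℕ) : ℚ) = δ.num := by
    have : ((δ.num.toNat : ℕ) : ℤ) = δ.num := Int.toNat_of_nonneg hnum.le
    exact_mod_cast congrArg (fun z : ℤ => (z : ℚ)) this
  have hden : (0 : ℚ) < δ.den := by exact_mod_cast δ.den_pos
  obtain ⟨p, q, hp0, hq0, hpq, hδ⟩ : ∃ p q : ℕ, 0 < p ∧ 0 < q ∧ p < q ∧ δ = p / q := by
    refine ⟨δ.num.toNat, δ.den, by omega, δ.den_pos, ?_, ?_⟩
    · have : ((δ.num.toNat : ℕ) : ℚ) < δ.den := by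
        rw [← Rat.num_div_den δ, ← hcast, div_lt_one hden] at hδ1
        exact hδ1
      exact_mod_cast this
    · rw [hcast]
      exact (Rat.num_div_den δ).symm
  obtain ⟨P, -, -, -, hp, acc, -, hacc, hyes, hno⟩ := hall q (4 * q) p hq0 (by omega)
  have hq' : (q : ℚ) ≠ 0 := by exact_mod_cast hq0.ne'
  have hkk : ∀ G : Graph, Query.kk P (G, 0, 0) = p * G.n := by
    intro G; unfold Query.kk; rw [hp, Nat.zero_add]
  have htt : ∀ (G : Graph) (d : ℕ), G.Regular d → Query.tt P (G, 0, 0) = p * (d * G.n) := by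
    intro G d hd
    unfold Query.tt
    rw [hp, Nat.zero_add, G.K_eq, G.two_m hd]
  have hqs : ∀ (G : Graph) (s : ℕ), (s : ℚ) = δ * G.n → q * s = p * G.n := by
    intro G s hs
    have : (q : ℚ) * s = p * G.n := by
      rw [hs, hδ]; field_simp
    exact_mod_cast this
  refine ⟨_, hacc, fun G hG => ?_, fun G hG => ?_⟩
  · obtain ⟨hn, d, hd, hreg, S, hS, hcut⟩ := hG
    have h1 := hqs G _ hS
    have hic := G.two_inner_add_cut hreg S
    have hin : d * S.card ≤ 4 * G.inner S := by
      have h1 : (G.cut S : ℚ) ≤ 1 / 2 * (d * S.card) :=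
        hcut.trans (mul_le_mul_of_nonneg_right hη1 (by positivity))
      have h2 : (2 * G.cut S : ℚ) ≤ d * S.card := by linarith
      have h3 : 2 * G.cut S ≤ d * S.card := by exact_mod_cast h2
      omega
    refine hyes (G, 0, 0) ?_ ⟨S, ?_, ?_⟩
    · rw [htt G d hreg]
      exact Nat.mul_pos hp0 (Nat.mul_pos hd hn)
    · rw [hkk G]
      exact h1.le
    · rw [htt G d hreg]
      calc p * (d * G.n) = d * (p * G.n) := by ring
        _ = d * (q * S.card) := by rw [h1]
        _ = q * (d * S.card) := by ring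
        _ ≤ q * (4 * G.inner S) := Nat.mul_le_mul_left _ hin
        _ = 4 * q * G.inner S := by ring
  · obtain ⟨hn, d, hd, hreg, ⟨s, hs⟩, hcut⟩ := hG
    have h1 := hqs G _ hs
    have hs0 : 0 < s := by
      rcases Nat.eq_zero_or_pos s with h | h
      · rw [h] at h1
        have := Nat.mul_pos hp0 hn
        omega
      · exact h
    have hsn : s ≤ G.n := by
      have h2 : q * s ≤ q * G.n := by
        rw [h1]
        exact Nat.mul_le_mul_right _ hpq.le
      exact Nat.le_of_mul_le_mul_left h2 hq0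
    refine hno (G, 0, 0) fun S hS => ?_
    rw [hkk G, ← h1] at hS
    have hS' : S.card ≤ s := Nat.le_of_mul_le_mul_left hS hq0
    obtain ⟨S', hSS', -, hS'c⟩ := Finset.exists_subsuperset_card_eq (Finset.subset_univ S) hS'
      (by simpa using hsn)
    have hmono := G.inner_mono hSS'
    have hic := G.two_inner_add_cut hreg S'
    have hc := hcut S' (by rw [hS'c, hs])
    rw [hS'c] at hc hic
    rw [htt G d hreg]
    show 64 * A ^ 4 * (4 * q * G.inner S) < p * (d * G.n)
    have h3 : 256 * A ^ 4 * G.inner S' < d * s := by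
      have h4 : (2 * G.inner S' : ℚ) ≤ η * (d * s) := by
        have h9 : (2 * G.inner S' + G.cut S' : ℚ) = d * s := by exact_mod_cast hic
        linarith
      have h5 : (0 : ℚ) < d * s := by
        have := Nat.mul_pos hd hs0
        exact_mod_cast this
      have h6 : (256 * A ^ 4 * G.inner S' : ℚ) < d * s := by
        calc (256 * A ^ 4 * G.inner S' : ℚ) = 128 * (A : ℚ) ^ 4 * (2 * G.inner S') := by ring
          _ ≤ 128 * (A : ℚ) ^ 4 * (η * (d * s)) := mul_le_mul_of_nonneg_left h4 (by positivity)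
          _ = (128 * (A : ℚ) ^ 4 * η) * (d * s) := by ring
          _ < 1 * (d * s) := mul_lt_mul_of_pos_right hη2 h5
          _ = d * s := one_mul _
      exact_mod_cast h6
    calc 64 * A ^ 4 * (4 * q * G.inner S) = q * (256 * A ^ 4 * G.inner S) := by ring
      _ ≤ q * (256 * A ^ 4 * G.inner S') := Nat.mul_le_mul_left _ (Nat.mul_le_mul_left _ hmono)
      _ < q * (d * s) := Nat.mul_lt_mul_of_pos_left h3 hq0
      _ = d * (q * s) := by ring
      _ = p * (d * G.n) := by rw [h1]; ring

/-- **If P ≠ NP then the Small-Set Expansion Hypothesis excludes a constant-factor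
approximation.** -/
theorem not_approx {Feas : Instance → (ℕ → Finset ℕ) → Prop}
    (hFeas : ∀ I S, I.numColors = 2 → (Feas I S ↔ Core I S)) (hSSE : SSEHypothesis)
    (hP : PNeNP) : ¬ HasConstantFactor twoColors Feas := by
  intro h
  obtain ⟨η, hη, hsol⟩ := solved hFeas h
  obtain ⟨δ, hδ0, hδ1, hhard⟩ := hSSE η hη
  obtain ⟨g, ⟨hg⟩, hyes, hno⟩ := hsol δ hδ0 hδ1
  obtain ⟨L, hL, hL'⟩ := hP
  obtain ⟨f, ⟨hf⟩, hred⟩ := hhard L hL
  refine hL' ⟨g ∘ f, polyTime_comp hf hg, fun x => ?_⟩
  constructor
  · intro hx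
    exact hyes _ ((hred x).1 hx)
  · intro hx
    by_contra hcon
    have := hno _ ((hred x).2 hcon)
    rw [Function.comp_apply, this] at hx
    exact absurd hx (by simp)

theorem HasConstantFactor.mono {Feas : Instance → (ℕ → Finset ℕ) → Prop} {D E : Set Instance}
    (h : HasConstantFactor D Feas) (hE : E ⊆ D) : HasConstantFactor E Feas := by
  obtain ⟨α, alg, h1, h2⟩ := h
  exact ⟨α, alg, h1, fun I hI => h2 I (hE hI)⟩

/-- **No constant-factor approximation.** -/
theorem no_approx {Feas : Instance → (ℕ → Finset ℕ) → Prop}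
    (hFeas : ∀ I S, I.numColors = 2 → (Feas I S ↔ Core I S))
    (h : DenseSubgraphHard ∨ (SSEHypothesis ∧ PNeNP)) {D : Set Instance} (hD : twoColors ⊆ D) :
    ¬ HasConstantFactor D Feas := by
  intro hD'
  have h1 := hD'.mono hD
  rcases h with h | ⟨h, h'⟩
  · obtain ⟨c, hc⟩ := solved_dense hFeas h1
    exact h c hc
  · exact not_approx hFeas h h' h1

end Pool.Agent.Lib.MP_dc7e63_lc
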