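import Pool.Agent.Lib.MP_dc7e63_lc.Bounded
import Pool.Agent.Lib.MP_dc7e63_lc.Count

/-!
# The program that prints the instance
-/

namespace Pool.Agent.Lib.MP_dc7e63_lc

open Function Pool.Agent.Lib.MP_c85d9c_lc Cmd

/-- The counters of the program. -/
inductive Rg
  | M | K | B | B1 | B2 | X | Y | F | G | E | U | L | Z | Kk | I1 | I2 | Q | T | J
  deriving DecidableEq

instance : Fintype Rg :=
  ⟨{.M, .K, .B, .B1, .B2, .X, .Y, .F, .G, .E, .U, .L, .Z, .Kk, .I1, .I2, .Q, .T, .J},
    fun x => by cases x <;> decide⟩

/-- Programs with these counters. -/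
abbrev Prog := Cmd Sym Rg

section rules

variable {N : ℕ} {inp : List Sym}

theorem flatMap_replicate (n k : ℕ) (a : Sym) :
    ((List.range n).flatMap fun _ => List.replicate k a) = List.replicate (n * k) a := by
  induction n with
  | zero => simp
  | succ n ih =>
    rw [List.range_succ, List.flatMap_append, ih, List.flatMap_cons, List.flatMap_nil,
      List.append_nil, List.replicate_append_replicate, Nat.succ_mul]

theorem SB.rep {r : Rg} {c : Prog} {ρ : Rg → ℕ} {w : List Sym} (h : ρ r ≤ N)
    (hc : SB N inp c ρ ρ w) :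
    SB N inp (.each (some r) fun _ => c) ρ ρ ((List.range (ρ r)).flatMap fun _ => w) :=
  SB.for (σ := fun _ => ρ) (w := fun _ => w) rfl h fun _ _ => hc

/-- Prints `c` times the value of `r` ticks. -/
def onesP (c : ℕ) (r : Rg) : Prog := .each (some r) fun _ => outs (List.replicate c Sym.one)

theorem SB.ones {c : ℕ} {r : Rg} {ρ : Rg → ℕ} (h : ρ r ≤ N) :
    SB N inp (onesP c r) ρ ρ (List.replicate (ρ r * c) Sym.one) := by
  have := SB.rep (N := N) (inp := inp) h (SB.outs (ρ := ρ) (List.replicate c Sym.one))
  rw [flatMap_replicate] at this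
  exact this

/-- Prints `c` times the product of the values of `r` and `r'` ticks. -/
def ones2P (c : ℕ) (r r' : Rg) : Prog := .each (some r) fun _ => onesP c r'

theorem SB.ones2 {c : ℕ} {r r' : Rg} {ρ : Rg → ℕ} (h : ρ r ≤ N) (h' : ρ r' ≤ N) :
    SB N inp (ones2P c r r') ρ ρ (List.replicate (ρ r * (ρ r' * c)) Sym.one) := by
  have := SB.rep (N := N) (inp := inp) h (SB.ones (c := c) (ρ := ρ) h')
  rw [flatMap_replicate] at this
  exact this

variable (P : Par)

/-- Prints the number of a node. -/
def numP (t : ℕ) (rx ry : Rg) : Prog :=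
  .seq (outs (List.replicate t Sym.one)) (.seq (onesP P.T rx) (.seq (ones2P P.T ry Rg.B)
    (.out Sym.comma)))

variable {P}

theorem SB.num {t : ℕ} {rx ry : Rg} {ρ : Rg → ℕ} (hx : ρ rx ≤ N) (hy : ρ ry ≤ N)
    (hB : ρ Rg.B ≤ N) :
    SB N inp (numP P t rx ry) ρ ρ (num (P.code (ρ Rg.B) t (ρ rx) (ρ ry))) := by
  refine (SB.seq (SB.outs _) (SB.seq (SB.ones hx) (SB.seq (SB.ones2 hy hB)
    (SB.out _)))).cast rfl ?_
  unfold MP_dc7e63_lc.num Par.code
  rw [← List.append_assoc, ← List.append_assoc, List.replicate_append_replicate,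
    List.replicate_append_replicate]
  congr 2
  ring

end rules

/-- A hyperedge as a word. -/
def encE (z : List ℕ × ℕ × ℕ) : List Sym :=
  z.1.flatMap num ++ (num z.2.1 ++ (num z.2.2 ++ [Sym.semi]))

theorem encode_inst (P : Par) (z : Query) : (z.inst P).encode =
    num (P.T * (z.bnd P * z.bnd P)) ++ (num 2 ++ (num (z.bud P) ++ ([Sym.semi] ++
      (P.allEdges (z.bnd P) (z.kk P) (z.tt P) z.1.lists).flatMap encE))) := by
  unfold Instance.encode
  rw [word_cons]
  unfold Query.inst
  simp only [List.flatMap_cons, List.flatMap_nil, List.append_nil, List.append_assoc]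
  congr 4
  unfold word
  rw [List.map_map, List.flatMap_map]
  congr 1
  funext z
  unfold encE Par.edgeOf
  simp

/-- The state after the first pass. -/
def base (m k b g q t : ℕ) : Rg → ℕ
  | .M => m
  | .K => k
  | .B => b
  | .B1 => b
  | .B2 => b
  | .G => g
  | .Q => q
  | .T => t
  | _ => 0

section parts

variable {P : Par} {N : ℕ} {inp : List Sym} {m k b g q t : ℕ}

/-! ### Kind A -/

/-- Prints all tax nodes. -/
def taxP (P : Par) : Prog :=
  seqs ((List.range 2).map fun i => forR .B1 .I1 (forR .B2 .I2 (numP P i .I2 .I1)))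

/-- Prints the hyperedges of kind A. -/
def progA (P : Par) : Prog :=
  seqs ((List.range P.A).map fun j => forR .Q .L (.seq (taxP P)
    (.seq (numP P (P.tA + j) .L .Z) (outs (num 1 ++ [Sym.semi])))))

theorem spec_tax (hb : b ≤ N) {l : ℕ} :
    SB N inp (taxP P) (update (base m k b g q t) .L l) (update (base m k b g q t) .L l)
      ((P.taxes b).flatMap num) := by
  unfold taxP Par.taxes
  rw [List.flatMap_assoc]
  refine SB.seqs _ _ _ fun i _ => ?_
  rw [List.flatMap_assoc]
  have h1 : (update (base m k b g q t) .L l) Rg.B1 = b := rfl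
  refine (SB.forR (r := Rg.B1) (idx := Rg.I1)
    (w := fun y => (List.range b).flatMap fun x => num (P.code b i x y)) rfl
    (by rw [h1]; exact hb) fun y hy => ?_).cast rfl ?_
  · have h2 : (update (update (base m k b g q t) .L l) .I1 y) Rg.B2 = b := rfl
    refine (SB.forR (r := Rg.B2) (idx := Rg.I2) (w := fun x => num (P.code b i x y)) rfl
      (by rw [h2]; exact hb) fun x hx => ?_).cast rfl (by rw [h2])
    rw [h1] at hy
    rw [h2] at hx
    exact SB.num (P := P) (t := i) (rx := .I2) (ry := .I1)
      (ρ := update (update (update (base m k b g q t) .L l) .I1 y) .I2 x) (N := N)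
      (show x ≤ N by omega) (show y ≤ N by omega) (show b ≤ N from hb)
  · rw [h1]
    refine List.flatMap_congr fun y _ => ?_
    rw [List.flatMap_map]

theorem spec_A {κ : ℕ} (hb : b ≤ N) (hq : κ + 1 ≤ N) :
    SB N inp (progA P) (base m k b g (κ + 1) t) (base m k b g (κ + 1) t)
      ((P.edgesA b κ).flatMap encE) := by
  unfold progA Par.edgesA
  rw [List.flatMap_assoc]
  refine SB.seqs _ _ _ fun j _ => ?_
  rw [List.flatMap_map]
  have h1 : (base m k b g (κ + 1) t) Rg.Q = κ + 1 := rfl
  refine (SB.forR (r := Rg.Q) (idx := Rg.L)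
    (w := fun l => encE (P.taxes b, P.code b (P.tA + j) l 0, 1)) rfl
    (by rw [h1]; exact hq) fun l hl => ?_).cast rfl (by rw [h1])
  rw [h1] at hl
  refine SB.seq (spec_tax hb) (SB.seq ?_ (SB.outs _))
  exact SB.num (P := P) (t := P.tA + j) (rx := .L) (ry := .Z)
    (ρ := update (base m k b g (κ + 1) t) .L l) (N := N)
    (show l ≤ N by omega) (show 0 ≤ N by omega) (show b ≤ N from hb)

/-! ### Kind B -/

/-- Prints the copies of the edge `E`. -/
def copP (P : Par) : Prog := seqs ((List.range (2 * P.b)).map fun c => numP P (2 + c) .E .Z)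

theorem spec_cop {ρ : Rg → ℕ} (hb : ρ .B = b) (hbN : b ≤ N) (hZ : ρ .Z = 0) (hE : ρ .E ≤ N) :
    SB N inp (copP P) ρ ρ ((P.copies b (ρ .E)).flatMap num) := by
  unfold copP Par.copies
  rw [List.flatMap_map]
  refine SB.seqs _ _ _ fun c _ => ?_
  have := SB.num (P := P) (t := 2 + c) (rx := .E) (ry := .Z) (ρ := ρ) (N := N) (inp := inp)
    hE (by omega) (by omega)
  rw [hb, hZ] at this
  exact this

/-- One step of the pass that prints the hyperedges of kind B. -/
def bodyB (P : Par) (i : ℕ) : Sym → Prog
  | .one => .inc .E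
  | .comma => .seq (copP P) (.clr .E)
  | .semi => .seq (numP P (P.tB + i) .U .Z) (.seq (outs (num 1 ++ [Sym.semi])) (.inc .U))
  | .size => .skip
  | .count => .skip

/-- Prints the hyperedges of kind B. -/
def progB (P : Par) : Prog :=
  seqs ((List.range P.a).map fun i => .seq (.each none (bodyB P i)) (.clr .U))

theorem spec_ticks {f : Sym → Prog} (hf : f Sym.one = .inc .E) (ρ : Rg → ℕ) : ∀ (e a : ℕ),
    SBL N inp f (List.replicate e Sym.one) (update ρ .E a) (update ρ .E (a + e)) [] := by
  intro e
  induction e with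
  | zero => intro a; exact SBL.nil
  | succ e ih =>
    intro a
    rw [List.replicate_succ]
    have h1 := SB.inc (N := N) (inp := inp) (ρ := update ρ .E a) Rg.E
    rw [← hf, update_self, update_idem] at h1
    have h2 := SBL.cons h1 (ih (a + 1))
    rw [show a + 1 + e = a + (e + 1) by ring] at h2
    exact h2

theorem spec_skips {f : Sym → Prog} {a : Sym} (hf : f a = .skip) (ρ : Rg → ℕ) : ∀ (e : ℕ),
    SBL N inp f (List.replicate e a) ρ ρ [] := by
  intro e
  induction e with
  | zero => exact SBL.nil
  | succ e ih =>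
    rw [List.replicate_succ]
    have h1 := SB.skip (N := N) (inp := inp) (ρ := ρ)
    rw [← hf] at h1
    exact SBL.cons h1 ih

/-- A pass over the code of a query, where the first two symbols are skipped. -/
theorem spec_query {f : Sym → Prog} (h1 : f .size = .skip) (h2 : f .count = .skip) {z : Query}
    {ρ ρ' : Rg → ℕ} {w : List Sym} (h : SBL N inp f (word z.1.lists) ρ ρ' w) :
    SBL N inp f z.encode ρ ρ' w := by
  have := SBL.append (spec_skips (N := N) (inp := inp) h1 ρ z.2.1)
    (SBL.append (spec_skips (N := N) (inp := inp) h2 ρ z.2.2) h)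
  exact this

/-- One number in a pass over the input. -/
theorem spec_number {f : Sym → Prog} (hf : f Sym.one = .inc .E) {ρ ρ' : Rg → ℕ} (h0 : ρ .E = 0)
    {e : ℕ} {w : List Sym} (h : SB N inp (f Sym.comma) (update ρ .E e) ρ' w) :
    SBL N inp f (num e) ρ ρ' w := by
  have h1 := spec_ticks (N := N) (inp := inp) hf ρ e 0
  rw [Nat.zero_add] at h1
  have h2 : update ρ .E 0 = ρ := by rw [← h0, update_eq_self]
  rw [h2] at h1
  have h3 := SBL.append h1 (SBL.cons h SBL.nil)
  unfold num
  simpa using h3

theorem spec_rowB (hb : b ≤ N) {i v : ℕ} : ∀ L : List ℕ, (∀ e ∈ L, e ≤ N) →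
    SBL N inp (bodyB P i) (L.flatMap num) (update (base m k b g q t) .U v)
      (update (base m k b g q t) .U v) ((L.flatMap (P.copies b)).flatMap num) := by
  intro L
  induction L with
  | nil => intro _; exact SBL.nil
  | cons e L ih =>
    intro h
    rw [List.flatMap_cons, List.flatMap_cons, List.flatMap_append]
    refine SBL.append (spec_number rfl rfl ?_) (ih fun e he => h e (by simp [he]))
    have h1 := spec_cop (P := P) (N := N) (inp := inp) (b := b)
      (ρ := update (update (base m k b g q t) .U v) .E e) rfl hb rfl (h e (by simp))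
    have h2 := SB.clr (N := N) (inp := inp)
      (ρ := update (update (base m k b g q t) .U v) .E e) Rg.E (h e (by simp))
    refine (SB.seq h1 h2).cast ?_ ?_
    · rw [update_idem]
      funext r; cases r <;> rfl
    · rw [List.append_nil]
      rfl

theorem spec_passB (hb : b ≤ N) {i : ℕ} : ∀ (Ls : List (List ℕ)) (v : ℕ),
    (∀ L ∈ Ls, ∀ e ∈ L, e ≤ N) → v + Ls.length ≤ N →
    SBL N inp (bodyB P i) (word Ls) (update (base m k b g q t) .U v)
      (update (base m k b g q t) .U (v + Ls.length))
      ((Ls.zipIdx v).flatMap fun z => encE (z.1.flatMap (P.copies b), P.code b (P.tB + i) z.2 0, 1))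
        := by
  intro Ls
  induction Ls with
  | nil => intro v _ _; exact SBL.nil
  | cons L Ls ih =>
    intro v h hv
    rw [List.length_cons] at hv
    rw [word_cons, List.zipIdx_cons, List.flatMap_cons]
    have h1 := spec_rowB (P := P) (N := N) (inp := inp) (m := m) (k := k) (g := g) (q := q)
      (t := t) (i := i) (v := v) hb L (h L (by simp))
    have h2 := SB.num (P := P) (t := P.tB + i) (rx := .U) (ry := .Z) (inp := inp)
      (ρ := update (base m k b g q t) .U v) (N := N)
      (show v ≤ N by omega) (show 0 ≤ N by omega) (show b ≤ N from hb)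
    have h3 := SB.outs (N := N) (inp := inp) (ρ := update (base m k b g q t) .U v)
      (num 1 ++ [Sym.semi])
    have h4 := SB.inc (N := N) (inp := inp) (ρ := update (base m k b g q t) .U v) Rg.U
    rw [update_self, update_idem] at h4
    have h5 : SBL N inp (bodyB P i) [Sym.semi] (update (base m k b g q t) .U v)
        (update (base m k b g q t) .U (v + 1)) _ := SBL.cons (SB.seq h2 (SB.seq h3 h4)) SBL.nil
    have h6 := ih (v + 1) (fun L hL => h L (by simp [hL])) (by omega)
    have h7 := SBL.append (SBL.append h1 h5) h6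
    refine h7.cast ?_ ?_
    · rw [List.length_cons]
      congr 1
      ring
    · unfold encE
      simp only [List.append_nil, List.append_assoc]
      rfl

theorem spec_B {z : Query} (hb : b ≤ N) (hinp : z.encode.length ≤ N) :
    SB N z.encode (progB P) (base m k b g q t) (base m k b g q t)
      ((P.edgesB b z.1.lists.zipIdx).flatMap encE) := by
  unfold progB Par.edgesB
  rw [List.flatMap_assoc]
  obtain ⟨h1, h2, h3⟩ := length_word z.1.lists
  have h0 := z.length_encode
  rw [z.1.encode_eq] at h0
  refine SB.seqs _ _ _ fun i _ => ?_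
  rw [List.flatMap_map]
  have h4 := spec_query (z := z) rfl rfl
    (spec_passB (P := P) (N := N) (inp := z.encode) (m := m) (k := k) (g := g) (q := q) (t := t)
    (i := i) hb z.1.lists 0 (fun L hL e he => (h3 L hL e he).trans (by omega)) (by omega))
  have e0 : update (base m k b g q t) .U 0 = base m k b g q t := by
    funext r; cases r <;> rfl
  rw [e0, Nat.zero_add] at h4
  have h5 := SB.clr (N := N) (inp := z.encode)
    (ρ := update (base m k b g q t) .U z.1.lists.length) Rg.U
    (show z.1.lists.length ≤ N by omega)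
  rw [update_idem, e0] at h5
  refine (SB.seq (SB.pass hinp h4) h5).cast rfl ?_
  rw [List.append_nil]

/-! ### Kind C -/

/-- Prints the hyperedges of kind C for one incidence. -/
def gadP (P : Par) : Prog :=
  seqs ((List.range (2 * P.b)).map fun h => seqs ((List.range P.C).map fun c =>
    forR .M .L (.seq (numP P (2 + h) .E .Z) (.seq (numP P (P.t1 + (h * P.C + c)) .Kk .L)
      (outs (num 0 ++ [Sym.semi]))))))

/-- One step of the pass that prints the hyperedges of kind C. -/
def bodyC (P : Par) : Sym → Prog
  | .one => .inc .E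
  | .comma => .seq (gadP P) (.seq (.clr .E) (.inc .Kk))
  | .semi => .skip
  | .size => .skip
  | .count => .skip

/-- Prints the hyperedges of kind C. -/
def progC (P : Par) : Prog := .seq (.each none (bodyC P)) (.clr .Kk)

theorem spec_gad {ρ : Rg → ℕ} (hb : ρ .B = b) (hbN : b ≤ N) (hZ : ρ .Z = 0) (hE : ρ .E ≤ N)
    (hK : ρ .Kk ≤ N) (hM : ρ .M = m) (hn : m ≤ N) (hL : ρ .L = 0) :
    SB N inp (gadP P) ρ ρ ((P.gadget b m (ρ .E) (ρ .Kk)).flatMap encE) := by
  unfold gadP Par.gadget
  rw [List.flatMap_assoc]
  refine SB.seqs _ _ _ fun h _ => ?_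
  rw [List.flatMap_assoc]
  refine SB.seqs _ _ _ fun c _ => ?_
  rw [List.flatMap_map]
  refine (SB.forR (r := Rg.M) (idx := Rg.L) (w := fun l => encE ([P.code b (2 + h) (ρ .E) 0],
    P.code b (P.t1 + (h * P.C + c)) (ρ .Kk) l, 0)) hL (by omega) fun l hl => ?_).cast rfl
    (by rw [hM])
  have hlN : l ≤ N := by omega
  have e1 : ∀ r, r ≠ Rg.L → update ρ .L l r = ρ r := fun r hr => update_of_ne hr _ _
  have h1 := SB.num (P := P) (t := 2 + h) (rx := .E) (ry := .Z) (ρ := update ρ .L l) (N := N)
    (inp := inp) (by rw [e1 _ (by decide)]; exact hE) (by rw [e1 _ (by decide)]; omega)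
    (by rw [e1 _ (by decide)]; omega)
  rw [e1 _ (by decide), e1 _ (by decide), e1 _ (by decide), hb, hZ] at h1
  have h2 := SB.num (P := P) (t := P.t1 + (h * P.C + c)) (rx := .Kk) (ry := .L)
    (ρ := update ρ .L l) (N := N) (inp := inp) (by rw [e1 _ (by decide)]; exact hK)
    (by rw [update_self]; exact hlN) (by rw [e1 _ (by decide)]; omega)
  rw [e1 _ (by decide), e1 _ (by decide), update_self, hb] at h2
  refine (SB.seq h1 (SB.seq h2 (SB.outs _))).cast rfl ?_
  unfold encE
  simp

theorem spec_rowC (hb : b ≤ N) (hn : m ≤ N) : ∀ (L : List ℕ) (j : ℕ), (∀ e ∈ L, e ≤ N) →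
    j + L.length ≤ N →
    SBL N inp (bodyC P) (L.flatMap num) (update (base m k b g q t) .Kk j)
      (update (base m k b g q t) .Kk (j + L.length))
      ((P.edgesC b m (L.zipIdx j)).flatMap encE) := by
  intro L
  induction L with
  | nil => intro j _ _; exact SBL.nil
  | cons e L ih =>
    intro j h hj
    rw [List.length_cons] at hj
    rw [List.flatMap_cons, List.zipIdx_cons]
    unfold Par.edgesC
    rw [List.flatMap_cons, List.flatMap_append]
    have h1 := spec_gad (P := P) (N := N) (inp := inp) (b := b) (m := m)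
      (ρ := update (update (base m k b g q t) .Kk j) .E e) rfl hb rfl (h e (by simp))
      (show j ≤ N by omega) rfl hn rfl
    have h2 := SB.clr (N := N) (inp := inp)
      (ρ := update (update (base m k b g q t) .Kk j) .E e) Rg.E (h e (by simp))
    have e2 : update (update (update (base m k b g q t) .Kk j) .E e) .E 0 =
        update (base m k b g q t) .Kk j := by
      funext r; cases r <;> rfl
    rw [e2] at h2
    have h3 := SB.inc (N := N) (inp := inp) (ρ := update (base m k b g q t) .Kk j) Rg.Kk
    rw [update_self, update_idem] at h3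
    have h4 : SBL N inp (bodyC P) (num e) (update (base m k b g q t) .Kk j)
        (update (base m k b g q t) .Kk (j + 1)) _ :=
      spec_number rfl rfl (SB.seq h1 (SB.seq h2 h3))
    have h5 := ih (j + 1) (fun e he => h e (by simp [he])) (by omega)
    refine (SBL.append h4 h5).cast ?_ ?_
    · rw [List.length_cons]
      congr 1
      ring
    · rw [List.append_nil, List.append_nil]
      rfl

theorem spec_passC (hb : b ≤ N) (hn : m ≤ N) : ∀ (Ls : List (List ℕ)) (j : ℕ),
    (∀ L ∈ Ls, ∀ e ∈ L, e ≤ N) → j + Ls.flatten.length ≤ N →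
    SBL N inp (bodyC P) (word Ls) (update (base m k b g q t) .Kk j)
      (update (base m k b g q t) .Kk (j + Ls.flatten.length))
      ((P.edgesC b m (Ls.flatten.zipIdx j)).flatMap encE) := by
  intro Ls
  induction Ls with
  | nil => intro j _ _; exact SBL.nil
  | cons L Ls ih =>
    intro j h hj
    rw [List.flatten_cons, List.length_append] at hj
    have h1 := spec_rowC (P := P) (N := N) (inp := inp) (m := m) (k := k) (g := g) (q := q)
      (t := t) hb hn L j (h L (by simp)) (by omega)
    have h2 : SBL N inp (bodyC P) [Sym.semi] (update (base m k b g q t) .Kk (j + L.length))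
        (update (base m k b g q t) .Kk (j + L.length)) _ := SBL.cons SB.skip SBL.nil
    have h3 := ih (j + L.length) (fun L hL => h L (by simp [hL])) (by omega)
    rw [word_cons]
    refine (SBL.append (SBL.append h1 h2) h3).cast ?_ ?_
    · rw [List.flatten_cons, List.length_append, Nat.add_assoc]
    · rw [List.flatten_cons, List.zipIdx_append]
      unfold Par.edgesC
      rw [List.flatMap_append, List.flatMap_append]
      simp only [List.append_nil]

theorem spec_C {z : Query} (hb : b ≤ N) (hn : m ≤ N) (hinp : z.encode.length ≤ N) :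
    SB N z.encode (progC P) (base m k b g q t) (base m k b g q t)
      ((P.edgesC b m z.1.lists.flatten.zipIdx).flatMap encE) := by
  unfold progC
  obtain ⟨h1, h2, h3⟩ := length_word z.1.lists
  have h0 := z.length_encode
  rw [z.1.encode_eq] at h0
  have h4 := spec_query (z := z) rfl rfl
    (spec_passC (P := P) (N := N) (inp := z.encode) (m := m) (k := k) (g := g) (q := q) (t := t)
    hb hn z.1.lists 0 (fun L hL e he => (h3 L hL e he).trans (by omega)) (by omega))
  have e0 : update (base m k b g q t) .Kk 0 = base m k b g q t := by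
    funext r; cases r <;> rfl
  rw [e0, Nat.zero_add] at h4
  have h5 := SB.clr (N := N) (inp := z.encode)
    (ρ := update (base m k b g q t) .Kk z.1.lists.flatten.length) Rg.Kk
    (show z.1.lists.flatten.length ≤ N by omega)
  rw [update_idem, e0] at h5
  refine (SB.seq (SB.pass hinp h4) h5).cast rfl ?_
  rw [List.append_nil]

/-! ### Kind D -/

/-- Prints the hyperedges of kind D. -/
def progD (P : Par) : Prog :=
  seqs ((List.range 2).map fun i => seqs ((List.range P.C).map fun c =>
    forR .T .J (forR .M .L (.seq (numP P i .J .Z) (.seq (numP P (P.t2 + (i * P.C + c)) .J .L)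
      (outs (num 0 ++ [Sym.semi])))))))

theorem spec_D (hb : b ≤ N) (hn : m ≤ N) (ht : t ≤ N) :
    SB N inp (progD P) (base m k b g q t) (base m k b g q t)
      ((P.edgesD b m t).flatMap encE) := by
  unfold progD Par.edgesD
  rw [List.flatMap_assoc]
  refine SB.seqs _ _ _ fun i _ => ?_
  rw [List.flatMap_assoc]
  refine SB.seqs _ _ _ fun c _ => ?_
  rw [List.flatMap_assoc]
  have h1 : (base m k b g q t) Rg.T = t := rfl
  refine (SB.forR (r := Rg.T) (idx := Rg.J) (w := fun j => (List.range m).flatMap fun l =>
    encE ([P.code b i j 0], P.code b (P.t2 + (i * P.C + c)) j l, 0)) rfl (by rw [h1]; exact ht)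
    fun j hj => ?_).cast rfl ?_
  · rw [h1] at hj
    have h2 : (update (base m k b g q t) .J j) Rg.M = m := rfl
    refine (SB.forR (r := Rg.M) (idx := Rg.L) (w := fun l =>
      encE ([P.code b i j 0], P.code b (P.t2 + (i * P.C + c)) j l, 0)) rfl (by rw [h2]; exact hn)
      fun l hl => ?_).cast rfl (by rw [h2])
    rw [h2] at hl
    have h3 := SB.num (P := P) (t := i) (rx := .J) (ry := .Z) (inp := inp)
      (ρ := update (update (base m k b g q t) .J j) .L l) (N := N)
      (show j ≤ N by omega) (show 0 ≤ N by omega) (show b ≤ N from hb)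
    have h4 := SB.num (P := P) (t := P.t2 + (i * P.C + c)) (rx := .J) (ry := .L) (inp := inp)
      (ρ := update (update (base m k b g q t) .J j) .L l) (N := N)
      (show j ≤ N by omega) (show l ≤ N by omega) (show b ≤ N from hb)
    refine (SB.seq h3 (SB.seq h4 (SB.outs _))).cast rfl ?_
    unfold encE
    simp only [List.flatMap_cons, List.flatMap_nil, List.append_nil]
    rfl
  · rw [h1]
    refine List.flatMap_congr fun y _ => ?_
    rw [List.flatMap_map]

end parts

end Pool.Agent.Lib.MP_dc7e63_lc
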